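import Pool.Agent.Helper611.UF.Stm

/-!
# Project UF: part CLOSE: every Borel core extends to a closed Borel core
-/

set_option autoImplicit false

namespace Pool.Agent.Helper611.UF.Close

open MeasureTheory Set

/-- equality of two measurable functions -/
theorem measurable_eq' {V Z : Type} [MeasurableSpace V] [StandardBorelSpace V]
    [MeasurableSpace Z] {f g : Z → V} (hf : Measurable f) (hg : Measurable g) :
    Measurable fun z => f z = g z := by
  have h1 : (fun z => f z = g z) = fun z => embeddingReal V (f z) = embeddingReal V (g z) := by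
    funext z
    exact propext ⟨fun h => by rw [h], fun h => (measurableEmbedding_embeddingReal V).injective h⟩
  rw [h1, ← measurableSet_setOfPred]
  exact measurableSet_eq_fun ((measurable_embeddingReal V).comp hf)
    ((measurable_embeddingReal V).comp hg)

variable {V : Type}

/-- `w n x` would have two good neighbours after adding the pattern `π` at `x` -/
def TwoPat (G : SimpleGraph V) (w : ℕ → V → V) (A : Bool → Set V) (π : List (ℕ × Bool))
    (n : ℕ) (b : Bool) (x : V) : Prop :=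
  ∃ i j, ¬ w i x = w j x ∧ G.Adj (w n x) (w i x) ∧ G.Adj (w n x) (w j x) ∧
    (w i x ∈ A (!b) ∨ ∃ m, (m, !b) ∈ π ∧ w m x = w i x) ∧
    (w j x ∈ A (!b) ∨ ∃ m, (m, !b) ∈ π ∧ w m x = w j x)

/-- the points at which the pattern `π` can be added -/
def BB (G : SimpleGraph V) (w : ℕ → V → V) (A : Bool → Set V) (π : List (ℕ × Bool))
    (κ : V → ℕ) (i : ℕ) (x : V) : Prop :=
  κ x = i ∧ ∀ n b, (n, b) ∈ π → (∀ b', ¬ w n x ∈ A b') ∧
    (∀ m b', (m, b') ∈ π → w n x = w m x → b = b') ∧ TwoPat G w A π n b x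

/-- the new points of colour `b` -/
def New (w : ℕ → V → V) (B : V → Prop) (π : List (ℕ × Bool)) (b : Bool) : Set V :=
  {y | ∃ j n, (n, b) ∈ π ∧ B (w j y) ∧ w n (w j y) = y}

/-- one step -/
def stp (G : SimpleGraph V) (w : ℕ → V → V) (κ : List (ℕ × Bool) → V → ℕ)
    (π : List (ℕ × Bool)) (i : ℕ) (A : Bool → Set V) (b : Bool) : Set V :=
  A b ∪ New w (BB G w A π (κ π) i) π b

/-- the invariant of the construction -/
structure Good [MeasurableSpace V] (G : SimpleGraph V) (A : Bool → Set V) : Prop where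
  meas : ∀ b, MeasurableSet (A b)
  disj : ∀ x, x ∈ A true → x ∈ A false → False
  core : ∀ b, ∀ x ∈ A b, ∃ y z, y ≠ z ∧ G.Adj x y ∧ G.Adj x z ∧ y ∈ A (!b) ∧ z ∈ A (!b)

/-- separation property of the colourings -/
def Sep (G : SimpleGraph V) (w : ℕ → V → V) (κ : List (ℕ × Bool) → V → ℕ) : Prop :=
  ∀ π x x', G.Reachable x x' → (∃ n b n' b', (n, b) ∈ π ∧ (n', b') ∈ π ∧ w n x = w n' x') →
    κ π x = κ π x' → x = x'

section
variable [MeasurableSpace V] [StandardBorelSpace V] {G : SimpleGraph V} {w : ℕ → V → V}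

theorem measurable_twoPat (hG : Bor2 G.Adj) (hw : ∀ n, Measurable (w n)) {A : Bool → Set V}
    (hA : ∀ b, MeasurableSet (A b)) (π : List (ℕ × Bool)) (n : ℕ) (b : Bool) :
    Measurable (TwoPat G w A π n b) := by
  have hAdj : ∀ i j, Measurable fun x => G.Adj (w i x) (w j x) := fun i j =>
    measurableSet_setOfPred.1 (((hw i).prodMk (hw j)) hG)
  have hEq : ∀ i j, Measurable fun x => w i x = w j x := fun i j => measurable_eq' (hw i) (hw j)
  have hM : ∀ i b, Measurable fun x => w i x ∈ A b := fun i b =>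
    measurableSet_setOfPred.1 ((hw i) (hA b))
  have hP : ∀ i : ℕ, Measurable fun x => ∃ m : ℕ, (m, !b) ∈ π ∧ w m x = w i x := fun i =>
    Measurable.exists fun m => measurable_const.and (hEq m i)
  unfold TwoPat
  refine Measurable.exists fun i => Measurable.exists fun j => ?_
  exact (hEq i j).not.and ((hAdj n i).and ((hAdj n j).and
    (((hM i _).or (hP i)).and ((hM j _).or (hP j)))))

theorem measurable_BB (hG : Bor2 G.Adj) (hw : ∀ n, Measurable (w n)) {A : Bool → Set V}
    (hA : ∀ b, MeasurableSet (A b)) (π : List (ℕ × Bool)) {κ : V → ℕ} (hκ : Measurable κ) (i : ℕ) :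
    Measurable (BB G w A π κ i) := by
  have hEq : ∀ i j, Measurable fun x => w i x = w j x := fun i j => measurable_eq' (hw i) (hw j)
  have hM : ∀ i b, Measurable fun x => w i x ∈ A b := fun i b =>
    measurableSet_setOfPred.1 ((hw i) (hA b))
  unfold BB
  refine (hκ.eq_const i).and ?_
  refine Measurable.forall fun n => Measurable.forall fun b => Measurable.imp measurable_const ?_
  refine Measurable.and (Measurable.forall fun b' => (hM n b').not) (Measurable.and ?_ ?_)
  · exact Measurable.forall fun m => Measurable.forall fun b' => measurable_const.imp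
      ((hEq n m).imp measurable_const)
  · exact measurable_twoPat hG hw hA π n b

theorem measurable_New (hw : ∀ n, Measurable (w n)) {B : V → Prop} (hB : Measurable B)
    (π : List (ℕ × Bool)) (b : Bool) : MeasurableSet (New w B π b) := by
  unfold New
  rw [measurableSet_setOfPred]
  refine Measurable.exists fun j => Measurable.exists fun n => measurable_const.and ?_
  exact (hB.comp (hw j)).and (measurable_eq' ((hw n).comp (hw j)) measurable_id)

theorem mem_New {B : V → Prop} (hE : ∀ x y, G.Reachable x y ↔ ∃ n, w n x = y)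
    {π : List (ℕ × Bool)} {n : ℕ} {b : Bool} (h : (n, b) ∈ π) {x : V} (hx : B x) :
    w n x ∈ New w B π b := by
  have h1 : G.Reachable x (w n x) := (hE _ _).2 ⟨n, rfl⟩
  obtain ⟨j, hj⟩ := (hE _ _).1 h1.symm
  exact ⟨j, n, h, by rw [hj]; exact hx, by rw [hj]⟩

theorem stp_good (hG : Bor2 G.Adj) (hw : ∀ n, Measurable (w n))
    (hE : ∀ x y, G.Reachable x y ↔ ∃ n, w n x = y) {κ : List (ℕ × Bool) → V → ℕ}
    (hκ : ∀ π, Measurable (κ π)) (hsep : Sep G w κ) {A : Bool → Set V} (hA : Good G A)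
    (π : List (ℕ × Bool)) (i : ℕ) : Good G (stp G w κ π i A) where
  meas b := (hA.meas b).union (measurable_New hw (measurable_BB hG hw hA.meas π (hκ π) i) π b)
  disj y h1 h2 := by
    rcases h1 with h1 | ⟨j, n, hn, hB, rfl'⟩
    · rcases h2 with h2 | ⟨j, n, hn, hB, hy⟩
      · exact hA.disj y h1 h2
      · rw [← hy] at h1
        exact (hB.2 n _ hn).1 _ h1
    · rcases h2 with h2 | ⟨j', n', hn', hB', hy'⟩
      · rw [← rfl'] at h2
        exact (hB.2 n _ hn).1 _ h2
      · have hr : G.Reachable (w j y) (w j' y) :=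
          ((hE _ _).2 ⟨j, rfl⟩).symm.trans ((hE _ _).2 ⟨j', rfl⟩)
        have hx : w j y = w j' y := by
          apply hsep π _ _ hr ⟨n, true, n', false, hn, hn', by rw [rfl', hy']⟩
          rw [hB.1, hB'.1]
        have h3 := (hB.2 n _ hn).2.1 n' false hn' (by rw [rfl', hx, hy'])
        exact absurd h3 (by decide)
  core b x hx := by
    rcases hx with hx | ⟨j, n, hn, hB, hy⟩
    · obtain ⟨y, z, h1, h2, h3, h4, h5⟩ := hA.core b x hx
      exact ⟨y, z, h1, h2, h3, Or.inl h4, Or.inl h5⟩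
    · obtain ⟨i1, j1, h1, h2, h3, h4, h5⟩ := (hB.2 n _ hn).2.2
      rw [hy] at h2 h3
      refine ⟨_, _, h1, h2, h3, ?_, ?_⟩
      · rcases h4 with h4 | ⟨m, hm, hm'⟩
        · exact Or.inl h4
        · right
          rw [← hm']
          exact mem_New hE hm hB
      · rcases h5 with h5 | ⟨m, hm, hm'⟩
        · exact Or.inl h5
        · right
          rw [← hm']
          exact mem_New hE hm hB

end

/-- the sequence of the steps -/
noncomputable def seq (G : SimpleGraph V) (w : ℕ → V → V) (κ : List (ℕ × Bool) → V → ℕ)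
    (A : Bool → Set V) : ℕ → Bool → Set V
  | 0 => A
  | t + 1 =>
    match (Encodable.decode (Nat.unpair t).1 : Option (List (ℕ × Bool) × ℕ)) with
    | none => seq G w κ A t
    | some q => stp G w κ q.1 q.2 (seq G w κ A t)

theorem seq_succ_none (G : SimpleGraph V) (w : ℕ → V → V) (κ : List (ℕ × Bool) → V → ℕ)
    (A : Bool → Set V) (t : ℕ)
    (h : (Encodable.decode (Nat.unpair t).1 : Option (List (ℕ × Bool) × ℕ)) = none) :
    seq G w κ A (t + 1) = seq G w κ A t := by
  simp only [seq]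
  rw [h]

theorem seq_succ_some (G : SimpleGraph V) (w : ℕ → V → V) (κ : List (ℕ × Bool) → V → ℕ)
    (A : Bool → Set V) (t : ℕ) (q : List (ℕ × Bool) × ℕ)
    (h : (Encodable.decode (Nat.unpair t).1 : Option (List (ℕ × Bool) × ℕ)) = some q) :
    seq G w κ A (t + 1) = stp G w κ q.1 q.2 (seq G w κ A t) := by
  simp only [seq]
  rw [h]

theorem seq_mono_succ (G : SimpleGraph V) (w : ℕ → V → V) (κ : List (ℕ × Bool) → V → ℕ)
    (A : Bool → Set V) (t : ℕ) (b : Bool) : seq G w κ A t b ⊆ seq G w κ A (t + 1) b := by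
  rcases h : (Encodable.decode (Nat.unpair t).1 : Option (List (ℕ × Bool) × ℕ)) with _ | q
  · rw [seq_succ_none G w κ A t h]
  · rw [seq_succ_some G w κ A t q h]
    exact subset_union_left

theorem seq_mono (G : SimpleGraph V) (w : ℕ → V → V) (κ : List (ℕ × Bool) → V → ℕ)
    (A : Bool → Set V) (b : Bool) : Monotone fun t => seq G w κ A t b :=
  monotone_nat_of_le_succ fun t => seq_mono_succ G w κ A t b

theorem main (hENUM : S_ENUM) (hCOL : S_COL) : S_CLOSE := by
  classical
  intro V _ _ G Δ hG Y c hY hc hcore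
  obtain ⟨w, hw, hdisp⟩ := hENUM V G Δ hG
  choose m hm using hdisp
  -- the colourings
  have hK : ∀ π : List (ℕ × Bool), ∃ κ : V → ℕ, Measurable κ ∧
      ∀ x x', G.Reachable x x' → (∃ n b n' b', (n, b) ∈ π ∧ (n', b') ∈ π ∧ w n x = w n' x') →
        κ x = κ x' → x = x' := by
    intro π
    obtain ⟨k, κ, hκ, hκ'⟩ := hCOL V G Δ hG (2 * (π.map fun p => m p.1).sum)
    refine ⟨fun x => (κ x : ℕ), (measurable_from_top (f := fun a : Fin k => (a : ℕ))).comp hκ, ?_⟩
    rintro x x' hr ⟨n, b, n', b', hn, hn', he⟩ hk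
    by_contra hne
    refine hκ' x x' hne hr ?_ (Fin.ext hk)
    have h1 : m n ≤ (π.map fun p => m p.1).sum :=
      List.single_le_sum (fun _ _ => Nat.zero_le _) _ (List.mem_map.2 ⟨(n, b), hn, rfl⟩)
    have h2 : m n' ≤ (π.map fun p => m p.1).sum :=
      List.single_le_sum (fun _ _ => Nat.zero_le _) _ (List.mem_map.2 ⟨(n', b'), hn', rfl⟩)
    have h3 : G.dist x x' ≤ G.dist x (w n x) + G.dist (w n x) x' :=
      ((hw.iff _ _).2 ⟨n, rfl⟩ : G.Reachable x (w n x)).dist_triangle_left _
    have h4 := hm n x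
    have h5 := hm n' x'
    rw [he, SimpleGraph.dist_comm (u := w n' x')] at h3
    rw [he] at h4
    omega
  choose κ hκ hsep using hK
  -- the initial set
  set A : Bool → Set V := fun b => {x | x ∈ Y ∧ c x = b} with hA
  have hA0 : Good G A := by
    refine ⟨fun b => hY.inter (hc (measurableSet_singleton b)), ?_, ?_⟩
    · rintro x ⟨_, h1⟩ ⟨_, h2⟩
      rw [h1] at h2
      exact absurd h2 (by decide)
    · rintro b x ⟨hx, hb⟩
      obtain ⟨y, z, h1, h2, h3, h4, h5, h6, h7⟩ := hcore x hx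
      refine ⟨y, z, h1, h2, h3, ⟨h4, ?_⟩, ⟨h5, ?_⟩⟩
      · rw [← hb]; exact Bool.eq_not.2 h6
      · rw [← hb]; exact Bool.eq_not.2 h7
  have hAt : ∀ t, Good G (seq G w κ A t) := by
    intro t
    induction t with
    | zero => exact hA0
    | succ t ih =>
      rcases h : (Encodable.decode (Nat.unpair t).1 : Option (List (ℕ × Bool) × ℕ)) with _ | q
      · rw [seq_succ_none G w κ A t h]; exact ih
      · rw [seq_succ_some G w κ A t q h]
        exact stp_good hG.adj hw.meas hw.iff hκ hsep ih q.1 q.2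
  have hmono := seq_mono G w κ A
  set U : Bool → Set V := fun b => ⋃ t, seq G w κ A t b with hU
  have hUG : Good G U := by
    refine ⟨fun b => MeasurableSet.iUnion fun t => (hAt t).meas b, ?_, ?_⟩
    · intro x h1 h2
      obtain ⟨t1, h1⟩ := mem_iUnion.1 h1
      obtain ⟨t2, h2⟩ := mem_iUnion.1 h2
      exact (hAt (max t1 t2)).disj x (hmono true (le_max_left _ _) h1)
        (hmono false (le_max_right _ _) h2)
    · intro b x h
      obtain ⟨t, h⟩ := mem_iUnion.1 h
      obtain ⟨y, z, h1, h2, h3, h4, h5⟩ := (hAt t).core b x h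
      exact ⟨y, z, h1, h2, h3, mem_iUnion.2 ⟨t, h4⟩, mem_iUnion.2 ⟨t, h5⟩⟩
  set c' : V → Bool := fun x => decide (x ∈ U true) with hc'
  have hcU : ∀ b x, x ∈ U b → c' x = b := by
    intro b x hx
    cases b
    · simp only [hc', decide_eq_false_iff_not]
      exact fun h => hUG.disj x h hx
    · simp only [hc', decide_eq_true_eq]
      exact hx
  have hUc : ∀ x, x ∈ U true ∪ U false → x ∈ U (c' x) := by
    rintro x (h | h)
    · rw [hcU _ x h]; exact h
    · rw [hcU _ x h]; exact h
  have hmemU : ∀ b x, x ∈ U b → x ∈ U true ∪ U false := by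
    intro b x hx
    cases b
    · exact Or.inr hx
    · exact Or.inl hx
  have hAU : ∀ b, A b ⊆ U b := fun b x hx => mem_iUnion.2 ⟨0, hx⟩
  refine ⟨U true ∪ U false, c', ?_, (hUG.meas _).union (hUG.meas _), ?_, ?_, ?_, ?_⟩
  · intro y hy
    exact hmemU (c y) y (hAU _ ⟨hy, rfl⟩)
  · refine measurable_to_bool ?_
    have : c' ⁻¹' {true} = U true := by
      ext x
      simp [hc']
    rw [this]
    exact hUG.meas true
  · intro y hy
    exact hcU _ y (hAU _ ⟨hy, rfl⟩)
  · intro x hx
    obtain ⟨y, z, h1, h2, h3, h4, h5⟩ := hUG.core _ x (hUc x hx)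
    refine ⟨y, z, h1, h2, h3, hmemU _ y h4, hmemU _ z h5, ?_, ?_⟩
    · rw [hcU _ y h4]; exact Bool.not_ne_self _
    · rw [hcU _ z h5]; exact Bool.not_ne_self _
  · -- closed
    intro S hSf hSn hSd c'' hc'' hS
    obtain ⟨x₀, hx₀⟩ := hSn
    set S' : Set V := {y | y ∈ S ∧ G.Reachable x₀ y} with hS'
    have hS'f : S'.Finite := hSf.subset fun y hy => hy.1
    -- an index for every point
    have hidx : ∀ y, ∃ n, G.Reachable x₀ y → w n x₀ = y := by
      intro y
      by_cases h : G.Reachable x₀ y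
      · obtain ⟨n, hn⟩ := (hw.iff _ _).1 h
        exact ⟨n, fun _ => hn⟩
      · exact ⟨0, fun h' => absurd h' h⟩
    choose idx hidx using hidx
    set π : List (ℕ × Bool) := hS'f.toFinset.toList.map fun y => (idx y, c'' y) with hπ
    have hmem : ∀ n b, (n, b) ∈ π ↔ ∃ y, y ∈ S ∧ G.Reachable x₀ y ∧ idx y = n ∧ c'' y = b := by
      intro n b
      simp only [hπ, List.mem_map, Finset.mem_toList, Set.Finite.mem_toFinset, hS', mem_ofPred_eq,
        Prod.mk.injEq]
      constructor
      · rintro ⟨y, ⟨h1, h2⟩, h3, h4⟩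
        exact ⟨y, h1, h2, h3, h4⟩
      · rintro ⟨y, h1, h2, h3, h4⟩
        exact ⟨y, ⟨h1, h2⟩, h3, h4⟩
    -- a stage at which the witnesses are present
    have hev : ∀ᶠ t in Filter.atTop, ∀ y ∈ S', ∃ z z', z ≠ z' ∧ G.Adj y z ∧ G.Adj y z' ∧
        (z ∈ seq G w κ A t (!(c'' y)) ∨ z ∈ S ∧ c'' z = !(c'' y)) ∧
        (z' ∈ seq G w κ A t (!(c'' y)) ∨ z' ∈ S ∧ c'' z' = !(c'' y)) := by
      rw [Filter.eventually_all_finite hS'f]
      rintro y ⟨hy, _⟩
      obtain ⟨z, z', h1, h2, h3, h4, h5, h6, h7⟩ := hS y hy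
      have aux : ∀ z, z ∈ U true ∪ U false ∪ S → c'' z ≠ c'' y → ∀ᶠ t in Filter.atTop,
          (z ∈ seq G w κ A t (!(c'' y)) ∨ z ∈ S ∧ c'' z = !(c'' y)) := by
        intro z hz hzy
        rcases hz with hz | hz
        · have h8 := hUc z hz
          have h9 : c' z = !(c'' y) := by
            rw [← hc'' z hz]
            exact Bool.eq_not.2 hzy
          rw [h9] at h8
          obtain ⟨t0, h10⟩ := mem_iUnion.1 h8
          filter_upwards [Filter.eventually_ge_atTop t0] with t ht
          exact Or.inl (hmono _ ht h10)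
        · exact Filter.Eventually.of_forall fun t => Or.inr ⟨hz, Bool.eq_not.2 hzy⟩
      filter_upwards [aux z h4 h6, aux z' h5 h7] with t ht ht'
      exact ⟨z, z', h1, h2, h3, ht, ht'⟩
    obtain ⟨t0, ht0⟩ := Filter.eventually_atTop.1 hev
    set t : ℕ := Nat.pair (Encodable.encode ((π, κ π x₀) : List (ℕ × Bool) × ℕ)) t0 with ht
    have htt : t0 ≤ t := Nat.right_le_pair _ _
    have hdec : (Encodable.decode (Nat.unpair t).1 : Option (List (ℕ × Bool) × ℕ)) =
        some (π, κ π x₀) := by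
      rw [ht, Nat.unpair_pair]
      exact Encodable.encodek _
    have hstep := seq_succ_some G w κ A t _ hdec
    have hBx : BB G w (seq G w κ A t) π (κ π) (κ π x₀) x₀ := by
      refine ⟨rfl, fun n b hnb => ?_⟩
      obtain ⟨y, hy, hry, rfl, rfl⟩ := (hmem n b).1 hnb
      have hwy := hidx y hry
      refine ⟨?_, ?_, ?_⟩
      · intro b' hb'
        rw [hwy] at hb'
        exact Set.disjoint_left.1 hSd hy (hmemU b' y (mem_iUnion.2 ⟨t, hb'⟩))
      · intro n' b' hnb' he
        obtain ⟨y', hy', hry', rfl, rfl⟩ := (hmem n' b').1 hnb'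
        rw [hwy, hidx y' hry'] at he
        rw [he]
      · obtain ⟨z, z', h1, h2, h3, h4, h5⟩ := ht0 t htt y ⟨hy, hry⟩
        have hrz : G.Reachable x₀ z := hry.trans h2.reachable
        have hrz' : G.Reachable x₀ z' := hry.trans h3.reachable
        refine ⟨idx z, idx z', ?_, ?_, ?_, ?_, ?_⟩
        · rw [hidx z hrz, hidx z' hrz']; exact h1
        · rw [hwy, hidx z hrz]; exact h2
        · rw [hwy, hidx z' hrz']; exact h3
        · rcases h4 with h4 | ⟨h4, h4'⟩
          · left; rw [hidx z hrz]; exact h4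
          · right
            exact ⟨idx z, (hmem _ _).2 ⟨z, h4, hrz, rfl, h4'⟩, rfl⟩
        · rcases h5 with h5 | ⟨h5, h5'⟩
          · left; rw [hidx z' hrz']; exact h5
          · right
            exact ⟨idx z', (hmem _ _).2 ⟨z', h5, hrz', rfl, h5'⟩, rfl⟩
    have hx₀π : (idx x₀, c'' x₀) ∈ π :=
      (hmem _ _).2 ⟨x₀, hx₀, SimpleGraph.Reachable.refl _, rfl, rfl⟩
    have hnew : w (idx x₀) x₀ ∈ New w (BB G w (seq G w κ A t) π (κ π) (κ π x₀)) π (c'' x₀) :=
      mem_New hw.iff hx₀π hBx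
    rw [hidx x₀ (SimpleGraph.Reachable.refl _)] at hnew
    have hin : x₀ ∈ seq G w κ A (t + 1) (c'' x₀) := by
      rw [hstep]
      exact Or.inr hnew
    exact Set.disjoint_left.1 hSd hx₀ (hmemU _ x₀ (mem_iUnion.2 ⟨t + 1, hin⟩))

end Pool.Agent.Helper611.UF.Close
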