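import Pool.Agent.Helper611.UF.Stm

/-!
# Project UF: the graph of the cells is a forest
-/

set_option autoImplicit false

namespace Pool.Agent.Helper611.UF.ConC

open SimpleGraph

/-- A graph that contains the edges of `F` inside the cells joins every point to its centre. -/
theorem reach_centre {V : Type} {F H : SimpleGraph V} {a : V → V}
    (hc : ∀ x, x ≠ a x → ∃ y, F.Adj x y ∧ a y = a x ∧ F.dist y (a x) + 1 = F.dist x (a x))
    (hH : ∀ x y, F.Adj x y → a x = a y → H.Adj x y) :
    ∀ (n : ℕ) (x : V), F.dist x (a x) = n → H.Reachable x (a x) := by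
  intro n
  induction n with
  | zero =>
    intro x hx
    by_cases h : x = a x
    · rw [← h]
    · obtain ⟨y, -, -, h3⟩ := hc x h
      omega
  | succ n ih =>
    intro x hx
    by_cases h : x = a x
    · rw [← h]
    · obtain ⟨y, h1, h2, h3⟩ := hc x h
      have h4 : H.Reachable y (a y) := ih y (by rw [h2]; omega)
      rw [h2] at h4
      exact (hH x y h1 h2.symm).reachable.trans h4

/-- Two points of the same cell are joined. -/
theorem reach_cell {V : Type} {F H : SimpleGraph V} {a : V → V}
    (hc : ∀ x, x ≠ a x → ∃ y, F.Adj x y ∧ a y = a x ∧ F.dist y (a x) + 1 = F.dist x (a x))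
    (hH : ∀ x y, F.Adj x y → a x = a y → H.Adj x y) {x y : V} (hxy : a x = a y) :
    H.Reachable x y := by
  have h1 := reach_centre hc hH _ x rfl
  have h2 := reach_centre hc hH _ y rfl
  rw [hxy] at h1
  exact h1.trans h2.symm

/-- The graph without an edge between two cells. -/
theorem del_adj {V : Type} {F : SimpleGraph V} {a : V → V} {x y : V} (hxy : a x ≠ a y) :
    ∀ u v, F.Adj u v → a u = a v → (F.deleteEdges {s(x, y)}).Adj u v := by
  intro u v huv h
  rw [deleteEdges_adj]
  refine ⟨huv, ?_⟩
  rw [Set.mem_singleton_iff, Sym2.eq_iff]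
  rintro (⟨rfl, rfl⟩ | ⟨rfl, rfl⟩)
  · exact hxy h
  · exact hxy h.symm

theorem main : S_CON := by
  intro V F a hF _ hc _
  have hbr : ∀ x y, F.Adj x y → ¬ (F.deleteEdges {s(x, y)}).Reachable x y := by
    intro x y hxy
    have := isAcyclic_iff_forall_adj_isBridge.1 hF hxy
    exact isBridge_iff.1 this
  refine ⟨?_, ?_⟩
  · rw [isAcyclic_iff_forall_adj_isBridge]
    intro p q hpq
    rw [isBridge_iff]
    intro hr
    obtain ⟨hne, x, y, hxy, hx, hy⟩ := hpq
    have hne' : a x ≠ a y := by
      rw [hx, hy]
      exact fun h => hne (Subtype.ext h)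
    have hstep : ∀ u v : {x : V // a x = x}, ((Cells F a).deleteEdges {s(p, q)}).Adj u v →
        (F.deleteEdges {s(x, y)}).Reachable u.1 v.1 := by
      intro u v huv
      rw [deleteEdges_adj] at huv
      obtain ⟨⟨huv, x', y', hxy', hx', hy'⟩, hnot⟩ := huv
      have h1 : (F.deleteEdges {s(x, y)}).Adj x' y' := by
        rw [deleteEdges_adj]
        refine ⟨hxy', ?_⟩
        rw [Set.mem_singleton_iff, Sym2.eq_iff]
        rintro (⟨rfl, rfl⟩ | ⟨rfl, rfl⟩)
        · apply hnot
          rw [Set.mem_singleton_iff, Sym2.eq_iff]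
          exact Or.inl ⟨Subtype.ext (hx'.symm.trans hx), Subtype.ext (hy'.symm.trans hy)⟩
        · apply hnot
          rw [Set.mem_singleton_iff, Sym2.eq_iff]
          exact Or.inr ⟨Subtype.ext (hx'.symm.trans hy), Subtype.ext (hy'.symm.trans hx)⟩
      have h2 : (F.deleteEdges {s(x, y)}).Reachable u.1 x' :=
        reach_cell hc (del_adj hne') (by rw [hx', u.2])
      have h3 : (F.deleteEdges {s(x, y)}).Reachable y' v.1 :=
        reach_cell hc (del_adj hne') (by rw [hy', v.2])
      exact (h2.trans h1.reachable).trans h3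
    have hwalk : ∀ u v : {x : V // a x = x},
        ((Cells F a).deleteEdges {s(p, q)}).Walk u v →
        (F.deleteEdges {s(x, y)}).Reachable u.1 v.1 := by
      intro u v w
      induction w with
      | nil => exact Reachable.refl _
      | cons h _ ih => exact (hstep _ _ h).trans ih
    obtain ⟨w⟩ := hr
    have h1 := hwalk p q w
    have h2 : (F.deleteEdges {s(x, y)}).Reachable x p.1 :=
      reach_cell hc (del_adj hne') (by rw [hx, p.2])
    have h3 : (F.deleteEdges {s(x, y)}).Reachable q.1 y :=
      reach_cell hc (del_adj hne') (by rw [hy, q.2])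
    exact hbr x y hxy ((h2.trans h1).trans h3)
  · intro x y x' y' hxy hxy' hx hy hne
    by_contra hcon
    have h1 : (F.deleteEdges {s(x, y)}).Adj x' y' := by
      rw [deleteEdges_adj]
      refine ⟨hxy', ?_⟩
      rw [Set.mem_singleton_iff, Sym2.eq_iff]
      rintro (⟨rfl, rfl⟩ | ⟨rfl, rfl⟩)
      · exact hcon ⟨rfl, rfl⟩
      · exact hne hx
    have h2 : (F.deleteEdges {s(x, y)}).Reachable x x' := reach_cell hc (del_adj hne) hx
    have h3 : (F.deleteEdges {s(x, y)}).Reachable y' y :=
      reach_cell hc (del_adj hne) hy.symm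
    exact hbr x y hxy ((h2.trans h1.reachable).trans h3)

end Pool.Agent.Helper611.UF.ConC
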