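import Pool.Agent.Helper611.UF.Stm

/-!
# Project UF: part COUNT
-/

set_option autoImplicit false

namespace Pool.Agent.Helper611.UF.Count

open Pool.Agent.Helper611.UF Finset

section general

variable {k : ℕ}

/-- flip the bits at the places in `P` -/
def flipB (P : Fin k → Prop) [DecidablePred P] (ω : Fin k → Bool × Bool) : Fin k → Bool × Bool :=
  fun i => if P i then ((ω i).1, !(ω i).2) else ω i

theorem flipB_inv (P : Fin k → Prop) [DecidablePred P] : Function.Involutive (flipB P) := by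
  intro ω
  funext i
  unfold flipB
  by_cases h : P i <;> simp [h]

/-- flip the late bit at `j` -/
def flipL (j : Fin k) (ω : Fin k → Bool × Bool) : Fin k → Bool × Bool :=
  fun i => if i = j then (!(ω i).1, (ω i).2) else ω i

theorem flipL_inv (j : Fin k) : Function.Involutive (flipL j) := by
  intro ω
  funext i
  unfold flipL
  by_cases h : i = j <;> simp [h]

theorem sum_inv {σ : (Fin k → Bool × Bool) → (Fin k → Bool × Bool)} (hσ : Function.Involutive σ)
    (F : (Fin k → Bool × Bool) → ℤ) : ∑ ω, F (σ ω) = ∑ ω, F ω :=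
  Equiv.sum_comp (hσ.toPerm σ) F

theorem sum_zero {σ : (Fin k → Bool × Bool) → (Fin k → Bool × Bool)} (hσ : Function.Involutive σ)
    (F : (Fin k → Bool × Bool) → ℤ) (hF : ∀ ω, F (σ ω) = - F ω) : ∑ ω, F ω = 0 := by
  have h1 := sum_inv hσ F
  simp only [hF, Finset.sum_neg_distrib] at h1
  omega

theorem sum_nonneg' {σ : (Fin k → Bool × Bool) → (Fin k → Bool × Bool)}
    (hσ : Function.Involutive σ) (F : (Fin k → Bool × Bool) → ℤ)
    (hF : ∀ ω, 0 ≤ F ω + F (σ ω)) : 0 ≤ ∑ ω, F ω := by
  have h1 := sum_inv hσ F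
  have h2 : 0 ≤ ∑ ω, (F ω + F (σ ω)) := Finset.sum_nonneg fun ω _ => hF ω
  rw [Finset.sum_add_distrib] at h2
  omega

theorem xi_flip (t : Bool) (a : Bool × Bool) : xi t (a.1, !a.2) = - xi t a := by
  obtain ⟨l, b⟩ := a
  cases l <;> cases b <;> cases t <;> simp [xi]

theorem xi_late (t : Bool) (a : Bool × Bool) (h : a.1 = true) : xi t a = 0 := by
  unfold xi; simp [h]

end general

variable {W : Type} {Q : SimpleGraph W} {N : W → Finset W} {k : ℕ} {κ : W → Fin k}
  {τ : W → W → Bool}

theorem gau_early (ω : Fin k → Bool × Bool) (x : W) (h : (ω (κ x)).1 = false) :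
    gau N τ κ ω x = (ω (κ x)).2 := by
  unfold gau; simp [h]

theorem gau_late (ω : Fin k → Bool × Bool) (x : W) (h : (ω (κ x)).1 = true) :
    gau N τ κ ω x = if 0 < vote N τ κ ω x then false else if vote N τ κ ω x < 0 then true
      else (ω (κ x)).2 := by
  unfold gau; simp [h]

/-- no triangles -/
theorem no_tri (hQ : Q.IsAcyclic) {x y z : W} (h1 : Q.Adj x y) (h2 : Q.Adj y z) (h3 : Q.Adj z x) :
    False := by
  have hc : (SimpleGraph.Walk.cons h1 (SimpleGraph.Walk.cons h2
      (SimpleGraph.Walk.cons h3 SimpleGraph.Walk.nil))).IsCycle := by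
    rw [SimpleGraph.Walk.cons_isCycle_iff]
    constructor
    · simp [SimpleGraph.Walk.cons_isPath_iff, h2.ne, h3.ne, h1.ne']
    · simp [h1.ne, h2.ne, h1.ne', h3.ne']
  exact hQ _ hc

/-- the sign of an edge -/
def sg (N : W → Finset W) (τ : W → W → Bool) (κ : W → Fin k) (ω : Fin k → Bool × Bool)
    (x y : W) : ℤ :=
  if xor (gau N τ κ ω x) (gau N τ κ ω y) = τ x y then 1 else -1

section

variable (hN : ∀ x y, y ∈ N x ↔ Q.Adj x y) (hQ : Q.IsAcyclic) (hτ : ∀ x y, τ x y = τ y x)
  (hκ : ∀ x y, x ≠ y → Q.Reachable x y → Q.dist x y ≤ 3 → κ x ≠ κ y)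

include hκ in
theorem k1 {x y : W} (h : Q.Adj x y) : κ x ≠ κ y := by
  have h1 := SimpleGraph.dist_le (SimpleGraph.Walk.cons h SimpleGraph.Walk.nil)
  exact hκ x y h.ne h.reachable (h1.trans (by simp))

include hκ in
theorem k2 {x y z : W} (h1 : Q.Adj x y) (h2 : Q.Adj y z) (hne : x ≠ z) : κ x ≠ κ z := by
  have h := SimpleGraph.dist_le (SimpleGraph.Walk.cons h1 (SimpleGraph.Walk.cons h2
    SimpleGraph.Walk.nil))
  exact hκ x z hne (h1.reachable.trans h2.reachable) (h.trans (by simp))

include hκ in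
theorem k3 {x y z w : W} (h1 : Q.Adj x y) (h2 : Q.Adj y z) (h3 : Q.Adj z w) (hne : x ≠ w) :
    κ x ≠ κ w := by
  have h := SimpleGraph.dist_le (SimpleGraph.Walk.cons h1 (SimpleGraph.Walk.cons h2
    (SimpleGraph.Walk.cons h3 SimpleGraph.Walk.nil)))
  exact hκ x w hne ((h1.reachable.trans h2.reachable).trans h3.reachable) (h.trans (by simp))

include hN hκ in
theorem early_early {x y : W} (hy : y ∈ N x) :
    ∑ ω : Fin k → Bool × Bool, (if (ω (κ x)).1 = false ∧ (ω (κ y)).1 = false then
      sg N τ κ ω x y else 0) = 0 := by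
  classical
  have hxy := k1 hκ ((hN x y).1 hy)
  apply sum_zero (flipB_inv (fun i => i = κ x))
  intro ω
  have e1 : flipB (fun i => i = κ x) ω (κ x) = ((ω (κ x)).1, !(ω (κ x)).2) := by
    simp [flipB]
  have e2 : flipB (fun i => i = κ x) ω (κ y) = ω (κ y) := by
    simp [flipB, hxy.symm]
  rw [e1, e2]
  by_cases h : (ω (κ x)).1 = false ∧ (ω (κ y)).1 = false
  · simp only [h, and_self, if_true]
    unfold sg
    rw [gau_early (κ := κ) _ x (by rw [e1]; exact h.1), gau_early (κ := κ) _ y (by rw [e2]; exact h.2),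
      gau_early (κ := κ) ω x h.1, gau_early (κ := κ) ω y h.2, e1, e2]
    cases (ω (κ x)).2 <;> cases (ω (κ y)).2 <;> cases τ x y <;> simp
  · rw [if_neg h, if_neg h]; simp

include hN hκ hQ in
theorem late_late {x y : W} (hy : y ∈ N x) :
    ∑ ω : Fin k → Bool × Bool, (if (ω (κ x)).1 = true ∧ (ω (κ y)).1 = true then
      sg N τ κ ω x y else 0) = 0 := by
  classical
  have hadj := (hN x y).1 hy
  have hxy := k1 hκ hadj
  set P : Fin k → Prop := fun i => i = κ x ∨ ∃ M ∈ N x, M ≠ y ∧ i = κ M with hP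
  have hPx : P (κ x) := Or.inl rfl
  have hPy : ¬ P (κ y) := by
    rintro (h | ⟨M, hM, hne, h⟩)
    · exact hxy h.symm
    · exact k2 hκ hadj.symm ((hN x M).1 hM) hne.symm h
  have hPM : ∀ M ∈ N x, M ≠ y → P (κ M) := fun M hM hne => Or.inr ⟨M, hM, hne, rfl⟩
  have hPz : ∀ z ∈ N y, z ≠ x → ¬ P (κ z) := by
    intro z hz hne
    have hyz := (hN y z).1 hz
    rintro (h | ⟨M, hM, hMy, h⟩)
    · exact k2 hκ hyz.symm hadj.symm hne h
    · have hxM := (hN x M).1 hM
      have hzM : z ≠ M := by
        rintro rfl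
        exact no_tri hQ hadj hyz hxM.symm
      exact k3 hκ hyz.symm hadj.symm hxM hzM h
  apply sum_zero (flipB_inv P)
  intro ω
  have e1 : flipB P ω (κ x) = ((ω (κ x)).1, !(ω (κ x)).2) := if_pos hPx
  have e2 : flipB P ω (κ y) = ω (κ y) := if_neg hPy
  rw [e1, e2]
  by_cases h : (ω (κ x)).1 = true ∧ (ω (κ y)).1 = true
  · simp only [h, and_self, if_true]
    have v1 : vote N τ κ (flipB P ω) x = - vote N τ κ ω x := by
      unfold vote
      rw [← Finset.sum_neg_distrib]
      apply Finset.sum_congr rfl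
      intro M hM
      by_cases hMy : M = y
      · rw [hMy, e2, xi_late _ _ h.2]; simp
      · have e3 : flipB P ω (κ M) = ((ω (κ M)).1, !(ω (κ M)).2) := if_pos (hPM M hM hMy)
        rw [e3, xi_flip]
    have v2 : vote N τ κ (flipB P ω) y = vote N τ κ ω y := by
      unfold vote
      apply Finset.sum_congr rfl
      intro z hz
      by_cases hzx : z = x
      · rw [hzx, e1, xi_late _ _ h.1, xi_late _ _ (by simpa using h.1)]
      · have e3 : flipB P ω (κ z) = ω (κ z) := if_neg (hPz z hz hzx)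
        rw [e3]
    have g1 : gau N τ κ (flipB P ω) x = ! gau N τ κ ω x := by
      rw [gau_late _ x (by rw [e1]; exact h.1), gau_late ω x h.1, v1, e1]
      rcases lt_trichotomy (vote N τ κ ω x) 0 with hv | hv | hv
      · rw [if_pos (by omega), if_neg (by omega), if_pos hv]; rfl
      · rw [if_neg (by omega), if_neg (by omega), if_neg (by omega), if_neg (by omega)]
      · rw [if_neg (by omega), if_pos (by omega), if_pos hv]; rfl
    have g2 : gau N τ κ (flipB P ω) y = gau N τ κ ω y := by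
      rw [gau_late _ y (by rw [e2]; exact h.2), gau_late ω y h.2, v2, e2]
    unfold sg
    rw [g1, g2]
    cases gau N τ κ ω x <;> cases gau N τ κ ω y <;> cases τ x y <;> simp
  · rw [if_neg h, if_neg h]; simp

include hN hκ hτ in
theorem early_late {x y : W} (hy : y ∈ N x) :
    0 ≤ ∑ ω : Fin k → Bool × Bool, (if (ω (κ x)).1 = false ∧ (ω (κ y)).1 = true then
      sg N τ κ ω x y else 0) := by
  classical
  have hadj := (hN x y).1 hy
  have hxy := k1 hκ hadj
  apply sum_nonneg' (flipB_inv (fun i => i = κ x))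
  intro ω
  have e1 : flipB (fun i => i = κ x) ω (κ x) = ((ω (κ x)).1, !(ω (κ x)).2) := by
    simp [flipB]
  have e2 : flipB (fun i => i = κ x) ω (κ y) = ω (κ y) := by
    simp [flipB, hxy.symm]
  rw [e1, e2]
  by_cases h : (ω (κ x)).1 = false ∧ (ω (κ y)).1 = true
  · simp only [h, and_self, if_true]
    have hxN : x ∈ N y := (hN y x).2 hadj.symm
    set m : ℤ := ∑ z ∈ (N y).erase x, xi (τ y z) (ω (κ z)) with hm
    have v1 : vote N τ κ ω y = xi (τ x y) (ω (κ x)) + m := by
      unfold vote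
      rw [hm, hτ x y]
      exact (Finset.add_sum_erase _ (fun z => xi (τ y z) (ω (κ z))) hxN).symm
    have v2 : vote N τ κ (flipB (fun i => i = κ x) ω) y = - xi (τ x y) (ω (κ x)) + m := by
      unfold vote
      rw [← Finset.add_sum_erase _ _ hxN, e1, xi_flip, hτ x y, hm]
      congr 1
      apply Finset.sum_congr rfl
      intro z hz
      have hz1 := Finset.mem_erase.1 hz
      have hzk : κ z ≠ κ x := k2 hκ ((hN y z).1 hz1.2).symm hadj.symm hz1.1
      have e3 : flipB (fun i => i = κ x) ω (κ z) = ω (κ z) := by simp [flipB, hzk]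
      rw [e3]
    unfold sg
    rw [gau_early (κ := κ) (flipB (fun i => i = κ x) ω) x (by rw [e1]; exact h.1),
      gau_early (κ := κ) ω x h.1, gau_late (flipB (fun i => i = κ x) ω) y (by rw [e2]; exact h.2),
      gau_late ω y h.2, v1, v2, e1, e2]
    have hx : ω (κ x) = (false, (ω (κ x)).2) := Prod.ext h.1 rfl
    have hxi : xi (τ x y) (ω (κ x)) = if xor (ω (κ x)).2 (τ x y) then -1 else 1 := by
      rw [hx]; simp [xi]
    rw [hxi]
    rcases le_or_gt 0 m with hm0 | hm0
    · have c1 : (0 : ℤ) < 1 + m := by omega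
      cases hb : (ω (κ x)).2 <;> cases ht : τ x y
      · simp [c1]; split_ifs <;> simp
      · simp [c1]; split_ifs <;> simp
      · simp [c1]; split_ifs <;> simp
      · simp [c1]; split_ifs <;> simp
    · have c1 : ¬ (0 : ℤ) < -1 + m := by omega
      have c2 : -1 + m < 0 := by omega
      cases hb : (ω (κ x)).2 <;> cases ht : τ x y
      · simp [c1, c2]; split_ifs <;> simp
      · simp [c1, c2]; split_ifs <;> simp
      · simp [c1, c2]; split_ifs <;> simp
      · simp [c1, c2]; split_ifs <;> simp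
  · rw [if_neg h, if_neg h]; simp

theorem late_early {x : W} (ω : Fin k → Bool × Bool) (hx : (ω (κ x)).1 = true) :
    ∑ y ∈ N x, (if (ω (κ y)).1 = false then sg N τ κ ω x y else 0) = |vote N τ κ ω x| := by
  have h1 : ∀ y ∈ N x, (if (ω (κ y)).1 = false then sg N τ κ ω x y else 0) =
      (if gau N τ κ ω x then -1 else 1) * xi (τ x y) (ω (κ y)) := by
    intro y _
    by_cases hy : (ω (κ y)).1 = false
    · rw [if_pos hy]
      unfold sg
      rw [gau_early ω y hy]
      have hyy : ω (κ y) = (false, (ω (κ y)).2) := Prod.ext hy rfl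
      have hxi : xi (τ x y) (ω (κ y)) = if xor (ω (κ y)).2 (τ x y) then -1 else 1 := by
        rw [hyy]; simp [xi]
      rw [hxi]
      cases gau N τ κ ω x <;> cases (ω (κ y)).2 <;> cases τ x y <;> simp
    · rw [if_neg hy, xi_late _ _ (by simpa using hy), mul_zero]
  rw [Finset.sum_congr rfl h1, ← Finset.mul_sum]
  change (if gau N τ κ ω x then -1 else 1) * vote N τ κ ω x = |vote N τ κ ω x|
  rw [gau_late ω x hx]
  rcases lt_trichotomy (vote N τ κ ω x) 0 with hv | hv | hv
  · have hv' : ¬ 0 < vote N τ κ ω x := by omega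
    rw [abs_of_neg hv]
    simp [hv, hv']
  · rw [hv]; simp
  · rw [abs_of_pos hv]
    simp [hv]

include hN hκ in
theorem late_half {x : W} :
    2 * ∑ ω : Fin k → Bool × Bool, (if (ω (κ x)).1 = true then |vote N τ κ ω x| else 0) =
      ∑ ω : Fin k → Bool × Bool, |vote N τ κ ω x| := by
  have h1 := sum_inv (flipL_inv (κ x)) (fun ω => if (ω (κ x)).1 = true then |vote N τ κ ω x| else 0)
  have h2 : ∀ ω : Fin k → Bool × Bool, vote N τ κ (flipL (κ x) ω) x = vote N τ κ ω x := by
    intro ω
    unfold vote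
    apply Finset.sum_congr rfl
    intro y hy
    have hxy := k1 hκ ((hN x y).1 hy)
    have e3 : flipL (κ x) ω (κ y) = ω (κ y) := by simp [flipL, hxy.symm]
    rw [e3]
  have h3 : ∀ ω : Fin k → Bool × Bool, (flipL (κ x) ω (κ x)).1 = !(ω (κ x)).1 := by
    intro ω; simp [flipL]
  simp only [h2, h3] at h1
  have h4 : ∀ ω : Fin k → Bool × Bool, |vote N τ κ ω x| =
      (if (ω (κ x)).1 = true then |vote N τ κ ω x| else 0) +
      (if (!(ω (κ x)).1) = true then |vote N τ κ ω x| else 0) := by
    intro ω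
    cases (ω (κ x)).1 <;> simp
  calc _ = ∑ ω : Fin k → Bool × Bool, (if (ω (κ x)).1 = true then |vote N τ κ ω x| else 0) +
        ∑ ω : Fin k → Bool × Bool, (if (!(ω (κ x)).1) = true then |vote N τ κ ω x| else 0) := by
        rw [h1]; ring
    _ = _ := by
        rw [← Finset.sum_add_distrib]
        exact (Finset.sum_congr rfl fun ω _ => h4 ω).symm

include hN hκ in
theorem mom (hMOM : S_MOM) {x : W} (hD : 1600 ≤ (N x).card) :
    6 * (4 : ℤ) ^ k < ∑ ω : Fin k → Bool × Bool, |vote N τ κ ω x| := by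
  classical
  have hinj : Set.InjOn κ (N x : Set W) := by
    intro y hy z hz h
    by_contra hne
    exact k2 hκ ((hN x y).1 hy).symm ((hN x z).1 hz) hne h
  set t : Fin k → Bool := fun i => if h : ∃ y ∈ N x, κ y = i then τ x h.choose else false with ht
  have hty : ∀ y ∈ N x, t (κ y) = τ x y := by
    intro y hy
    have hex : ∃ z ∈ N x, κ z = κ y := ⟨y, hy, rfl⟩
    have h1 : t (κ y) = τ x hex.choose := by
      simp only [ht]
      rw [dif_pos hex]
    rw [h1]
    congr 1
    exact hinj hex.choose_spec.1 hy hex.choose_spec.2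
  have hcard : 1600 ≤ ((N x).image κ).card := by
    rw [Finset.card_image_of_injOn hinj]; exact hD
  have h1 := hMOM k ((N x).image κ) t hcard
  have h2 : ∀ ω : Fin k → Bool × Bool, ∑ i ∈ (N x).image κ, xi (t i) (ω i) = vote N τ κ ω x := by
    intro ω
    rw [Finset.sum_image hinj]
    exact Finset.sum_congr rfl fun y hy => by rw [hty y hy]
  simpa only [h2] using h1

end

theorem main (hMOM : S_MOM) : S_COUNT := by
  classical
  intro W Q N k κ τ hN hQ hτ hκ x hD
  have hm := mom (τ := τ) hN hκ hMOM hD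
  have hh := late_half (τ := τ) hN hκ (x := x)
  have h1 : ∀ y, ((Finset.univ.filter fun ω : Fin k → Bool × Bool =>
      xor (gau N τ κ ω x) (gau N τ κ ω y) = τ x y).card : ℤ) * 2 =
      4 ^ k + ∑ ω : Fin k → Bool × Bool, sg N τ κ ω x y := by
    intro y
    rw [Finset.card_filter]
    push_cast
    rw [Finset.sum_mul]
    have h2 : (4 : ℤ) ^ k = ∑ ω : Fin k → Bool × Bool, 1 := by
      simp [Fintype.card_pi, Fintype.card_prod]
    rw [h2, ← Finset.sum_add_distrib]
    apply Finset.sum_congr rfl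
    intro ω _
    unfold sg
    split_ifs <;> norm_num
  have h3 : ∀ y ∈ N x, ∑ ω : Fin k → Bool × Bool, sg N τ κ ω x y ≥
      ∑ ω : Fin k → Bool × Bool, (if (ω (κ x)).1 = true then
        (if (ω (κ y)).1 = false then sg N τ κ ω x y else 0) else 0) := by
    intro y hy
    have a1 := early_early (τ := τ) hN hκ hy
    have a2 := late_late (τ := τ) hN hQ hκ hy
    have a3 := early_late hN hτ hκ hy
    have a4 : ∑ ω : Fin k → Bool × Bool, sg N τ κ ω x y =
        ∑ ω : Fin k → Bool × Bool, (if (ω (κ x)).1 = false ∧ (ω (κ y)).1 = false then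
          sg N τ κ ω x y else 0) +
        ∑ ω : Fin k → Bool × Bool, (if (ω (κ x)).1 = true ∧ (ω (κ y)).1 = true then
          sg N τ κ ω x y else 0) +
        ∑ ω : Fin k → Bool × Bool, (if (ω (κ x)).1 = false ∧ (ω (κ y)).1 = true then
          sg N τ κ ω x y else 0) +
        ∑ ω : Fin k → Bool × Bool, (if (ω (κ x)).1 = true then
          (if (ω (κ y)).1 = false then sg N τ κ ω x y else 0) else 0) := by
      rw [← Finset.sum_add_distrib, ← Finset.sum_add_distrib, ← Finset.sum_add_distrib]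
      apply Finset.sum_congr rfl
      intro ω _
      cases (ω (κ x)).1 <;> cases (ω (κ y)).1 <;> simp
    rw [a4, a1, a2]
    linarith
  have h4 : ∑ y ∈ N x, ∑ ω : Fin k → Bool × Bool, (if (ω (κ x)).1 = true then
        (if (ω (κ y)).1 = false then sg N τ κ ω x y else 0) else 0) =
      ∑ ω : Fin k → Bool × Bool, (if (ω (κ x)).1 = true then |vote N τ κ ω x| else 0) := by
    rw [Finset.sum_comm]
    apply Finset.sum_congr rfl
    intro ω _
    by_cases hx : (ω (κ x)).1 = true
    · simp only [hx, if_true]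
      exact late_early ω hx
    · simp only [hx]
      simp
  have h5 : (3 : ℤ) * 4 ^ k < ∑ y ∈ N x, ∑ ω : Fin k → Bool × Bool, sg N τ κ ω x y := by
    have h6 := Finset.sum_le_sum h3
    rw [h4] at h6
    linarith
  have h7 : (((N x).card : ℤ) + 3) * 4 ^ k < 2 * ∑ y ∈ N x,
      ((Finset.univ.filter fun ω : Fin k → Bool × Bool =>
        xor (gau N τ κ ω x) (gau N τ κ ω y) = τ x y).card : ℤ) := by
    rw [Finset.mul_sum]
    have h8 : ∑ y ∈ N x, 2 * ((Finset.univ.filter fun ω : Fin k → Bool × Bool =>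
        xor (gau N τ κ ω x) (gau N τ κ ω y) = τ x y).card : ℤ) =
        ((N x).card : ℤ) * 4 ^ k + ∑ y ∈ N x, ∑ ω : Fin k → Bool × Bool, sg N τ κ ω x y := by
      rw [← nsmul_eq_mul, ← Finset.sum_const, ← Finset.sum_add_distrib]
      apply Finset.sum_congr rfl
      intro y _
      rw [mul_comm, h1 y]
    rw [h8]
    linarith
  exact_mod_cast h7

end Pool.Agent.Helper611.UF.Count
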