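import Pool.Agent.Helper611.UF.Stm

/-!
# Project UF: part 8, EXT

If every component of `G` contains a point with an infinite cluster, the colouring can be changed
such that all clusters are infinite: points at distance `n` of the set `Y` of the points with an
infinite cluster follow, `n` times, the map that sends a point to its least neighbour closer to `Y`,
and take the colour of the point of `Y` found, changed according to the parity of `n`.
-/

set_option autoImplicit false

namespace Pool.Agent.Helper611.UF.Ext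

open MeasureTheory Set

/-- The points at distance at most `n` of `Y`. -/
def Stage {V : Type} (G : SimpleGraph V) (Y : Set V) : ℕ → Set V
  | 0 => Y
  | n + 1 => Stage G Y n ∪ {x | ∃ y, G.Reachable x y ∧ (G.Adj x y ∧ y ∈ Stage G Y n)}

theorem stage_succ {V : Type} (G : SimpleGraph V) (Y : Set V) (n : ℕ) (x : V) :
    x ∈ Stage G Y (n + 1) ↔ x ∈ Stage G Y n ∨ ∃ y, G.Adj x y ∧ y ∈ Stage G Y n := by
  constructor
  · rintro (h | ⟨y, -, h1, h2⟩)
    · exact Or.inl h
    · exact Or.inr ⟨y, h1, h2⟩
  · rintro (h | ⟨y, h1, h2⟩)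
    · exact Or.inl h
    · exact Or.inr ⟨y, h1.reachable, h1, h2⟩

theorem stage_mono {V : Type} (G : SimpleGraph V) (Y : Set V) : Monotone (Stage G Y) :=
  monotone_nat_of_le_succ fun n x hx => (stage_succ G Y n x).2 (Or.inl hx)

theorem stage_reach {V : Type} (G : SimpleGraph V) (Y : Set V) {x y : V} (h : G.Reachable x y)
    (hy : y ∈ Y) : ∃ n, x ∈ Stage G Y n := by
  obtain ⟨p⟩ := h
  induction p with
  | nil => exact ⟨0, hy⟩
  | cons h p ih =>
    obtain ⟨n, hn⟩ := ih hy
    exact ⟨n + 1, (stage_succ G Y n _).2 (Or.inr ⟨_, h, hn⟩)⟩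

theorem reach_symm {V : Type} {H : SimpleGraph V} {x y : V} (h : H.Reachable x y) :
    {z | H.Reachable x z} = {z | H.Reachable y z} := by
  ext z
  exact ⟨fun h' => h.symm.trans h', fun h' => h.trans h'⟩

theorem alt_le {V : Type} (G : SimpleGraph V) (c : V → Bool) : Alt G c ≤ G := fun _ _ h => h.1

theorem main (hENUM : S_ENUM) (hEX : S_EX) (hSEL : S_SEL) (hINF : S_INF) (hREACH : S_REACH) :
    S_EXT := by
  classical
  intro V _ _ G Δ hG c hc hinf
  obtain ⟨w, hw, -⟩ := hENUM V G Δ hG
  have hequiv : Equivalence G.Reachable := G.reachable_is_equivalence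
  have hneq : MeasurableSet {p : V × V | c p.1 ≠ c p.2} :=
    (measurableSet_eq_fun (hc.comp measurable_fst) (hc.comp measurable_snd)).compl
  have hAlt : Bor2 (Alt G c).Adj := hG.adj.inter hneq
  have hReach : Bor2 (Alt G c).Reachable := by
    have h := (hREACH V G.Reachable w hequiv hw (V × V) (fun _ => Alt G c)
      (measurable_snd hAlt) (fun _ x y h => h.1.reachable) Prod.fst Prod.snd measurable_fst
      measurable_snd).1
    exact h
  obtain ⟨Y, hYdef⟩ : ∃ Y : Set V, Y = {x | {z | (Alt G c).Reachable x z}.Infinite} := ⟨_, rfl⟩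
  have hYmem : ∀ x, x ∈ Y ↔ {z | (Alt G c).Reachable x z}.Infinite := by
    intro x; rw [hYdef]; rfl
  have hY : MeasurableSet Y := by
    rw [hYdef]
    exact hINF V G.Reachable w hw (Alt G c).Reachable hReach fun x y h => h.mono (alt_le G c)
  have hSt : ∀ n, MeasurableSet (Stage G Y n) := by
    intro n
    induction n with
    | zero => exact hY
    | succ n ih =>
      refine ih.union ?_
      exact (hEX V G.Reachable w hw V id measurable_id
        (fun x y => G.Adj x y ∧ y ∈ Stage G Y n) (hG.adj.inter (measurable_snd ih))).1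
  have hex : ∀ x, ∃ n, x ∈ Stage G Y n := by
    intro x
    obtain ⟨y, hxy, hy⟩ := hinf x
    exact stage_reach G Y hxy ((hYmem y).2 hy)
  obtain ⟨p, hpm, hp1, -⟩ := hSEL V G.Reachable w hw (embeddingReal V) (measurable_embeddingReal V)
    (measurableEmbedding_embeddingReal V).injective
    (fun x y => G.Adj x y ∧ ∃ n, y ∈ Stage G Y n ∧ x ∉ Stage G Y n)
    (by
      have h1 : {p : V × V | ∃ n, p.2 ∈ Stage G Y n ∧ p.1 ∉ Stage G Y n} =
          ⋃ n, (Prod.snd ⁻¹' Stage G Y n ∩ Prod.fst ⁻¹' (Stage G Y n)ᶜ) := by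
        ext p
        simp only [mem_ofPred_eq, mem_iUnion, mem_inter_iff, mem_preimage, mem_compl_iff]
      have h2 : MeasurableSet {p : V × V | ∃ n, p.2 ∈ Stage G Y n ∧ p.1 ∉ Stage G Y n} := by
        rw [h1]
        exact MeasurableSet.iUnion fun n =>
          (measurable_snd (hSt n)).inter (measurable_fst (hSt n).compl)
      exact hG.adj.inter h2)
    (fun x y h => h.1.reachable)
    (fun x => (Set.finite_of_encard_le_coe (hG.deg x)).subset fun y hy => hy.1)
  obtain ⟨d, hd⟩ : ∃ d : V → ℕ, ∀ x, d x = Nat.find (hex x) := ⟨_, fun _ => rfl⟩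
  have hdm : Measurable d := by
    have h := measurable_find hex hSt
    have h2 : d = fun x => Nat.find (hex x) := funext hd
    rw [h2]
    exact h
  have hd1 : ∀ x, x ∈ Stage G Y (d x) := fun x => by rw [hd]; exact Nat.find_spec (hex x)
  have hd2 : ∀ x n, x ∈ Stage G Y n → d x ≤ n := fun x n h => by
    rw [hd]; exact Nat.find_min' (hex x) h
  have hstep : ∀ x n, d x = n + 1 → G.Adj x (p x) ∧ d (p x) = n := by
    intro x n hx
    have h1 : x ∈ Stage G Y (n + 1) := hx ▸ hd1 x
    have h2 : x ∉ Stage G Y n := fun h => by have := hd2 x n h; omega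
    obtain ⟨y, hy1, hy2⟩ := ((stage_succ G Y n x).1 h1).resolve_left h2
    obtain ⟨⟨h3, m, h4, h5⟩, -⟩ := hp1 x ⟨y, hy1, n, hy2, h2⟩
    refine ⟨h3, ?_⟩
    have h6 : d (p x) ≤ m := hd2 _ _ h4
    have h7 : x ∈ Stage G Y (d (p x) + 1) :=
      (stage_succ G Y _ x).2 (Or.inr ⟨p x, h3, hd1 _⟩)
    have h8 := hd2 _ _ h7
    have h9 : m < n + 1 := by
      by_contra hcon
      exact h5 (stage_mono G Y (not_lt.1 hcon) h1)
    omega
  obtain ⟨c', hc'⟩ : ∃ c' : V → Bool, ∀ x, c' x = xor (c (p^[d x] x)) (Nat.bodd (d x)) :=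
    ⟨_, fun _ => rfl⟩
  have hc'm : Measurable c' := by
    have h1 : c' = (fun q : ℕ × V => xor (c (p^[q.1] q.2)) (Nat.bodd q.1)) ∘ fun x => (d x, x) :=
      funext hc'
    rw [h1]
    refine Measurable.comp ?_ (hdm.prodMk measurable_id)
    refine measurable_from_prod_countable_right fun n => ?_
    have h2 : Measurable fun x => c (p^[n] x) := hc.comp (hpm.iterate n)
    exact (measurable_of_countable (fun b : Bool => xor b (Nat.bodd n))).comp h2
  have hc'Y : ∀ x ∈ Y, c' x = c x := by
    intro x hx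
    have h1 : d x = 0 := Nat.le_zero.1 (hd2 x 0 hx)
    rw [hc', h1]
    simp
  have hc'p : ∀ x n, d x = n + 1 → c' x ≠ c' (p x) := by
    intro x n hx
    obtain ⟨-, h2⟩ := hstep x n hx
    rw [hc', hc', hx, h2, Function.iterate_succ_apply, Nat.bodd_succ]
    cases c (p^[n] (p x)) <;> cases Nat.bodd n <;> simp
  refine ⟨c', hc'm, ?_⟩
  have hkey : ∀ x y, (Alt G c).Reachable x y → x ∈ Y → (Alt G c').Reachable x y := by
    rintro x y ⟨q⟩ hx
    induction q with
    | nil => exact SimpleGraph.Reachable.refl _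
    | cons h q ih =>
      have hu := (hYmem _).2 (reach_symm h.reachable ▸ (hYmem _).1 hx)
      refine SimpleGraph.Reachable.trans (SimpleGraph.Adj.reachable ?_) (ih hu)
      refine ⟨h.1, ?_⟩
      rw [hc'Y _ hx, hc'Y _ hu]
      exact h.2
  have hfin : ∀ n x, d x = n → {z | (Alt G c').Reachable x z}.Infinite := by
    intro n
    induction n with
    | zero =>
      intro x hx
      have hxY : x ∈ Y := by
        have := hd1 x
        rw [hx] at this
        exact this
      exact ((hYmem x).1 hxY).mono fun z hz => hkey x z hz hxY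
    | succ n ih =>
      intro x hx
      obtain ⟨h1, h2⟩ := hstep x n hx
      have h3 : (Alt G c').Adj x (p x) := ⟨h1, hc'p x n hx⟩
      rw [reach_symm h3.reachable]
      exact ih _ h2
  exact fun x => hfin _ x rfl

end Pool.Agent.Helper611.UF.Ext
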