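import Pool.Agent.Helper611.UF.Stm

/-!
# Project UF, part FIN: a closed Borel core that meets every component extends to everything
-/

set_option autoImplicit false

namespace Pool.Agent.Helper611.UF.Fin

open MeasureTheory Set

/-- the support of a path with good ends cannot be added to a closed core -/
theorem closed_path {V : Type} {G : SimpleGraph V} {Y : Set V} {c : V → Bool}
    (hcl : Closed G Y c) (a : V → Bool) (ha : ∀ y ∈ Y, a y = c y) (n : ℕ) (v : ℕ → V)
    (hinj : ∀ i ≤ n, ∀ j ≤ n, v i = v j → i = j) (hout : ∀ i ≤ n, v i ∉ Y)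
    (hadj : ∀ i < n, G.Adj (v i) (v (i + 1)) ∧ a (v i) ≠ a (v (i + 1)))
    (T : Set V) (hT : T.Finite) (hTY : ∀ t ∈ T, t ∉ Y) (hTv : ∀ i ≤ n, v i ∉ T)
    (hTwo : ∀ t ∈ T, Two G (Y ∪ (v '' Iic n ∪ T)) a t) (p q : V)
    (hp : p ∈ Y ∪ T) (hq : q ∈ Y ∪ T) (hvp : G.Adj (v 0) p) (hvp' : a p ≠ a (v 0))
    (hvq : G.Adj (v n) q) (hvq' : a q ≠ a (v n)) (hpq : n = 0 → p ≠ q) : False := by
  have hin : ∀ i ≤ n, v i ∈ Y ∪ (v '' Iic n ∪ T) := fun i hi => Or.inr (Or.inl ⟨i, hi, rfl⟩)
  have hYT : ∀ x ∈ Y ∪ T, x ∈ Y ∪ (v '' Iic n ∪ T) := by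
    rintro x (h | h)
    · exact Or.inl h
    · exact Or.inr (Or.inr h)
  have hne : ∀ x ∈ Y ∪ T, ∀ i ≤ n, x ≠ v i := by
    rintro x (h | h) i hi rfl
    · exact hout i hi h
    · exact hTv i hi h
  refine hcl (v '' Iic n ∪ T) (((finite_Iic n).image v).union hT)
    ⟨v 0, Or.inl ⟨0, Nat.zero_le n, rfl⟩⟩ ?_ a ha ?_
  · rw [Set.disjoint_left]
    rintro x (⟨i, hi, rfl⟩ | h) hY
    · exact hout i hi hY
    · exact hTY x h hY
  · rintro x (⟨i, hi, rfl⟩ | ht)
    · have hi' : i ≤ n := hi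
      rcases Nat.eq_zero_or_pos i with h0 | h0
      · subst h0
        rcases Nat.eq_zero_or_pos n with hn | hn
        · subst hn
          exact ⟨p, q, hpq rfl, hvp, hvq, hYT p hp, hYT q hq, hvp', hvq'⟩
        · exact ⟨p, v 1, hne p hp 1 hn, hvp, (hadj 0 hn).1, hYT p hp, hin 1 hn, hvp',
            (hadj 0 hn).2.symm⟩
      · obtain ⟨j, rfl⟩ : ∃ j, i = j + 1 := ⟨i - 1, by omega⟩
        have hj : j < n := by omega
        rcases eq_or_lt_of_le hi' with hn | hn
        · refine ⟨v j, q, (hne q hq j hj.le).symm, (hadj j hj).1.symm, ?_, hin j hj.le, hYT q hq,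
            (hadj j hj).2, ?_⟩
          · rw [hn]; exact hvq
          · rw [hn]; exact hvq'
        · refine ⟨v j, v (j + 1 + 1), ?_, (hadj j hj).1.symm, (hadj (j + 1) hn).1, hin j hj.le,
            hin _ hn, (hadj j hj).2, (hadj (j + 1) hn).2.symm⟩
          intro h
          have := hinj j hj.le (j + 1 + 1) hn h
          omega
    · exact hTwo x ht

/-- the data of a component of the complement of the core -/
structure Dat {V : Type} (G : SimpleGraph V) (Y : Set V) (c : V → Bool) (O : SimpleGraph V)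
    (z0 u1 : V) (f : V → Bool) : Prop where
  hO : ∀ x y, O.Adj x y ↔ G.Adj x y ∧ x ∉ Y ∧ y ∉ Y
  hcl : Closed G Y c
  hz : z0 ∉ Y
  hu : u1 ∈ Y
  hadj : G.Adj z0 u1
  hfY : ∀ y ∈ Y, f y = c y
  hf : ∀ y, O.Reachable z0 y → f y = xor (!(c u1)) (decide (Odd (O.dist z0 y)))

section

variable {V : Type} {G : SimpleGraph V} {Y : Set V} {c : V → Bool} {O : SimpleGraph V}
    {z0 u1 : V} {f : V → Bool}

theorem Dat.notMem (D : Dat G Y c O z0 u1 f) {y : V} (h : O.Reachable z0 y) : y ∉ Y := by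
  obtain ⟨p⟩ := h
  induction p with
  | nil => exact D.hz
  | cons h p ih =>
    cases p with
    | nil => exact ((D.hO _ _).1 h).2.2
    | cons h' p' =>
      have hD := D
      -- the end of a walk of positive length has a neighbour in `O`
      clear ih
      have key : ∀ {a b : V}, O.Walk a b → a ∉ Y → b ∉ Y := by
        intro a b q
        induction q with
        | nil => exact fun h => h
        | cons h q ih => exact fun _ => ih ((D.hO _ _).1 h).2.2
      exact key (SimpleGraph.Walk.cons h' p') ((D.hO _ _).1 h).2.2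

theorem notMem_of_reach (hO : ∀ x y, O.Adj x y ↔ G.Adj x y ∧ x ∉ Y ∧ y ∉ Y) {x y : V}
    (h : O.Reachable x y) (hx : x ∉ Y) : y ∉ Y := by
  obtain ⟨p⟩ := h
  induction p with
  | nil => exact hx
  | cons h p ih => exact ih ((hO _ _).1 h).2.2

theorem Dat.f_u (D : Dat G Y c O z0 u1 f) : f u1 ≠ f z0 := by
  rw [D.hfY _ D.hu, D.hf _ (SimpleGraph.Reachable.refl _), SimpleGraph.dist_self]
  simp

/-- shortest paths from `z0` -/
theorem Dat.short (hPATH : S_PATH) (D : Dat G Y c O z0 u1 f) {y : V} (h : O.Reachable z0 y) :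
    ∃ v : ℕ → V, v 0 = z0 ∧ v (O.dist z0 y) = y ∧
      (∀ i < O.dist z0 y, O.Adj (v i) (v (i + 1)) ∧ f (v i) ≠ f (v (i + 1))) ∧
      (∀ i ≤ O.dist z0 y, O.Reachable z0 (v i) ∧ O.dist z0 (v i) = i) ∧
      ∀ i ≤ O.dist z0 y, ∀ j ≤ O.dist z0 y, v i = v j → i = j := by
  obtain ⟨-, v, h0, h1, h2, h3⟩ := hPATH V O z0 y h
  refine ⟨v, h0, h1, fun i hi => ⟨h2 i hi, ?_⟩, h3, ?_⟩
  · rw [D.hf _ (h3 i hi.le).1, D.hf _ (h3 (i + 1) hi).1, (h3 i hi.le).2, (h3 (i + 1) hi).2]
    intro h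
    have h4 : (decide (Odd i)) = decide (Odd (i + 1)) := by
      revert h
      cases (c u1) <;> cases (decide (Odd i)) <;> cases (decide (Odd (i + 1))) <;> simp
    rw [decide_eq_decide, Nat.odd_add_one] at h4
    tauto
  · intro i hi j hj hij
    rw [← (h3 i hi).2, ← (h3 j hj).2, hij]

/-- (F1) -/
theorem Dat.F1 (hPATH : S_PATH) (D : Dat G Y c O z0 u1 f) {x u : V} (hx : O.Reachable z0 x)
    (hu : u ∈ Y) (hxu : G.Adj x u) (hne : ¬ (x = z0 ∧ u = u1)) : c u = f x := by
  by_contra hcon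
  obtain ⟨v, h0, h1, h2, h3, h4⟩ := D.short hPATH hx
  refine closed_path D.hcl f D.hfY (O.dist z0 x) v h4 (fun i hi => D.notMem (h3 i hi).1)
    (fun i hi => ⟨((D.hO _ _).1 (h2 i hi).1).1, (h2 i hi).2⟩) ∅ finite_empty
    (fun t ht => ht.elim) (fun i _ h => h) (fun t ht => ht.elim) u1 u (Or.inl D.hu) (Or.inl hu)
    ?_ ?_ ?_ ?_ ?_
  · rw [h0]; exact D.hadj
  · rw [h0]; exact D.f_u
  · rw [h1]; exact hxu
  · rw [h1, D.hfY u hu]; exact hcon
  · intro hn
    rintro rfl
    refine hne ⟨?_, rfl⟩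
    rw [← h1, hn, h0]

/-- alternating edges outside `x` -/
def HG (O : SimpleGraph V) (f : V → Bool) (x : V) : SimpleGraph V where
  Adj a b := O.Adj a b ∧ f a ≠ f b ∧ a ≠ x ∧ b ≠ x
  symm := ⟨fun _ _ h => ⟨h.1.symm, h.2.1.symm, h.2.2.2, h.2.2.1⟩⟩
  loopless := ⟨fun _ h => h.2.1 rfl⟩

theorem Dat.hreach (hPATH : S_PATH) (D : Dat G Y c O z0 u1 f) {x y : V} (hy : O.Reachable z0 y)
    (hxy : x ≠ y) (hd : O.Reachable z0 x → O.dist z0 y ≤ O.dist z0 x) :
    (HG O f x).Reachable z0 y := by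
  obtain ⟨v, h0, h1, h2, h3, h4⟩ := D.short hPATH hy
  have hvx : ∀ i ≤ O.dist z0 y, v i ≠ x := by
    intro i hi he
    have h5 := h3 i hi
    rw [he] at h5
    have h6 := hd h5.1
    have h7 : i = O.dist z0 y := by omega
    rw [h7, h1] at he
    exact hxy he.symm
  have key : ∀ i ≤ O.dist z0 y, (HG O f x).Reachable z0 (v i) := by
    intro i
    induction i with
    | zero => intro _; rw [h0]
    | succ i ih =>
      intro hi
      refine (ih (by omega)).trans (SimpleGraph.Adj.reachable ?_)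
      exact ⟨(h2 i hi).1, (h2 i hi).2, hvx i (by omega), hvx (i + 1) hi⟩
  have := key _ le_rfl
  rwa [h1] at this

/-- simple paths in `HG` -/
theorem hpath (hPATH : S_PATH) {x a b : V} (h : (HG O f x).Reachable a b)
    (hO : ∀ x y, O.Adj x y ↔ G.Adj x y ∧ x ∉ Y ∧ y ∉ Y) (ha : a ∉ Y) (hax : a ≠ x) :
    ∃ (n : ℕ) (v : ℕ → V), v 0 = a ∧ v n = b ∧
      (∀ i < n, G.Adj (v i) (v (i + 1)) ∧ f (v i) ≠ f (v (i + 1))) ∧
      (∀ i ≤ n, v i ∉ Y ∧ v i ≠ x) ∧ ∀ i ≤ n, ∀ j ≤ n, v i = v j → i = j := by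
  obtain ⟨⟨n, v, h0, h1, h2, h3⟩, -⟩ := hPATH V (HG O f x) a b h
  refine ⟨n, v, h0, h1, fun i hi => ⟨((hO _ _).1 (h2 i hi).1).1, (h2 i hi).2.1⟩, ?_, h3⟩
  intro i hi
  rcases Nat.eq_zero_or_pos i with h4 | h4
  · subst h4
    rw [h0]
    exact ⟨ha, hax⟩
  · obtain ⟨j, rfl⟩ : ∃ j, i = j + 1 := ⟨i - 1, by omega⟩
    have h5 := h2 j (by omega)
    exact ⟨((hO _ _).1 h5.1).2.2, h5.2.2.2⟩

/-- (F2) -/
theorem Dat.F2 (hPATH : S_PATH) (D : Dat G Y c O z0 u1 f) {x2 u2 x3 u3 : V}
    (hx2 : O.Reachable z0 x2) (hx3 : O.Reachable z0 x3) (hu2 : u2 ∈ Y) (hu3 : u3 ∈ Y)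
    (h2 : G.Adj x2 u2) (h3 : G.Adj x3 u3) (hne2 : ¬ (x2 = z0 ∧ u2 = u1))
    (hne3 : ¬ (x3 = z0 ∧ u3 = u1)) : x2 = x3 ∧ u2 = u3 := by
  classical
  by_contra hcon
  have e2 := D.F1 hPATH hx2 hu2 h2 hne2
  have e3 := D.F1 hPATH hx3 hu3 h3 hne3
  have n2 := D.notMem hx2
  have n3 := D.notMem hx3
  have hnu : ∀ y, O.Reachable z0 y → u1 ≠ y := by
    rintro y hy rfl
    exact D.notMem hy D.hu
  have r2 := D.hreach hPATH hx2 (hnu _ hx2) (fun h => absurd D.hu (D.notMem h))
  have r3 := D.hreach hPATH hx3 (hnu _ hx3) (fun h => absurd D.hu (D.notMem h))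
  obtain ⟨n, v, k0, k1, k2, k3, k4⟩ := hpath hPATH (r2.symm.trans r3) D.hO n2 (hnu _ hx2).symm
  obtain ⟨a, ha⟩ : ∃ a : V → Bool, ∀ y, a y = if y ∈ Y then c y else !(f y) := ⟨_, fun _ => rfl⟩
  have haY : ∀ y ∈ Y, a y = c y := fun y hy => by rw [ha, if_pos hy]
  have haN : ∀ y, y ∉ Y → a y = !(f y) := fun y hy => by rw [ha, if_neg hy]
  refine closed_path D.hcl a haY n v k4 (fun i hi => (k3 i hi).1)
    (fun i hi => ⟨(k2 i hi).1, ?_⟩) ∅ finite_empty (fun t ht => ht.elim) (fun i _ h => h)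
    (fun t ht => ht.elim) u2 u3 (Or.inl hu2) (Or.inl hu3) ?_ ?_ ?_ ?_ ?_
  · rw [haN _ (k3 i hi.le).1, haN _ (k3 (i + 1) hi).1]
    intro h
    exact (k2 i hi).2 (by simpa using h)
  · rw [k0]; exact h2
  · rw [k0, haY _ hu2, haN _ n2, e2]; simp
  · rw [k1]; exact h3
  · rw [k1, haY _ hu3, haN _ n3, e3]; simp
  · intro hn h
    refine hcon ⟨?_, h⟩
    rw [← k0, ← k1, hn]

theorem dist_succ {x y : V} (hx : O.Reachable z0 x) (h : O.Adj x y) :
    O.dist z0 y ≤ O.dist z0 x + 1 := by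
  obtain ⟨p, hp⟩ := hx.exists_walk_length_eq_dist
  have := SimpleGraph.dist_le (p.concat h)
  rw [SimpleGraph.Walk.length_concat, hp] at this
  exact this

/-- non-opposite neighbours in the same component are at the same distance -/
theorem Dat.same (D : Dat G Y c O z0 u1 f) {x y : V} (hx : O.Reachable z0 x) (h : O.Adj x y)
    (hf : f y = f x) : O.dist z0 y = O.dist z0 x := by
  have hy : O.Reachable z0 y := hx.trans h.reachable
  have h1 := dist_succ hx h
  have h2 := dist_succ hy h.symm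
  rw [D.hf _ hx, D.hf _ hy] at hf
  have h4 : (decide (Odd (O.dist z0 y))) = decide (Odd (O.dist z0 x)) := by
    revert hf
    cases (c u1) <;> cases (decide (Odd (O.dist z0 y))) <;>
      cases (decide (Odd (O.dist z0 x))) <;> simp
  rw [decide_eq_decide, Nat.odd_iff, Nat.odd_iff] at h4
  omega

/-- (F3): no two different neighbours have the same colour as `x` -/
theorem Dat.F3 (hPATH : S_PATH) (D : Dat G Y c O z0 u1 f) {x y y' : V}
    (hx : O.Reachable z0 x) (hy : G.Adj x y) (hy' : G.Adj x y') (hne : y ≠ y')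
    (hf : f y = f x) (hf' : f y' = f x) : False := by
  classical
  have nx := D.notMem hx
  have hadj : ∀ w, G.Adj x w → w ∉ Y → O.Adj x w := fun w hw hwY => (D.hO _ _).2 ⟨hw, nx, hwY⟩
  -- the modified colouring
  obtain ⟨a, ha⟩ : ∃ a : V → Bool, ∀ y, a y = if y = x then !(f x) else f y := ⟨_, fun _ => rfl⟩
  have hax : a x = !(f x) := by rw [ha, if_pos rfl]
  have haN : ∀ y, y ≠ x → a y = f y := fun y hy => by rw [ha, if_neg hy]
  have haY : ∀ y ∈ Y, a y = c y := by
    intro w hw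
    rw [haN w (by rintro rfl; exact nx hw)]
    exact D.hfY w hw
  have hyx : y ≠ x := hy.ne'
  have hyx' : y' ≠ x := hy'.ne'
  have hay : a y ≠ a x := by rw [haN y hyx, hax, hf]; simp
  have hay' : a y' ≠ a x := by rw [haN y' hyx', hax, hf']; simp
  by_cases hxz : x = z0
  · -- both neighbours lie in `Y`
    have key : ∀ w, G.Adj x w → f w = f x → w ∈ Y := by
      intro w hw hfw
      by_contra hwY
      have h1 := D.same hx (hadj w hw hwY) hfw
      rw [hxz, SimpleGraph.dist_self] at h1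
      have h2 : O.Reachable z0 w := hx.trans (hadj w hw hwY).reachable
      rw [h2.dist_eq_zero_iff] at h1
      rw [hxz, h1] at hw
      exact hw.ne rfl
    have hn : ∀ w, f w = f x → ¬ (x = z0 ∧ w = u1) := by
      rintro w hfw ⟨h1, rfl⟩
      rw [h1] at hfw
      exact D.f_u hfw
    exact hne (D.F2 hPATH hx hx (key y hy hf) (key y' hy' hf') hy hy' (hn y hf) (hn y' hf')).2
  · by_cases hyY : y ∈ Y
    · by_cases hyY' : y' ∈ Y
      · refine closed_path D.hcl a haY 0 (fun _ => x) (fun i hi j hj _ => by omega)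
          (fun _ _ => nx) (fun i hi => absurd hi (by omega)) ∅ finite_empty
          (fun t ht => ht.elim) (fun i _ h => h) (fun t ht => ht.elim) y y' (Or.inl hyY)
          (Or.inl hyY') hy hay hy' hay' (fun _ => hne)
      · -- y' in the component, y in Y
        have hO' := hadj y' hy' hyY'
        have hr : O.Reachable z0 y' := hx.trans hO'.reachable
        have hd := D.same hx hO' hf'
        obtain ⟨v, h0, h1, h2, h3, h4⟩ := D.short hPATH hr
        have hvx : ∀ i ≤ O.dist z0 y', v i ≠ x := by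
          intro i hi he
          have h5 := (h3 i hi).2
          rw [he, ← hd] at h5
          rw [← h5, h1] at he
          exact hyx' he
        refine closed_path D.hcl a haY (O.dist z0 y') v h4 (fun i hi => D.notMem (h3 i hi).1)
          (fun i hi => ⟨((D.hO _ _).1 (h2 i hi).1).1, ?_⟩) {x} (finite_singleton x)
          (fun t ht => by rw [mem_singleton_iff.1 ht]; exact nx)
          (fun i hi h => hvx i hi (mem_singleton_iff.1 h)) ?_ u1 x (Or.inl D.hu)
          (Or.inr rfl) ?_ ?_ ?_ ?_ ?_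
        · rw [haN _ (hvx i hi.le), haN _ (hvx (i + 1) hi)]
          exact (h2 i hi).2
        · intro t ht
          rw [mem_singleton_iff.1 ht]
          exact ⟨y, y', hne, hy, hy', Or.inl hyY,
            Or.inr (Or.inl ⟨O.dist z0 y', mem_Iic.2 le_rfl, h1⟩), hay, hay'⟩
        · rw [h0]; exact D.hadj
        · rw [h0, haN u1 (by rintro rfl; exact nx D.hu), haN z0 (Ne.symm hxz)]
          exact D.f_u
        · rw [h1]; exact hy'.symm
        · rw [h1]; exact hay'.symm
        · intro _ h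
          exact nx (h ▸ D.hu)
    · by_cases hyY' : y' ∈ Y
      · -- y in the component, y' in Y
        have hO' := hadj y hy hyY
        have hr : O.Reachable z0 y := hx.trans hO'.reachable
        have hd := D.same hx hO' hf
        obtain ⟨v, h0, h1, h2, h3, h4⟩ := D.short hPATH hr
        have hvx : ∀ i ≤ O.dist z0 y, v i ≠ x := by
          intro i hi he
          have h5 := (h3 i hi).2
          rw [he, ← hd] at h5
          rw [← h5, h1] at he
          exact hyx he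
        refine closed_path D.hcl a haY (O.dist z0 y) v h4 (fun i hi => D.notMem (h3 i hi).1)
          (fun i hi => ⟨((D.hO _ _).1 (h2 i hi).1).1, ?_⟩) {x} (finite_singleton x)
          (fun t ht => by rw [mem_singleton_iff.1 ht]; exact nx)
          (fun i hi h => hvx i hi (mem_singleton_iff.1 h)) ?_ u1 x (Or.inl D.hu)
          (Or.inr rfl) ?_ ?_ ?_ ?_ ?_
        · rw [haN _ (hvx i hi.le), haN _ (hvx (i + 1) hi)]
          exact (h2 i hi).2
        · intro t ht
          rw [mem_singleton_iff.1 ht]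
          exact ⟨y, y', hne, hy, hy', Or.inr (Or.inl ⟨O.dist z0 y, mem_Iic.2 le_rfl, h1⟩), Or.inl hyY',
            hay, hay'⟩
        · rw [h0]; exact D.hadj
        · rw [h0, haN u1 (by rintro rfl; exact nx D.hu), haN z0 (Ne.symm hxz)]
          exact D.f_u
        · rw [h1]; exact hy.symm
        · rw [h1]; exact hay.symm
        · intro _ h
          exact nx (h ▸ D.hu)
      · -- both in the component
        have hO1 := hadj y hy hyY
        have hO2 := hadj y' hy' hyY'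
        have hd1 := D.same hx hO1 hf
        have hd2 := D.same hx hO2 hf'
        have r1 := D.hreach hPATH (hx.trans hO1.reachable) hyx.symm (fun _ => hd1.le)
        have r2 := D.hreach hPATH (hx.trans hO2.reachable) hyx'.symm (fun _ => hd2.le)
        obtain ⟨n, v, k0, k1, k2, k3, k4⟩ := hpath hPATH (r1.symm.trans r2) D.hO hyY hyx
        refine closed_path D.hcl a haY n v k4 (fun i hi => (k3 i hi).1)
          (fun i hi => ⟨(k2 i hi).1, ?_⟩) {x} (finite_singleton x)
          (fun t ht => by rw [mem_singleton_iff.1 ht]; exact nx)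
          (fun i hi h => (k3 i hi).2 (mem_singleton_iff.1 h)) ?_ x x (Or.inr rfl)
          (Or.inr rfl) ?_ ?_ ?_ ?_ ?_
        · rw [haN _ (k3 i hi.le).2, haN _ (k3 (i + 1) hi).2]
          exact (k2 i hi).2
        · intro t ht
          rw [mem_singleton_iff.1 ht]
          exact ⟨y, y', hne, hy, hy', Or.inr (Or.inl ⟨0, mem_Iic.2 (Nat.zero_le n), k0⟩),
            Or.inr (Or.inl ⟨n, mem_Iic.2 le_rfl, k1⟩), hay, hay'⟩
        · rw [k0]; exact hy.symm
        · rw [k0]; exact hay.symm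
        · rw [k1]; exact hy'.symm
        · rw [k1]; exact hay'.symm
        · intro hn _
          apply hne
          rw [← k0, ← k1, hn]

/-- all points of the component are fine -/
theorem Dat.two (hPATH : S_PATH) (D : Dat G Y c O z0 u1 f)
    (h3 : ∀ x, (G.neighborSet x).ncard = 3) {x : V} (hx : O.Reachable z0 x) :
    Two G univ f x := by
  obtain ⟨a, b, d, hab, had, hbd, hN⟩ := Set.ncard_eq_three.1 (h3 x)
  have ha : G.Adj x a := by
    have : a ∈ G.neighborSet x := by rw [hN]; simp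
    exact this
  have hb : G.Adj x b := by
    have : b ∈ G.neighborSet x := by rw [hN]; simp
    exact this
  have hd : G.Adj x d := by
    have : d ∈ G.neighborSet x := by rw [hN]; simp
    exact this
  by_cases h1 : f a = f x
  · refine ⟨b, d, hbd, hb, hd, mem_univ _, mem_univ _, fun h => ?_, fun h => ?_⟩
    · exact D.F3 hPATH hx ha hb hab h1 h
    · exact D.F3 hPATH hx ha hd had h1 h
  · by_cases h2 : f b = f x
    · refine ⟨a, d, had, ha, hd, mem_univ _, mem_univ _, h1, fun h => ?_⟩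
      exact D.F3 hPATH hx hb hd hbd h2 h
    · exact ⟨a, b, hab, ha, hb, mem_univ _, mem_univ _, h1, h2⟩

end

/-- existence of a boundary vertex -/
theorem exists_bd (hPATH : S_PATH) {V : Type} {G : SimpleGraph V} {Y : Set V} {O : SimpleGraph V}
    (hO : ∀ x y, O.Adj x y ↔ G.Adj x y ∧ x ∉ Y ∧ y ∉ Y) {x y : V} (hxy : G.Reachable x y)
    (hx : x ∉ Y) (hy : y ∈ Y) : ∃ z, O.Reachable x z ∧ ∃ u, G.Adj z u ∧ u ∈ Y := by
  obtain ⟨⟨n, v, h0, h1, h2, -⟩, -⟩ := hPATH V G x y hxy
  by_contra hcon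
  push Not at hcon
  have key : ∀ i ≤ n, O.Reachable x (v i) := by
    intro i
    induction i with
    | zero => intro _; rw [h0]
    | succ i ih =>
      intro hi
      have h3 := ih (by omega)
      have h4 := h2 i hi
      refine h3.trans (SimpleGraph.Adj.reachable ((hO _ _).2 ⟨h4, ?_, ?_⟩))
      · exact notMem_of_reach hO h3 hx
      · exact hcon _ h3 _ h4
  have := notMem_of_reach hO (key n le_rfl) hx
  rw [h1] at this
  exact this hy

theorem main (hPATH : S_PATH) (hENUM : S_ENUM) (hEX : S_EX) (hSEL : S_SEL) (hREACH : S_REACH) :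
    S_FIN := by
  classical
  intro V _ _ G hG h3 Y c hY hc hcore hcl hmeet
  obtain ⟨w, hw, -⟩ := hENUM V G 3 hG
  obtain ⟨O, hO⟩ : ∃ O : SimpleGraph V, ∀ x y, O.Adj x y ↔ G.Adj x y ∧ x ∉ Y ∧ y ∉ Y :=
    ⟨{ Adj := fun x y => G.Adj x y ∧ x ∉ Y ∧ y ∉ Y
       symm := ⟨fun _ _ h => ⟨h.1.symm, h.2.2, h.2.1⟩⟩
       loopless := ⟨fun _ h => h.1.ne rfl⟩ }, fun _ _ => Iff.rfl⟩
  have hOG : O ≤ G := fun x y h => ((hO x y).1 h).1
  have hOadj : MeasurableSet {p : V × V | O.Adj p.1 p.2} := by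
    have h1 : {p : V × V | O.Adj p.1 p.2} = {p : V × V | G.Adj p.1 p.2} ∩
        (Prod.fst ⁻¹' Yᶜ ∩ Prod.snd ⁻¹' Yᶜ) := by
      ext p
      exact hO p.1 p.2
    rw [h1]
    exact hG.adj.inter ((measurable_fst hY.compl).inter (measurable_snd hY.compl))
  have hGeq : Equivalence G.Reachable := G.reachable_is_equivalence
  have hOE : ∀ x y, O.Adj x y → G.Reachable x y := fun x y h =>
    SimpleGraph.Adj.reachable (hOG h)
  have hOR : Bor2 O.Reachable := by
    refine (hREACH V G.Reachable w hGeq hw (V × V) (fun _ => O) ?_ (fun _ => hOE) Prod.fst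
      Prod.snd measurable_fst measurable_snd).1
    exact measurable_snd hOadj
  -- boundary vertices
  have hB : MeasurableSet {z | ∃ u, G.Adj z u ∧ u ∈ Y} := by
    have h1 := (hEX V G.Reachable w hw V id measurable_id (fun z u => G.Adj z u ∧ u ∈ Y)
      (hG.adj.inter (measurable_snd hY))).1
    have h2 : {z | ∃ u, G.Adj z u ∧ u ∈ Y} =
        {z | ∃ y, G.Reachable (id z) y ∧ (G.Adj z y ∧ y ∈ Y)} := by
      ext z
      constructor
      · rintro ⟨u, h, hu⟩
        exact ⟨u, SimpleGraph.Adj.reachable h, h, hu⟩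
      · rintro ⟨u, -, h, hu⟩
        exact ⟨u, h, hu⟩
    rw [h2]
    exact h1
  -- finiteness
  have hfin : ∀ x, {z | x ∉ Y ∧ O.Reachable x z ∧ ∃ u, G.Adj z u ∧ u ∈ Y}.Finite := by
    intro x
    by_cases hne : ∃ z, x ∉ Y ∧ O.Reachable x z ∧ ∃ u, G.Adj z u ∧ u ∈ Y
    · obtain ⟨z0, hxY, hxz, u1, hzu, hu1⟩ := hne
      obtain ⟨f, hf⟩ : ∃ f : V → Bool, ∀ y, f y = if y ∈ Y then c y else
        xor (!(c u1)) (decide (Odd (O.dist z0 y))) := ⟨_, fun _ => rfl⟩
      have D : Dat G Y c O z0 u1 f := by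
        have hz := notMem_of_reach hO hxz hxY
        refine ⟨hO, hcl, hz, hu1, hzu, fun y hy => by rw [hf, if_pos hy], fun y hy => ?_⟩
        rw [hf, if_neg (notMem_of_reach hO hy hz)]
      by_cases hne2 : ∃ z2, (O.Reachable x z2 ∧ ∃ u, G.Adj z2 u ∧ u ∈ Y) ∧ z2 ≠ z0
      · obtain ⟨z2, ⟨hxz2, u2, hzu2, hu2⟩, hn2⟩ := hne2
        refine (Set.toFinite {z0, z2}).subset ?_
        rintro z ⟨-, hxz', u, hzu', hu⟩
        by_cases hz : z = z0
        · exact Or.inl hz
        · right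
          exact (D.F2 hPATH (hxz.symm.trans hxz') (hxz.symm.trans hxz2) hu hu2 hzu' hzu2
            (fun h => hz h.1) (fun h => hn2 h.1)).1
      · push Not at hne2
        refine (Set.finite_singleton z0).subset ?_
        rintro z ⟨-, hxz', hz⟩
        exact hne2 z ⟨hxz', hz⟩
    · push Not at hne
      refine Set.finite_empty.subset ?_
      rintro z ⟨h1, h2, u, h4, h5⟩
      exact (hne z h1 h2 u h4 h5).elim
  have hr := measurable_embeddingReal V
  have hri := (measurableEmbedding_embeddingReal V).injective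
  obtain ⟨x0, hx0m, hx0, -⟩ := hSEL V G.Reachable w hw (embeddingReal V) hr hri
    (fun x z => x ∉ Y ∧ O.Reachable x z ∧ ∃ u, G.Adj z u ∧ u ∈ Y)
    ((measurable_fst hY.compl).inter (hOR.inter (measurable_snd hB)))
    (fun x y h => h.2.1.mono hOG) hfin
  obtain ⟨uu, huum, huu, -⟩ := hSEL V G.Reachable w hw (embeddingReal V) hr hri
    (fun z u => G.Adj z u ∧ u ∈ Y) (hG.adj.inter (measurable_snd hY))
    (fun x y h => SimpleGraph.Adj.reachable h.1)
    (fun x => (Set.finite_of_ncard_ne_zero (by rw [h3]; norm_num) :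
      (G.neighborSet x).Finite).subset fun u h => h.1)
  -- the distance to the chosen vertex
  have hR := hREACH V G.Reachable w hGeq hw V (fun _ => O) (measurable_snd hOadj) (fun _ => hOE)
    x0 id hx0m measurable_id
  obtain ⟨A, hA⟩ : ∃ A : Set V, A = {x | O.Reachable (x0 x) x ∧ Odd (O.dist (x0 x) x)} := ⟨_, rfl⟩
  have hAm : MeasurableSet A := by
    have h1 : A = ⋃ k : ℕ, ({x | O.Reachable (x0 x) (id x) ∧ O.dist (x0 x) (id x) ≤ 2 * k + 1} \
        {x | O.Reachable (x0 x) (id x) ∧ O.dist (x0 x) (id x) ≤ 2 * k}) := by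
      ext x
      rw [hA]
      simp only [mem_ofPred_eq, mem_iUnion, mem_sdiff, id]
      constructor
      · rintro ⟨h, k, hk⟩
        exact ⟨k, ⟨h, hk.le⟩, fun h' => by omega⟩
      · rintro ⟨k, ⟨h, h1⟩, h2⟩
        refine ⟨h, k, ?_⟩
        by_contra h3
        exact h2 ⟨h, by omega⟩
    rw [h1]
    exact MeasurableSet.iUnion fun k => (hR.2 _).diff (hR.2 _)
  have hAd : Measurable fun x => decide (x ∈ A) := by
    refine measurable_to_bool ?_
    have : (fun x => decide (x ∈ A)) ⁻¹' {true} = A := by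
      ext x
      simp
    rw [this]
    exact hAm
  obtain ⟨c', hc'⟩ : ∃ c' : V → Bool, ∀ x, c' x = if x ∈ Y then c x else
    xor (!(c (uu (x0 x)))) (decide (x ∈ A)) := ⟨_, fun _ => rfl⟩
  have hc'm : Measurable c' := by
    obtain ⟨F, hF⟩ : ∃ F : Bool × Bool → Bool, ∀ a b, F (a, b) = xor (!a) b :=
      ⟨fun p => xor (!p.1) p.2, fun _ _ => rfl⟩
    have h1 : c' = fun x => if x ∈ Y then c x else
      (F ∘ fun x => (c (uu (x0 x)), decide (x ∈ A))) x := by
      funext x
      rw [hc', Function.comp_apply, hF]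
    rw [h1]
    refine Measurable.ite hY hc ?_
    exact (measurable_of_countable F).comp ((hc.comp (huum.comp hx0m)).prodMk hAd)
  refine ⟨c', hc'm, fun x => ?_⟩
  by_cases hx : x ∈ Y
  · obtain ⟨y, z, h1, h2, h3, h4, h5, h6, h7⟩ := hcore x hx
    exact ⟨y, z, h1, h2, h3, mem_univ _, mem_univ _,
      by rw [hc' y, if_pos h4, hc' x, if_pos hx]; exact h6,
      by rw [hc' z, if_pos h5, hc' x, if_pos hx]; exact h7⟩
  · -- the chosen vertex of the component of `x`
    have hex : ∀ y, y ∉ Y → ∃ z, y ∉ Y ∧ O.Reachable y z ∧ ∃ u, G.Adj z u ∧ u ∈ Y := by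
      intro y hy
      obtain ⟨y', hy', hyy'⟩ := hmeet y
      obtain ⟨z, hz, hu⟩ := exists_bd hPATH hO hyy' hy hy'
      exact ⟨z, hy, hz, hu⟩
    obtain ⟨⟨-, hrx, hbx⟩, hminx⟩ := hx0 x (hex x hx)
    obtain ⟨hux, -⟩ := huu (x0 x) hbx
    have hzY := notMem_of_reach hO hrx hx
    have hinv : ∀ y, O.Reachable (x0 x) y → x0 y = x0 x := by
      intro y hy
      have hyY := notMem_of_reach hO hy hzY
      obtain ⟨⟨-, hry, hby⟩, hminy⟩ := hx0 y (hex y hyY)
      apply hri
      apply le_antisymm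
      · exact hminy (x0 x) ⟨hyY, hy.symm, hbx⟩
      · exact hminx (x0 y) ⟨hx, (hrx.trans hy).trans hry, hby⟩
    have D : Dat G Y c O (x0 x) (uu (x0 x)) c' := by
      refine ⟨hO, hcl, hzY, hux.2, hux.1, fun y hy => by rw [hc', if_pos hy], fun y hy => ?_⟩
      have hyY := notMem_of_reach hO hy hzY
      rw [hc', if_neg hyY, hinv y hy]
      congr 1
      rw [decide_eq_decide, hA, mem_ofPred_eq, hinv y hy]
      exact ⟨fun h => h.2, fun h => ⟨hy, h⟩⟩
    exact D.two hPATH h3 hrx.symm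

end Pool.Agent.Helper611.UF.Fin
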