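import Pool.Agent.Helper611.UF.Stm

/-!
# Project UF, part FOR: the forest
-/

set_option autoImplicit false

namespace Pool.Agent.Helper611.UF.For

open MeasureTheory

section comb

variable {V : Type} (G : SimpleGraph V)

/-- the graph of the edges that are not bridges -/
def NG : SimpleGraph V where
  Adj x y := G.Adj x y ∧ (G.deleteEdges {s(x, y)}).Reachable x y
  symm := ⟨fun x y h => ⟨h.1.symm, by
    have := h.2.symm
    rwa [Sym2.eq_swap] at this⟩⟩
  loopless := ⟨fun _ h => G.loopless.irrefl _ h.1⟩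

lemma NG_le : NG G ≤ G := fun _ _ h => h.1

lemma NG_iff {x y : V} : (NG G).Adj x y ↔ ∃ (u : V) (p : G.Walk u u), p.IsCycle ∧ s(x, y) ∈ p.edges :=
  SimpleGraph.adj_and_reachable_delete_edges_iff_exists_cycle

/-- the two neighbours on a cycle -/
lemma cyc_two {H : SimpleGraph V} {u v : V} {p : H.Walk u u} (hp : p.IsCycle) (hv : v ∈ p.support) :
    ∃ a b, a ≠ b ∧ s(v, a) ∈ p.edges ∧ s(v, b) ∈ p.edges := by
  have h := hp.ncard_neighborSet_toSubgraph_eq_two hv
  rw [Set.ncard_eq_two] at h
  obtain ⟨a, b, hab, hs⟩ := h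
  refine ⟨a, b, hab, ?_, ?_⟩
  · rw [← SimpleGraph.Walk.mem_edges_toSubgraph, SimpleGraph.Subgraph.mem_edgeSet]
    have : a ∈ p.toSubgraph.neighborSet v := by rw [hs]; simp
    exact this
  · rw [← SimpleGraph.Walk.mem_edges_toSubgraph, SimpleGraph.Subgraph.mem_edgeSet]
    have : b ∈ p.toSubgraph.neighborSet v := by rw [hs]; simp
    exact this

/-- every point with a non-bridge has two of them -/
lemma NG_other {x y : V} (h : (NG G).Adj x y) : ∃ z, z ≠ y ∧ (NG G).Adj x z := by
  obtain ⟨u, p, hp, he⟩ := (NG_iff G).mp h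
  obtain ⟨a, b, hab, ha, hb⟩ := cyc_two hp (p.fst_mem_support_of_mem_edges he)
  by_cases hay : a = y
  · exact ⟨b, fun hb' => hab (hay.trans hb'.symm), (NG_iff G).mpr ⟨u, p, hp, hb⟩⟩
  · exact ⟨a, hay, (NG_iff G).mpr ⟨u, p, hp, ha⟩⟩

/-- the graph without the edges at `x` -/
def Off (x : V) : SimpleGraph V where
  Adj a b := G.Adj a b ∧ a ≠ x ∧ b ≠ x
  symm := ⟨fun _ _ h => ⟨h.1.symm, h.2.2, h.2.1⟩⟩
  loopless := ⟨fun _ h => G.loopless.irrefl _ h.1⟩

lemma seq_reach {H : SimpleGraph V} {n : ℕ} {v : ℕ → V} (h : ∀ i < n, H.Adj (v i) (v (i + 1))) {i j : ℕ}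
    (hij : i ≤ j) (hj : j ≤ n) : H.Reachable (v i) (v j) := by
  induction j, hij using Nat.le_induction with
  | base => exact SimpleGraph.Reachable.refl _
  | succ j hij ih => exact (ih (by omega)).trans (h j (by omega)).reachable

/-- a non-bridge leads to another neighbour around the point -/
lemma Off_reach (hPATH : S_PATH) {x y : V} (h : (NG G).Adj x y) :
    ∃ z, z ≠ y ∧ G.Adj x z ∧ (Off G x).Reachable z y := by
  obtain ⟨⟨n, v, h0, hn, hadj, hinj⟩, _⟩ := hPATH V (G.deleteEdges {s(x, y)}) x y h.2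
  have hxy : x ≠ y := h.1.ne
  have hn0 : 0 < n := by
    rcases Nat.eq_zero_or_pos n with h' | h'
    · subst h'
      rw [h0] at hn
      exact absurd hn hxy
    · exact h'
  have h1 := hadj 0 hn0
  rw [zero_add, h0, SimpleGraph.deleteEdges_adj] at h1
  refine ⟨v 1, ?_, h1.1, ?_⟩
  · intro he
    apply h1.2
    rw [he]
    exact Set.mem_singleton _
  · have hH : ∀ i, 1 ≤ i → i < n → (Off G x).Adj (v i) (v (i + 1)) := by
      intro i hi1 hi2
      have h2 := hadj i hi2
      rw [SimpleGraph.deleteEdges_adj] at h2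
      refine ⟨h2.1, ?_, ?_⟩
      · intro he
        have := hinj i (by omega) 0 (by omega) (by rw [he, h0])
        omega
      · intro he
        have := hinj (i + 1) (by omega) 0 (by omega) (by rw [he, h0])
        omega
    have h3 : (Off G x).Reachable (v (1 + 0)) (v (1 + (n - 1))) := by
      refine seq_reach (v := fun i => v (1 + i)) (n := n - 1) ?_ (Nat.zero_le _) le_rfl
      intro i hi
      have := hH (1 + i) (by omega) (by omega)
      rw [show 1 + (i + 1) = 1 + i + 1 by omega]
      exact this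
    rw [show 1 + (n - 1) = n by omega, hn] at h3
    exact h3

/-- two neighbours of `x` of the same colour joined by an alternating path off `x`: a finite core -/
lemma core_of_path {c : V → Bool} {x a b : V} (hPATH : S_PATH)
    (hS : ∀ S : Set V, S.Finite → S.Nonempty → ∀ c : V → Bool, ¬ Core G S c)
    (ha : G.Adj x a) (hb : G.Adj x b) (hab : a ≠ b) (hc : c a = c b)
    (h : (Alt (Off G x) c).Reachable a b) : False := by
  classical
  obtain ⟨⟨n, v, h0, hn, hadj, hinj⟩, _⟩ := hPATH V _ a b h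
  have hn0 : 0 < n := by
    rcases Nat.eq_zero_or_pos n with h' | h'
    · subst h'
      rw [h0] at hn
      exact absurd hn hab
    · exact h'
  let S : Set V := insert x (v '' (Set.Iic n))
  have hfin : S.Finite := ((Set.finite_Iic n).image v).insert x
  let c' : V → Bool := fun z => if z = x then !(c a) else c z
  have hmem : ∀ i ≤ n, v i ∈ S := fun i hi => Set.mem_insert_of_mem _ ⟨i, hi, rfl⟩
  have hvx : ∀ i ≤ n, v i ≠ x := by
    intro i hi
    rcases Nat.lt_or_ge i n with h' | h'
    · exact (hadj i h').1.2.1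
    · have := (hadj (i - 1) (by omega)).1.2.2
      rwa [show i - 1 + 1 = i by omega] at this
  have hcv : ∀ i ≤ n, c' (v i) = c (v i) := fun i hi => if_neg (hvx i hi)
  have hcx : c' x = !(c a) := if_pos rfl
  have hstep : ∀ i < n, G.Adj (v i) (v (i + 1)) ∧ c' (v i) ≠ c' (v (i + 1)) := by
    intro i hi
    refine ⟨(hadj i hi).1.1, ?_⟩
    rw [hcv i (by omega), hcv (i + 1) (by omega)]
    exact (hadj i hi).2
  refine hS S hfin ⟨x, Set.mem_insert _ _⟩ c' ?_
  intro z hz
  rcases hz with rfl | ⟨i, hi, rfl⟩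
  · refine ⟨v 0, v n, ?_, ?_, ?_, hmem 0 (by omega), hmem n le_rfl, ?_, ?_⟩
    · rw [h0, hn]; exact hab
    · rw [h0]; exact ha
    · rw [hn]; exact hb
    · rw [hcx, hcv 0 (by omega), h0]; simp
    · rw [hcx, hcv n le_rfl, hn, ← hc]; simp
  · have hi' : i ≤ n := hi
    rcases Nat.eq_zero_or_pos i with h' | h'
    · subst h'
      refine ⟨x, v 1, (hvx 1 (by omega)).symm, ?_, (hstep 0 hn0).1, Set.mem_insert _ _, hmem 1 (by omega), ?_, ?_⟩
      · rw [h0]; exact ha.symm
      · rw [hcx, hcv 0 (by omega), h0]; simp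
      · exact (hstep 0 hn0).2.symm
    · have e1 := hstep (i - 1) (by omega)
      rw [show i - 1 + 1 = i by omega] at e1
      rcases Nat.lt_or_ge i n with h2 | h2
      · refine ⟨v (i - 1), v (i + 1), ?_, e1.1.symm, (hstep i h2).1, hmem _ (by omega), hmem _ (by omega),
          e1.2, (hstep i h2).2.symm⟩
        intro he
        have := hinj (i - 1) (by omega) (i + 1) (by omega) he
        omega
      · have hin : i = n := by omega
        subst hin
        refine ⟨v (i - 1), x, hvx _ (by omega), e1.1.symm, ?_, hmem _ (by omega), Set.mem_insert _ _, e1.2, ?_⟩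
        · rw [hn]; exact hb.symm
        · rw [hcx, hcv i le_rfl, hn, hc]; simp

/-- every point lies on a bridge -/
lemma bridge (hPATH : S_PATH) (h3 : ∀ x, (G.neighborSet x).ncard = 3)
    (hS : ∀ S : Set V, S.Finite → S.Nonempty → ∀ c : V → Bool, ¬ Core G S c) (x : V) :
    ∃ y, G.Adj x y ∧ ¬ (NG G).Adj x y := by
  classical
  by_contra hcon
  push Not at hcon
  obtain ⟨y1, y2, y3, h12, h13, h23, hs⟩ := Set.ncard_eq_three.mp (h3 x)
  have hmem : ∀ z, G.Adj x z ↔ z = y1 ∨ z = y2 ∨ z = y3 := by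
    intro z
    have : z ∈ G.neighborSet x ↔ z ∈ ({y1, y2, y3} : Set V) := by rw [hs]
    simpa using this
  have a1 : G.Adj x y1 := (hmem _).mpr (Or.inl rfl)
  have a2 : G.Adj x y2 := (hmem _).mpr (Or.inr (Or.inl rfl))
  have a3 : G.Adj x y3 := (hmem _).mpr (Or.inr (Or.inr rfl))
  -- all three are joined off `x`
  have r1 : (Off G x).Reachable y1 y2 ∨ (Off G x).Reachable y1 y3 := by
    obtain ⟨z, hz1, hz2, hz3⟩ := Off_reach G hPATH (hcon y1 a1)
    rcases (hmem z).mp hz2 with rfl | rfl | rfl
    · exact absurd rfl hz1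
    · exact Or.inl hz3.symm
    · exact Or.inr hz3.symm
  have r2 : (Off G x).Reachable y2 y1 ∨ (Off G x).Reachable y2 y3 := by
    obtain ⟨z, hz1, hz2, hz3⟩ := Off_reach G hPATH (hcon y2 a2)
    rcases (hmem z).mp hz2 with rfl | rfl | rfl
    · exact Or.inl hz3.symm
    · exact absurd rfl hz1
    · exact Or.inr hz3.symm
  have r3 : (Off G x).Reachable y3 y1 ∨ (Off G x).Reachable y3 y2 := by
    obtain ⟨z, hz1, hz2, hz3⟩ := Off_reach G hPATH (hcon y3 a3)
    rcases (hmem z).mp hz2 with rfl | rfl | rfl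
    · exact Or.inl hz3.symm
    · exact Or.inr hz3.symm
    · exact absurd rfl hz1
  have q12 : (Off G x).Reachable y1 y2 := by
    rcases r1 with h | h
    · exact h
    · rcases r2 with h' | h'
      · exact h'.symm
      · exact h.trans h'.symm
  have q13 : (Off G x).Reachable y1 y3 := by
    rcases r3 with h | h
    · exact h.symm
    · exact q12.trans h.symm
  -- the colouring
  let c : V → Bool := fun z => decide (Even ((Off G x).dist y1 z))
  have alt : ∀ z, (Off G x).Reachable y1 z → (Alt (Off G x) c).Reachable y1 z := by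
    intro z hz
    obtain ⟨_, v, h0, hn, hadj, hd⟩ := hPATH V (Off G x) y1 z hz
    have h1 : ∀ i < (Off G x).dist y1 z, (Alt (Off G x) c).Adj (v i) (v (i + 1)) := by
      intro i hi
      refine ⟨hadj i hi, ?_⟩
      show decide (Even ((Off G x).dist y1 (v i))) ≠ decide (Even ((Off G x).dist y1 (v (i + 1))))
      rw [(hd i (by omega)).2, (hd (i + 1) (by omega)).2]
      intro he
      have : Even i ↔ Even (i + 1) := by
        constructor
        · intro h; rw [decide_eq_true h] at he; exact of_decide_eq_true he.symm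
        · intro h; rw [decide_eq_true h] at he; exact of_decide_eq_true he
      rw [Nat.even_add_one] at this
      tauto
    have h2 := seq_reach h1 (Nat.zero_le _) le_rfl
    rwa [h0, hn] at h2
  have b2 := alt y2 q12
  have b3 := alt y3 q13
  have hpig : c y1 = c y2 ∨ c y1 = c y3 ∨ c y2 = c y3 := by
    cases c y1 <;> cases c y2 <;> cases c y3 <;> simp
  rcases hpig with h | h | h
  · exact core_of_path G hPATH hS a1 a2 h12 h b2
  · exact core_of_path G hPATH hS a1 a3 h13 h b3
  · exact core_of_path G hPATH hS a2 a3 h23 h (b2.symm.trans b3)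

/-- there are at most two non-bridges at each point -/
lemma NG_two (h3 : ∀ x, (G.neighborSet x).ncard = 3) (hb : ∀ x, ∃ y, G.Adj x y ∧ ¬ (NG G).Adj x y)
    {x a b z : V} (ha : (NG G).Adj x a) (hb' : (NG G).Adj x b) (hab : a ≠ b) (hz : (NG G).Adj x z) :
    z = a ∨ z = b := by
  classical
  by_contra hcon
  push Not at hcon
  obtain ⟨y, hy1, hy2⟩ := hb x
  have hya : y ≠ a := fun h => hy2 (h ▸ ha)
  have hyb : y ≠ b := fun h => hy2 (h ▸ hb')
  have hyz : y ≠ z := fun h => hy2 (h ▸ hz)
  have hsub : (({a, b, z, y} : Finset V) : Set V) ⊆ G.neighborSet x := by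
    intro w hw
    simp only [Finset.coe_insert, Finset.coe_singleton, Set.mem_insert_iff, Set.mem_singleton_iff] at hw
    rcases hw with rfl | rfl | rfl | rfl
    · exact ha.1
    · exact hb'.1
    · exact hz.1
    · exact hy1
  have hfin : (G.neighborSet x).Finite := Set.finite_of_ncard_ne_zero (by rw [h3]; norm_num)
  have h4 := Set.ncard_le_ncard hsub hfin
  rw [Set.ncard_coe_finset, h3, Finset.card_insert_of_notMem, Finset.card_insert_of_notMem,
    Finset.card_insert_of_notMem, Finset.card_singleton] at h4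
  · omega
  · simp [hyz.symm]
  · simp only [Finset.mem_insert, Finset.mem_singleton, not_or]
    exact ⟨hcon.2.symm, hyb.symm⟩
  · simp only [Finset.mem_insert, Finset.mem_singleton, not_or]
    exact ⟨hab, hcon.1.symm, hya.symm⟩

variable (r : V → ℝ)

/-- the edge removed from the component of `x` -/
def Rm (x y : V) : Prop :=
  (NG G).Adj x y ∧ (∀ z, (NG G).Reachable x z → r x ≤ r z) ∧ ∀ z, (NG G).Adj x z → r y ≤ r z

/-- removed edges, symmetric version -/
def RR (x y : V) : Prop := Rm G r x y ∨ Rm G r y x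

lemma RR_symm {x y : V} (h : RR G r x y) : RR G r y x := h.symm

lemma RR_adj {x y : V} (h : RR G r x y) : (NG G).Adj x y := by
  rcases h with h | h
  · exact h.1
  · exact h.1.symm

lemma Rm_uniq (hr : Function.Injective r) {a b c d : V} (h : Rm G r a b) (hac : (NG G).Reachable a c)
    (h' : Rm G r c d) : a = c ∧ b = d := by
  have e1 : a = c := hr (le_antisymm (h.2.1 c hac) (h'.2.1 a hac.symm))
  subst e1
  exact ⟨rfl, hr (le_antisymm (h.2.2 d h'.1) (h'.2.2 b h.1))⟩

lemma RR_uniq (hr : Function.Injective r) {a b c d : V} (h : RR G r a b) (hac : (NG G).Reachable a c)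
    (h' : RR G r c d) : (a = c ∧ b = d) ∨ (a = d ∧ b = c) := by
  have hab : (NG G).Reachable a b := (RR_adj G r h).reachable
  have hcd : (NG G).Reachable c d := (RR_adj G r h').reachable
  rcases h with h | h
  · rcases h' with h' | h'
    · exact Or.inl (Rm_uniq G r hr h hac h')
    · exact Or.inr (Rm_uniq G r hr h (hac.trans hcd) h')
  · rcases h' with h' | h'
    · obtain ⟨e1, e2⟩ := Rm_uniq G r hr h (hab.symm.trans hac) h'
      exact Or.inr ⟨e2, e1⟩
    · obtain ⟨e1, e2⟩ := Rm_uniq G r hr h (hab.symm.trans (hac.trans hcd)) h'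
      exact Or.inl ⟨e2, e1⟩

/-- the forest -/
def FF : SimpleGraph V where
  Adj x y := G.Adj x y ∧ ¬ RR G r x y
  symm := ⟨fun _ _ h => ⟨h.1.symm, fun h' => h.2 (RR_symm G r h')⟩⟩
  loopless := ⟨fun _ h => G.loopless.irrefl _ h.1⟩

lemma FF_le : FF G r ≤ G := fun _ _ h => h.1

lemma FF_acyclic (h3 : ∀ x, (G.neighborSet x).ncard = 3)
    (hb : ∀ x, ∃ y, G.Adj x y ∧ ¬ (NG G).Adj x y) : (FF G r).IsAcyclic := by
  classical
  intro v p hp
  -- edges of the cycle
  have hedge : ∀ a b, s(a, b) ∈ p.edges → (NG G).Adj a b := by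
    intro a b hab
    refine (NG_iff G).mpr ⟨v, p.mapLe (FF_le G r), hp.mapLe (FF_le G r), ?_⟩
    rw [SimpleGraph.Walk.edges_mapLe_eq_edges]
    exact hab
  have hnb : ∀ u ∈ p.support, ∃ a b, a ≠ b ∧ (FF G r).Adj u a ∧ (FF G r).Adj u b ∧ (NG G).Adj u a ∧
      (NG G).Adj u b ∧ a ∈ p.support ∧ b ∈ p.support := by
    intro u hu
    obtain ⟨a, b, hab, ha, hb'⟩ := cyc_two hp hu
    exact ⟨a, b, hab, p.adj_of_mem_edges ha, p.adj_of_mem_edges hb', hedge _ _ ha, hedge _ _ hb',
      p.snd_mem_support_of_mem_edges ha, p.snd_mem_support_of_mem_edges hb'⟩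
  have hclosed : ∀ u ∈ p.support, ∀ z, (NG G).Adj u z → z ∈ p.support ∧ (FF G r).Adj u z := by
    intro u hu z hz
    obtain ⟨a, b, hab, fa, fb, na, nb, sa, sb⟩ := hnb u hu
    rcases NG_two G h3 hb na nb hab hz with rfl | rfl
    · exact ⟨sa, fa⟩
    · exact ⟨sb, fb⟩
  have hcomp : ∀ u ∈ p.support, ∀ z, (NG G).Reachable u z → z ∈ p.support := by
    intro u hu z hz
    rw [SimpleGraph.reachable_iff_reflTransGen] at hz
    induction hz with
    | refl => exact hu
    | tail _ h ih => exact (hclosed _ ih _ h).1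
  obtain ⟨x, hx1, hx2⟩ := Finset.exists_min_image p.support.toFinset r
    ⟨v, List.mem_toFinset.mpr p.start_mem_support⟩
  rw [List.mem_toFinset] at hx1
  obtain ⟨a, b, hab, fa, fb, na, nb, sa, sb⟩ := hnb x hx1
  have hmin : ∀ z, (NG G).Reachable x z → r x ≤ r z := fun z hz =>
    hx2 z (List.mem_toFinset.mpr (hcomp x hx1 z hz))
  rcases le_total (r a) (r b) with hle | hle
  · apply fa.2
    left
    refine ⟨na, hmin, fun z hz => ?_⟩
    rcases NG_two G h3 hb na nb hab hz with rfl | rfl
    · exact le_rfl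
    · exact hle
  · apply fb.2
    left
    refine ⟨nb, hmin, fun z hz => ?_⟩
    rcases NG_two G h3 hb na nb hab hz with rfl | rfl
    · exact hle
    · exact le_rfl

lemma FF_full {x : V} (h : ∀ y, G.Adj x y → ¬ RR G r x y) (h3 : ∀ x, (G.neighborSet x).ncard = 3) :
    ((FF G r).neighborSet x).ncard = 3 := by
  have : (FF G r).neighborSet x = G.neighborSet x := by
    ext y
    exact ⟨fun hy => hy.1, fun hy => ⟨hy, h y hy⟩⟩
  rw [this, h3]

lemma FF_deg (hr : Function.Injective r) (h3 : ∀ x, (G.neighborSet x).ncard = 3) (x : V) :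
    ((FF G r).neighborSet x).ncard = 3 ∨ (((FF G r).neighborSet x).ncard = 2 ∧
      ∃ y, (FF G r).Adj x y ∧ ((FF G r).neighborSet y).ncard = 3) := by
  classical
  by_cases hx : ∀ y, G.Adj x y → ¬ RR G r x y
  · exact Or.inl (FF_full G r hx h3)
  · right
    push Not at hx
    obtain ⟨y, hy1, hy2⟩ := hx
    constructor
    · have : (FF G r).neighborSet x = G.neighborSet x \ {y} := by
        ext z
        constructor
        · intro hz
          refine ⟨hz.1, ?_⟩
          rintro rfl
          exact hz.2 hy2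
        · rintro ⟨hz1, hz2⟩
          refine ⟨hz1, fun hz3 => hz2 ?_⟩
          rcases RR_uniq G r hr hy2 (SimpleGraph.Reachable.refl _) hz3 with ⟨_, h⟩ | ⟨_, h⟩
          · exact h.symm
          · exact absurd h hy1.ne'
      have hy3 : y ∈ G.neighborSet x := hy1
      rw [this, Set.ncard_sdiff_singleton_of_mem hy3, h3]
    · obtain ⟨z, hz1, hz2⟩ := NG_other G (RR_adj G r hy2)
      have hxz : ¬ RR G r x z := by
        intro h
        rcases RR_uniq G r hr hy2 (SimpleGraph.Reachable.refl _) h with ⟨_, h⟩ | ⟨_, h⟩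
        · exact hz1 h.symm
        · exact hy1.ne' h
      refine ⟨z, ⟨hz2.1, hxz⟩, ?_⟩
      apply FF_full G r _ h3
      intro w _ hw2
      rcases RR_uniq G r hr hy2 hz2.reachable hw2 with ⟨h, _⟩ | ⟨_, h⟩
      · exact hz2.ne h
      · exact hz1 h.symm

end comb

/-- FOR -/
theorem main (hENUM : S_ENUM) (hEX : S_EX) (hREACH : S_REACH) (hPATH : S_PATH) : S_FOR := by
  intro V _ _ G hG h3 hS
  obtain ⟨w, hw, _⟩ := hENUM V G 3 hG
  have hE : Equivalence G.Reachable := ⟨fun _ => SimpleGraph.Reachable.refl _,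
    fun h => h.symm, fun h h' => h.trans h'⟩
  have hr := (measurableEmbedding_embeddingReal V).injective
  have hrm := measurable_embeddingReal V
  have heq : ∀ {Z : Type} [MeasurableSpace Z] {f g : Z → V}, Measurable f → Measurable g →
      MeasurableSet {z | f z = g z} := by
    intro Z _ f g hf hg
    have h1 : {z | f z = g z} = {z | embeddingReal V (f z) = embeddingReal V (g z)} := by
      ext z
      constructor
      · intro h
        show embeddingReal V (f z) = embeddingReal V (g z)
        rw [show f z = g z from h]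
      · intro h
        exact hr h
    rw [h1]
    exact measurableSet_eq_fun (hrm.comp hf) (hrm.comp hg)
  -- the graph of the non-bridges is Borel
  have hN1 : MeasurableSet {p : V × V | (G.deleteEdges {s(p.1, p.2)}).Reachable p.1 p.2} := by
    refine (hREACH V G.Reachable w hE hw (V × V) (fun p => G.deleteEdges {s(p.1, p.2)}) ?_ ?_
      Prod.fst Prod.snd measurable_fst measurable_snd).1
    · have h1 : {p : (V × V) × V × V | (G.deleteEdges {s(p.1.1, p.1.2)}).Adj p.2.1 p.2.2} =
          {p : (V × V) × V × V | G.Adj p.2.1 p.2.2} ∩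
          (({p : (V × V) × V × V | p.2.1 = p.1.1} ∩ {p : (V × V) × V × V | p.2.2 = p.1.2}) ∪
          ({p : (V × V) × V × V | p.2.1 = p.1.2} ∩ {p : (V × V) × V × V | p.2.2 = p.1.1}))ᶜ := by
        ext p
        show (G.deleteEdges {s(p.1.1, p.1.2)}).Adj p.2.1 p.2.2 ↔ G.Adj p.2.1 p.2.2 ∧
          ¬ ((p.2.1 = p.1.1 ∧ p.2.2 = p.1.2) ∨ (p.2.1 = p.1.2 ∧ p.2.2 = p.1.1))
        rw [SimpleGraph.deleteEdges_adj, Set.mem_singleton_iff, Sym2.eq_iff]
      rw [h1]
      refine MeasurableSet.inter ?_ (MeasurableSet.compl ?_)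
      · exact measurable_snd hG.adj
      · exact ((heq (by fun_prop) (by fun_prop)).inter (heq (by fun_prop) (by fun_prop))).union
          ((heq (by fun_prop) (by fun_prop)).inter (heq (by fun_prop) (by fun_prop)))
    · intro z x y h
      rw [SimpleGraph.deleteEdges_adj] at h
      exact h.1.reachable
  have hN : Bor2 (NG G).Adj := MeasurableSet.inter hG.adj hN1
  have hNR : Bor2 (NG G).Reachable := by
    refine (hREACH V G.Reachable w hE hw (V × V) (fun _ => NG G) ?_ ?_
      Prod.fst Prod.snd measurable_fst measurable_snd).1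
    · exact measurable_snd hN
    · intro z x y h
      exact h.1.reachable
  have hA1 : MeasurableSet {p : (V × V) × V | (NG G).Reachable p.1.1 p.2 →
      embeddingReal V p.1.1 ≤ embeddingReal V p.2} := by
    have h1 : {p : (V × V) × V | (NG G).Reachable p.1.1 p.2 →
      embeddingReal V p.1.1 ≤ embeddingReal V p.2} =
      ((fun p : (V × V) × V => (p.1.1, p.2)) ⁻¹' {p : V × V | (NG G).Reachable p.1 p.2})ᶜ ∪
      {p : (V × V) × V | embeddingReal V p.1.1 ≤ embeddingReal V p.2} := by
      ext p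
      show ((NG G).Reachable p.1.1 p.2 → embeddingReal V p.1.1 ≤ embeddingReal V p.2) ↔
        (¬ (NG G).Reachable p.1.1 p.2) ∨ embeddingReal V p.1.1 ≤ embeddingReal V p.2
      tauto
    rw [h1]
    refine MeasurableSet.union (MeasurableSet.compl ?_) ?_
    · exact (by fun_prop : Measurable (fun p : (V × V) × V => (p.1.1, p.2))) hNR
    · exact measurableSet_le (hrm.comp (by fun_prop)) (hrm.comp (by fun_prop))
  have hA2 : MeasurableSet {p : (V × V) × V | (NG G).Adj p.1.1 p.2 →
      embeddingReal V p.1.2 ≤ embeddingReal V p.2} := by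
    have h1 : {p : (V × V) × V | (NG G).Adj p.1.1 p.2 →
      embeddingReal V p.1.2 ≤ embeddingReal V p.2} =
      ((fun p : (V × V) × V => (p.1.1, p.2)) ⁻¹' {p : V × V | (NG G).Adj p.1 p.2})ᶜ ∪
      {p : (V × V) × V | embeddingReal V p.1.2 ≤ embeddingReal V p.2} := by
      ext p
      show ((NG G).Adj p.1.1 p.2 → embeddingReal V p.1.2 ≤ embeddingReal V p.2) ↔
        (¬ (NG G).Adj p.1.1 p.2) ∨ embeddingReal V p.1.2 ≤ embeddingReal V p.2
      tauto
    rw [h1]
    refine MeasurableSet.union (MeasurableSet.compl ?_) ?_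
    · exact (by fun_prop : Measurable (fun p : (V × V) × V => (p.1.1, p.2))) hN
    · exact measurableSet_le (hrm.comp (by fun_prop)) (hrm.comp (by fun_prop))
  have hB1 := (hEX V G.Reachable w hw (V × V) Prod.fst measurable_fst
    (fun p z => (NG G).Reachable p.1 z → embeddingReal V p.1 ≤ embeddingReal V z) hA1).2
  have hB2 := (hEX V G.Reachable w hw (V × V) Prod.fst measurable_fst
    (fun p z => (NG G).Adj p.1 z → embeddingReal V p.2 ≤ embeddingReal V z) hA2).2
  have hle : ∀ {x z : V}, (NG G).Reachable x z → G.Reachable x z := fun h => h.mono (NG_le G)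
  have hRm : Bor2 (Rm G (embeddingReal V)) := by
    have h1 : {p : V × V | Rm G (embeddingReal V) p.1 p.2} = {p : V × V | (NG G).Adj p.1 p.2} ∩
        ({p : V × V | ∀ y, G.Reachable p.1 y → (NG G).Reachable p.1 y →
          embeddingReal V p.1 ≤ embeddingReal V y} ∩
        {p : V × V | ∀ y, G.Reachable p.1 y → (NG G).Adj p.1 y →
          embeddingReal V p.2 ≤ embeddingReal V y}) := by
      ext p
      constructor
      · rintro ⟨g1, g2, g3⟩
        exact ⟨g1, fun y _ hy => g2 y hy, fun y _ hy => g3 y hy⟩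
      · rintro ⟨g1, g2, g3⟩
        exact ⟨g1, fun y hy => g2 y (hle hy) hy, fun y hy => g3 y (hle hy.reachable) hy⟩
    unfold Bor2
    rw [h1]
    exact MeasurableSet.inter hN (MeasurableSet.inter hB1 hB2)
  have hRR : Bor2 (RR G (embeddingReal V)) := by
    have h1 : {p : V × V | RR G (embeddingReal V) p.1 p.2} = {p : V × V | Rm G (embeddingReal V) p.1 p.2} ∪
        Prod.swap ⁻¹' {p : V × V | Rm G (embeddingReal V) p.1 p.2} := by
      ext p
      exact Iff.rfl
    unfold Bor2
    rw [h1]
    exact MeasurableSet.union hRm (measurable_swap hRm)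
  refine ⟨FF G (embeddingReal V), FF_le G _, ?_, ?_, ?_, ?_⟩
  · exact MeasurableSet.inter hG.adj (MeasurableSet.compl hRR)
  · exact FF_acyclic G _ h3 (bridge G hPATH h3 hS)
  · intro x
    rcases FF_deg G (embeddingReal V) hr h3 x with h | h
    · rw [h]; norm_num
    · rw [h.1]
  · intro x
    rcases FF_deg G (embeddingReal V) hr h3 x with h | h
    · exact Or.inl h
    · exact Or.inr h.2

end Pool.Agent.Helper611.UF.For
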