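import Pool.Agent.Helper611.UF.Stm

/-!
# Project UF: MOM, the expected absolute value of the vote
-/

set_option autoImplicit false

namespace Pool.Agent.Helper611.UF.Mom

open Finset

/-- averaging over one coordinate -/
theorem avg {k : ℕ} (i : Fin k) (f : (Fin k → Bool × Bool) → ℤ) :
    ∑ ω : Fin k → Bool × Bool, ∑ v : Bool × Bool, f (Function.update ω i v) =
      4 * ∑ ω : Fin k → Bool × Bool, f ω := by
  classical
  let e := Equiv.funSplitAt i (Bool × Bool)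
  have h1 : ∀ F : (Fin k → Bool × Bool) → ℤ, ∑ ω, F ω = ∑ p, F (e.symm p) := fun F =>
    (Equiv.sum_comp e.symm F).symm
  have h2 : ∀ (p : (Bool × Bool) × ({j // j ≠ i} → Bool × Bool)) (v : Bool × Bool),
      Function.update (e.symm p) i v = e.symm (v, p.2) := by
    intro p v
    funext j
    by_cases hj : j = i
    · subst hj
      simp [e, Equiv.funSplitAt, Equiv.piSplitAt]
    · rw [Function.update_of_ne hj]
      simp [e, Equiv.funSplitAt, Equiv.piSplitAt, hj]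
  rw [h1, h1 f]
  simp only [h2]
  have h3 : ∑ p : (Bool × Bool) × ({j // j ≠ i} → Bool × Bool), ∑ v, f (e.symm (v, p.2)) =
      ∑ _a : Bool × Bool, ∑ r : ({j // j ≠ i} → Bool × Bool), ∑ v, f (e.symm (v, r)) :=
    Fintype.sum_prod_type _
  have h4 : ∑ p : (Bool × Bool) × ({j // j ≠ i} → Bool × Bool), f (e.symm p) =
      ∑ a : Bool × Bool, ∑ r : ({j // j ≠ i} → Bool × Bool), f (e.symm (a, r)) :=
    Fintype.sum_prod_type _
  rw [h3, h4, Finset.sum_const, Finset.card_univ, Finset.sum_comm]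
  norm_num

theorem sum_xi {k : ℕ} (t : Fin k → Bool) (s : Finset (Fin k)) (i : Fin k) (hi : i ∉ s)
    (ω : Fin k → Bool × Bool) (v : Bool × Bool) :
    ∑ j ∈ insert i s, xi (t j) (Function.update ω i v j) = xi (t i) v + ∑ j ∈ s, xi (t j) (ω j) := by
  rw [Finset.sum_insert hi, Function.update_self]
  congr 1
  refine Finset.sum_congr rfl fun j hj => ?_
  rw [Function.update_of_ne]
  rintro rfl
  exact hi hj

theorem sum_v (t : Bool) (F : ℤ → ℤ) :
    ∑ v : Bool × Bool, F (xi t v) = 2 * F 0 + F 1 + F (-1) := by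
  rw [Fintype.sum_prod_type]
  cases t <;> simp [xi] <;> ring

theorem card_om (k : ℕ) : ∑ _ω : Fin k → Bool × Bool, (1 : ℤ) = 4 ^ k := by
  simp [Fintype.card_prod]

theorem moments {k : ℕ} (t : Fin k → Bool) (s : Finset (Fin k)) :
    2 * ∑ ω : Fin k → Bool × Bool, (∑ i ∈ s, xi (t i) (ω i)) ^ 2 = s.card * 4 ^ k ∧
    4 * ∑ ω : Fin k → Bool × Bool, (∑ i ∈ s, xi (t i) (ω i)) ^ 4 =
      (3 * (s.card : ℤ) ^ 2 - s.card) * 4 ^ k := by
  classical
  induction s using Finset.induction_on with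
  | empty => simp
  | insert i s hi ih =>
    obtain ⟨ih2, ih4⟩ := ih
    have h2 := avg i (fun ω => (∑ j ∈ insert i s, xi (t j) (ω j)) ^ 2)
    have h4 := avg i (fun ω => (∑ j ∈ insert i s, xi (t j) (ω j)) ^ 4)
    simp only [sum_xi t s i hi] at h2 h4
    have e2 : ∀ X : ℤ, ∑ v : Bool × Bool, (xi (t i) v + X) ^ 2 = 4 * X ^ 2 + 2 := by
      intro X
      rw [sum_v (t i) (fun y => (y + X) ^ 2)]
      ring
    have e4 : ∀ X : ℤ, ∑ v : Bool × Bool, (xi (t i) v + X) ^ 4 = 4 * X ^ 4 + 12 * X ^ 2 + 2 := by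
      intro X
      rw [sum_v (t i) (fun y => (y + X) ^ 4)]
      ring
    simp only [e2] at h2
    simp only [e4] at h4
    have c1 : ∑ _ω : Fin k → Bool × Bool, (2 : ℤ) = 2 * 4 ^ k := by
      rw [← card_om, Finset.mul_sum]
      simp
    rw [Finset.sum_add_distrib, ← Finset.mul_sum, c1] at h2
    rw [Finset.sum_add_distrib, Finset.sum_add_distrib, ← Finset.mul_sum, ← Finset.mul_sum,
      c1] at h4
    rw [Finset.card_insert_of_notMem hi]
    push_cast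
    constructor
    · linarith
    · linarith

theorem abs_ge (a t : ℝ) (ha : 0 < a) : t ^ 2 / a - t ^ 4 / a ^ 3 ≤ |t| := by
  have h1 : t ^ 2 = |t| ^ 2 := (sq_abs t).symm
  have h2 : t ^ 4 = |t| ^ 4 := by
    rw [show t ^ 4 = (t ^ 2) ^ 2 by ring, h1]
    ring
  rw [h1, h2]
  obtain ⟨u, hu⟩ : ∃ u, u = |t| := ⟨_, rfl⟩
  have hu0 : 0 ≤ u := hu ▸ abs_nonneg t
  rw [← hu]
  have h3 : u ^ 2 / a - u ^ 4 / a ^ 3 = (a ^ 2 * u ^ 2 - u ^ 4) / a ^ 3 := by
    field_simp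
  rw [h3, div_le_iff₀ (by positivity)]
  have h4 : 0 ≤ a ^ 3 - a ^ 2 * u + u ^ 3 := by
    rcases le_total u a with h | h
    · have : 0 ≤ a ^ 2 * (a - u) := mul_nonneg (by positivity) (by linarith)
      have h5 : 0 ≤ u ^ 3 := by positivity
      nlinarith
    · have h5 : a ^ 2 * u ≤ u ^ 2 * u := by
        apply mul_le_mul_of_nonneg_right _ hu0
        nlinarith
      have h6 : 0 < a ^ 3 := by positivity
      nlinarith
  nlinarith [mul_nonneg hu0 h4]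

theorem main : S_MOM := by
  intro k s t hs
  obtain ⟨h2, h4⟩ := moments t s
  obtain ⟨a, ha⟩ : ∃ a : ℝ, a = Real.sqrt (4 * s.card) := ⟨_, rfl⟩
  have ha2 : a ^ 2 = 4 * s.card := by
    rw [ha, Real.sq_sqrt (by positivity)]
  have hs' : (1600 : ℝ) ≤ s.card := by exact_mod_cast hs
  have ha80 : 80 ≤ a := by
    rw [ha]
    apply Real.le_sqrt_of_sq_le
    linarith
  have hapos : 0 < a := by linarith
  have h2' : 2 * ∑ ω : Fin k → Bool × Bool, ((∑ i ∈ s, xi (t i) (ω i) : ℤ) : ℝ) ^ 2 =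
      s.card * 4 ^ k := by exact_mod_cast h2
  have h4' : 4 * ∑ ω : Fin k → Bool × Bool, ((∑ i ∈ s, xi (t i) (ω i) : ℤ) : ℝ) ^ 4 =
      (3 * (s.card : ℝ) ^ 2 - s.card) * 4 ^ k := by exact_mod_cast h4
  have h5 : ∑ ω : Fin k → Bool × Bool, (((∑ i ∈ s, xi (t i) (ω i) : ℤ) : ℝ) ^ 2 / a -
      ((∑ i ∈ s, xi (t i) (ω i) : ℤ) : ℝ) ^ 4 / a ^ 3) ≤
      ∑ ω : Fin k → Bool × Bool, |((∑ i ∈ s, xi (t i) (ω i) : ℤ) : ℝ)| :=
    Finset.sum_le_sum fun ω _ => abs_ge a _ hapos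
  rw [Finset.sum_sub_distrib, ← Finset.sum_div, ← Finset.sum_div] at h5
  obtain ⟨m2, hm2⟩ : ∃ m2, m2 = ∑ ω : Fin k → Bool × Bool,
    ((∑ i ∈ s, xi (t i) (ω i) : ℤ) : ℝ) ^ 2 := ⟨_, rfl⟩
  obtain ⟨m4, hm4⟩ : ∃ m4, m4 = ∑ ω : Fin k → Bool × Bool,
    ((∑ i ∈ s, xi (t i) (ω i) : ℤ) : ℝ) ^ 4 := ⟨_, rfl⟩
  rw [← hm2] at h5 h2'
  rw [← hm4] at h5 h4'
  have hK : (0 : ℝ) < 4 ^ k := by positivity
  have hcard : (s.card : ℝ) = a ^ 2 / 4 := by linarith
  have e2 : m2 / a = a / 8 * 4 ^ k := by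
    have : m2 = a ^ 2 / 8 * 4 ^ k := by
      rw [hcard] at h2'
      linarith
    rw [this]
    field_simp
  have e4 : m4 / a ^ 3 ≤ 3 * a / 64 * 4 ^ k := by
    have h6 : m4 ≤ 3 * a ^ 4 / 64 * 4 ^ k := by
      rw [hcard] at h4'
      have h7 : 0 ≤ a ^ 2 / 4 * 4 ^ k := by positivity
      have h8 : 4 * m4 = 3 * a ^ 4 / 16 * 4 ^ k - a ^ 2 / 4 * 4 ^ k := by
        rw [h4']
        ring
      linarith
    rw [div_le_iff₀ (by positivity)]
    refine h6.trans (le_of_eq ?_)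
    ring
  have h9 : (6 : ℝ) * 4 ^ k < ∑ ω : Fin k → Bool × Bool, |((∑ i ∈ s, xi (t i) (ω i) : ℤ) : ℝ)| := by
    refine lt_of_lt_of_le ?_ h5
    rw [e2]
    have h10 : a / 8 * 4 ^ k - m4 / a ^ 3 ≥ (5 * a / 64) * 4 ^ k := by
      have : a / 8 * 4 ^ k - 3 * a / 64 * 4 ^ k = (5 * a / 64) * 4 ^ k := by ring
      linarith
    have h11 : (6 : ℝ) < 5 * a / 64 := by linarith
    have := mul_lt_mul_of_pos_right h11 hK
    linarith
  exact_mod_cast h9

end Pool.Agent.Helper611.UF.Mom
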