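import Pool.Agent.Helper611.UF.Tool3

/-!
# Project UF: Q, Borel gauges on forests of large degree
-/

set_option autoImplicit false

namespace Pool.Agent.Helper611.UF.Q

open MeasureTheory Set

/-- clusters only depend on the gauge on the component -/
theorem sat_transfer {W : Type} {Q : SimpleGraph W} {τ : W → W → Bool} {g g' : W → Bool} {y : W}
    (h : ∀ z, Q.Reachable y z → g z = g' z) {z : W} (hz : (Sat Q τ g').Reachable y z) :
    (Sat Q τ g).Reachable y z := by
  obtain ⟨p⟩ := hz
  induction p with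
  | nil => exact SimpleGraph.Reachable.refl _
  | @cons a b c hab p ih =>
    have h1 : Q.Reachable a b := hab.1.reachable
    have h2 : (Sat Q τ g).Adj a b := by
      refine ⟨hab.1, ?_, ?_⟩
      · rw [h a (SimpleGraph.Reachable.refl _), h b h1]
        exact hab.2.1
      · rw [h a (SimpleGraph.Reachable.refl _), h b h1]
        exact hab.2.2
    exact h2.reachable.trans (ih fun z hz => h z (h1.trans hz))

/-- the counting argument -/
theorem two_children {W Ω : Type} [Fintype Ω] [DecidableEq Ω] (N : Finset W) (M : ℕ)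
    (hM : Fintype.card Ω = M) (P P' : W → Ω → Prop) [∀ y ω, Decidable (P y ω)]
    [∀ y ω, Decidable (P' y ω)] (hdis : ∀ y z ω, P y ω → P z ω → y = z)
    (hcount : (N.card + 3) * M < 2 * ∑ y ∈ N, (Finset.univ.filter fun ω => P y ω ∨ P' y ω).card) :
    ∃ y ∈ N, ∃ z ∈ N, y ≠ z ∧ M < 2 * (Finset.univ.filter fun ω => P' y ω).card ∧
      M < 2 * (Finset.univ.filter fun ω => P' z ω).card := by
  classical
  by_contra hcon
  push Not at hcon
  have h1 : ∑ y ∈ N, (Finset.univ.filter fun ω => P y ω).card ≤ M := by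
    rw [← Finset.card_biUnion]
    · rw [← hM]
      exact Finset.card_le_univ _
    · intro y _ z _ hyz
      rw [Function.onFun, Finset.disjoint_left]
      intro ω h2 h3
      rw [Finset.mem_filter] at h2 h3
      exact hyz (hdis y z ω h2.2 h3.2)
  have hle : ∀ y, (Finset.univ.filter fun ω => P' y ω).card ≤ M := by
    intro y
    rw [← hM]
    exact Finset.card_le_univ _
  have h2 : 2 * ∑ y ∈ N, (Finset.univ.filter fun ω => P' y ω).card ≤ (N.card + 1) * M := by
    by_cases hex : ∃ y ∈ N, M < 2 * (Finset.univ.filter fun ω => P' y ω).card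
    · obtain ⟨y, hy, hyM⟩ := hex
      rw [← Finset.add_sum_erase N _ hy, mul_add, Finset.mul_sum]
      have h3 : ∑ z ∈ N.erase y, 2 * (Finset.univ.filter fun ω => P' z ω).card ≤
          ∑ _z ∈ N.erase y, M := by
        refine Finset.sum_le_sum fun z hz => ?_
        rw [Finset.mem_erase] at hz
        exact hcon y hy z hz.2 hz.1.symm hyM
      rw [Finset.sum_const, smul_eq_mul, Finset.card_erase_of_mem hy] at h3
      have h4 := hle y
      have h5 : 0 < N.card := Finset.card_pos.2 ⟨y, hy⟩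
      obtain ⟨m, hm⟩ : ∃ m, N.card = m + 1 := ⟨N.card - 1, by omega⟩
      rw [hm] at h3 ⊢
      simp only [Nat.add_sub_cancel] at h3
      nlinarith
    · push Not at hex
      rw [Finset.mul_sum]
      refine (Finset.sum_le_sum fun y hy => hex y hy).trans ?_
      rw [Finset.sum_const, smul_eq_mul]
      nlinarith
  have h3 : ∑ y ∈ N, (Finset.univ.filter fun ω => P y ω ∨ P' y ω).card ≤
      ∑ y ∈ N, (Finset.univ.filter fun ω => P y ω).card +
      ∑ y ∈ N, (Finset.univ.filter fun ω => P' y ω).card := by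
    rw [← Finset.sum_add_distrib]
    refine Finset.sum_le_sum fun y _ => ?_
    rw [Finset.filter_or]
    exact Finset.card_union_le _ _
  nlinarith

theorem measurable_gau {W : Type} [MeasurableSpace W] [StandardBorelSpace W]
    {Q : SimpleGraph W} {Δ : ℕ} (hQ : BG Q Δ) {N : W → Finset W} (hN : ∀ x y, y ∈ N x ↔ Q.Adj x y)
    {τ : W → W → Bool} (hτ : Measurable fun p : W × W => τ p.1 p.2) {k : ℕ} {κ : W → Fin k}
    (hκ : Measurable κ) (ω : Fin k → Bool × Bool) : Measurable (gau N τ κ ω) := by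
  classical
  have hv : Measurable (vote N τ κ ω) := by
    refine sum W Q Δ hQ N hN (fun x y => xi (τ x y) (ω (κ y))) ?_
    exact (Measurable.of_discrete (f := fun q : Bool × Fin k => xi q.1 (ω q.2))).comp
      (hτ.prodMk (hκ.comp measurable_snd))
  have h1 : Measurable fun x => (κ x, vote N τ κ ω x) := hκ.prodMk hv
  exact (Measurable.of_discrete (f := fun q : Fin k × ℤ => if (ω q.1).1 then
    if 0 < q.2 then false else if q.2 < 0 then true else (ω q.1).2 else (ω q.1).2)).comp h1

theorem main (hCOUNT : S_COUNT) (hTREE : S_TREE) (hRAY : S_RAY) : S_Q := by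
  classical
  intro W _ _ Q Δ hQ hac hdeg τ hτ hτs
  -- finite neighbourhoods
  have hfin : ∀ x, (Q.neighborSet x).Finite := fun x =>
    (Set.encard_le_coe_iff_finite_ncard_le.1 (hQ.deg x)).1
  obtain ⟨N, hN⟩ : ∃ N : W → Finset W, ∀ x y, y ∈ N x ↔ Q.Adj x y :=
    ⟨fun x => (hfin x).toFinset, fun x y => by rw [Set.Finite.mem_toFinset]; rfl⟩
  have hNcard : ∀ x, 1600 ≤ (N x).card := by
    intro x
    have h1 : Q.neighborSet x = ↑(N x) := by
      ext y
      rw [Finset.mem_coe, hN]
      rfl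
    have h2 := hdeg x
    rw [h1, Set.encard_coe_eq_coe_finsetCard] at h2
    exact_mod_cast h2
  obtain ⟨w, hw, -⟩ := enum W Q Δ hQ
  have hE : Equivalence Q.Reachable :=
    ⟨fun x => SimpleGraph.Reachable.refl x, fun h => h.symm, fun h h' => h.trans h'⟩
  obtain ⟨k, κ, hκm, hκ⟩ := col W Q Δ hQ 3
  have hτm : Measurable fun p : W × W => τ p.1 p.2 := measurable_to_bool hτ
  obtain ⟨gg, hgg⟩ : ∃ gg : (Fin k → Bool × Bool) → W → Bool, ∀ ω, gg ω = gau N τ κ ω :=
    ⟨_, fun _ => rfl⟩
  have hggm : ∀ ω, Measurable (gg ω) := fun ω => by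
    rw [hgg]
    exact measurable_gau hQ hN hτm hκm ω
  -- Borel satisfied graphs
  have hSm : ∀ g : W → Bool, Measurable g → Bor2 (Sat Q τ g).Adj := by
    intro g hg
    have h1 : {p : W × W | (Sat Q τ g).Adj p.1 p.2} = {p : W × W | Q.Adj p.1 p.2} ∩
        ((fun p : W × W => (g p.1, g p.2, τ p.1 p.2, τ p.2 p.1)) ⁻¹'
          {q : Bool × Bool × Bool × Bool | xor q.1 q.2.1 = q.2.2.1 ∧ xor q.2.1 q.1 = q.2.2.2}) := by
      ext p
      exact Iff.rfl
    unfold Bor2
    rw [h1]
    refine MeasurableSet.inter hQ.adj ?_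
    exact ((hg.comp measurable_fst).prodMk ((hg.comp measurable_snd).prodMk
      (hτm.prodMk (hτm.comp measurable_swap)))) (MeasurableSet.of_discrete)
  -- reachability in Borel subgraphs
  have hRm : ∀ H : SimpleGraph W, Bor2 H.Adj → (∀ x y, H.Adj x y → Q.Adj x y) →
      Bor2 H.Reachable := by
    intro H hH hHQ
    exact (reach W Q.Reachable w hE hw (W × W) (fun _ => H)
      ((measurable_snd : Measurable (Prod.snd : (W × W) × (W × W) → W × W)) hH)
      (fun _ x y h => (hHQ x y h).reachable) Prod.fst Prod.snd measurable_fst measurable_snd).1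
  have hSR : ∀ (g : W → Bool) x y, (Sat Q τ g).Reachable x y → Q.Reachable x y := by
    intro g x y h
    have h1 : Sat Q τ g ≤ Q := fun a b hab => hab.1
    exact SimpleGraph.Reachable.mono h1 h
  obtain ⟨Inf, hInf⟩ : ∃ Inf : (Fin k → Bool × Bool) → Set W, ∀ ω, Inf ω =
      {x | {z | (Sat Q τ (gg ω)).Reachable x z}.Infinite} := ⟨_, fun _ => rfl⟩
  have hInfm : ∀ ω, MeasurableSet (Inf ω) := by
    intro ω
    rw [hInf]
    exact inf W Q.Reachable w hw _ (hRm _ (hSm _ (hggm ω)) fun x y h => h.1)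
      (fun x y h => hSR _ x y h)
  obtain ⟨Gd, hGd⟩ : ∃ Gd : (Fin k → Bool × Bool) → Set W, ∀ ω, Gd ω =
      {x | ∃ y, Q.Reachable x y ∧ y ∈ Inf ω} := ⟨_, fun _ => rfl⟩
  have hGdm : ∀ ω, MeasurableSet (Gd ω) := by
    intro ω
    rw [hGd]
    exact (ex W Q.Reachable w hw W id measurable_id (fun _ y => y ∈ Inf ω)
      (measurable_snd (hInfm ω))).1
  have hGdi : ∀ ω x y, Q.Reachable x y → (x ∈ Gd ω ↔ y ∈ Gd ω) := by
    intro ω x y hxy
    rw [hGd]
    constructor
    · rintro ⟨z, hz, hi⟩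
      exact ⟨z, hxy.symm.trans hz, hi⟩
    · rintro ⟨z, hz, hi⟩
      exact ⟨z, hxy.trans hz, hi⟩
  obtain ⟨B, hB⟩ : ∃ B : Set W, B = ⋂ ω, (Gd ω)ᶜ := ⟨_, rfl⟩
  have hBm : MeasurableSet B := by
    rw [hB]
    exact MeasurableSet.iInter fun ω => (hGdm ω).compl
  have hBi : ∀ x y, Q.Reachable x y → (x ∈ B ↔ y ∈ B) := by
    intro x y hxy
    rw [hB]
    simp only [mem_iInter, mem_compl_iff]
    exact forall_congr' fun ω => not_congr (hGdi ω x y hxy)
  -- the trees on B
  obtain ⟨T, hT⟩ : ∃ T : (Fin k → Bool × Bool) → SimpleGraph W, ∀ ω x y, (T ω).Adj x y ↔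
      ((Sat Q τ (gg ω)).Adj x y ∧ x ∈ B ∧ y ∈ B) :=
    ⟨fun ω =>
      { Adj := fun x y => (Sat Q τ (gg ω)).Adj x y ∧ x ∈ B ∧ y ∈ B
        symm := ⟨fun x y h => ⟨h.1.symm, h.2.2, h.2.1⟩⟩
        loopless := ⟨fun x h => (Sat Q τ (gg ω)).loopless.irrefl _ h.1⟩ }, fun _ _ _ => Iff.rfl⟩
  have hTQ : ∀ ω, T ω ≤ Q := fun ω x y h => ((hT ω x y).1 h).1.1
  have hTS : ∀ ω, T ω ≤ Sat Q τ (gg ω) := fun ω x y h => ((hT ω x y).1 h).1
  have hTac : ∀ ω, (T ω).IsAcyclic := fun ω => hac.anti (hTQ ω)
  have hTm : ∀ ω, Bor2 (T ω).Adj := by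
    intro ω
    have h1 : {p : W × W | (T ω).Adj p.1 p.2} = {p : W × W | (Sat Q τ (gg ω)).Adj p.1 p.2} ∩
        (Prod.fst ⁻¹' B ∩ Prod.snd ⁻¹' B) := by
      ext p
      exact hT ω p.1 p.2
    unfold Bor2
    rw [h1]
    exact MeasurableSet.inter (hSm _ (hggm ω)) ((measurable_fst hBm).inter (measurable_snd hBm))
  have hTfin : ∀ ω x, {y | (T ω).Reachable x y}.Finite := by
    intro ω x
    by_cases hx : x ∈ B
    · have h1 : x ∉ Inf ω := by
        intro h
        rw [hB] at hx
        have h2 := mem_iInter.1 hx ω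
        apply h2
        rw [hGd]
        exact ⟨x, SimpleGraph.Reachable.refl _, h⟩
      rw [hInf, mem_ofPred_eq, Set.not_infinite] at h1
      exact h1.subset fun y hy => SimpleGraph.Reachable.mono (hTS ω) hy
    · refine (Set.finite_singleton x).subset ?_
      rintro y ⟨p⟩
      cases p with
      | nil => exact rfl
      | cons h p => exact absurd ((hT ω _ _).1 h).2.1 hx
  have hsel := fun ω => sel W Q.Reachable w hw (embeddingReal W) (measurable_embeddingReal W)
    (measurableEmbedding_embeddingReal W).injective (T ω).Reachable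
    (hRm _ (hTm ω) fun x y h => hTQ ω h) (fun x y h => SimpleGraph.Reachable.mono (hTQ ω) h)
    (hTfin ω)
  choose root hroot1 hroot2 _ using hsel
  have hrr : ∀ ω x, (T ω).Reachable x (root ω x) := fun ω x =>
    (hroot2 ω x ⟨x, SimpleGraph.Reachable.refl _⟩).1
  have hrc : ∀ ω x y, (T ω).Reachable x y → root ω x = root ω y := by
    intro ω x y hxy
    apply (measurableEmbedding_embeddingReal W).injective
    refine le_antisymm ?_ ?_
    · exact (hroot2 ω x ⟨x, SimpleGraph.Reachable.refl _⟩).2 _ (hxy.trans (hrr ω y))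
    · exact (hroot2 ω y ⟨y, SimpleGraph.Reachable.refl _⟩).2 _ (hxy.symm.trans (hrr ω x))
  have htree := fun ω => hTREE W (T ω) (hTac ω) (root ω) (hrr ω) (hrc ω)
  -- distances to the root
  have hdm : ∀ ω, Measurable fun x => (T ω).dist x (root ω x) := by
    intro ω
    refine measurable_of_Iic fun n => ?_
    have h1 := (reach W Q.Reachable w hE hw W (fun _ => T ω)
      ((measurable_snd : Measurable (Prod.snd : W × (W × W) → W × W)) (hTm ω))
      (fun _ x y h => (hTQ ω h).reachable) id (root ω) measurable_id (hroot1 ω)).2 n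
    have h2 : (fun x => (T ω).dist x (root ω x)) ⁻¹' Set.Iic n =
        {z | (T ω).Reachable (id z) (root ω z) ∧ (T ω).dist (id z) (root ω z) ≤ n} := by
      ext x
      simp only [mem_preimage, mem_Iic, mem_ofPred_eq, id]
      exact ⟨fun h => ⟨hrr ω x, h⟩, fun h => h.2⟩
    rw [h2]
    exact h1
  have hPm : ∀ ω, MeasurableSet {p : W × W | Par (T ω) (root ω) p.1 p.2} := by
    intro ω
    have h1 : {p : W × W | Par (T ω) (root ω) p.1 p.2} = {p : W × W | (T ω).Adj p.1 p.2} ∩
        {p : W × W | (T ω).dist p.1 (root ω p.1) < (T ω).dist p.2 (root ω p.2)} := by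
      ext p
      exact Iff.rfl
    rw [h1]
    exact MeasurableSet.inter (hTm ω) (measurableSet_lt ((hdm ω).comp measurable_fst)
      ((hdm ω).comp measurable_snd))
  have hcardΩ : Fintype.card (Fin k → Bool × Bool) = 4 ^ k := by
    simp [Fintype.card_pi, Fintype.card_prod]
  obtain ⟨Ch, hCh⟩ : ∃ Ch : W → W → Prop, ∀ x y, Ch x y ↔
      4 ^ k < 2 * (Finset.univ.filter fun ω => Par (T ω) (root ω) x y).card :=
    ⟨_, fun _ _ => Iff.rfl⟩
  have hChm : Bor2 Ch := by
    have h1 : Measurable fun p : W × W =>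
        2 * (Finset.univ.filter fun ω => Par (T ω) (root ω) p.1 p.2).card := by
      have h2 : (fun p : W × W =>
          2 * (Finset.univ.filter fun ω => Par (T ω) (root ω) p.1 p.2).card) =
          fun p : W × W => 2 * ∑ ω, if Par (T ω) (root ω) p.1 p.2 then 1 else 0 := by
        funext p
        rw [Finset.card_filter]
      rw [h2]
      exact (Finset.measurable_sum _ fun ω _ => Measurable.ite (hPm ω) measurable_const
        measurable_const).const_mul 2
    have h2 : {p : W × W | Ch p.1 p.2} = {p : W × W | 4 ^ k <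
        2 * (Finset.univ.filter fun ω => Par (T ω) (root ω) p.1 p.2).card} := by
      ext p
      exact hCh p.1 p.2
    unfold Bor2
    rw [h2]
    exact measurableSet_lt measurable_const h1
  have hChQ : ∀ x y, Ch x y → Q.Adj x y := by
    intro x y h
    rw [hCh] at h
    have h1 : 0 < (Finset.univ.filter fun ω => Par (T ω) (root ω) x y).card := by
      by_contra h2
      have h3 : (Finset.univ.filter fun ω => Par (T ω) (root ω) x y).card = 0 := by omega
      rw [h3] at h
      simp at h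
    obtain ⟨ω, hω⟩ := Finset.card_pos.1 h1
    exact hTQ ω (Finset.mem_filter.1 hω).2.1
  have hChu : ∀ x y z, x ∈ B → Ch y x → Ch z x → y = z := by
    intro x y z _ h1 h2
    rw [hCh] at h1 h2
    by_contra hne
    have h3 : Disjoint (Finset.univ.filter fun ω => Par (T ω) (root ω) y x)
        (Finset.univ.filter fun ω => Par (T ω) (root ω) z x) := by
      rw [Finset.disjoint_left]
      intro ω h4 h5
      exact hne ((htree ω).2 x y z (Finset.mem_filter.1 h4).2 (Finset.mem_filter.1 h5).2)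
    have h4 := Finset.card_union_of_disjoint h3
    have h5 : ((Finset.univ.filter fun ω => Par (T ω) (root ω) y x) ∪
        (Finset.univ.filter fun ω => Par (T ω) (root ω) z x)).card ≤ 4 ^ k := by
      rw [← hcardΩ]
      exact Finset.card_le_univ _
    omega
  have hCh2 : ∀ x ∈ B, ∃ y z, y ≠ z ∧ Ch x y ∧ Ch x z := by
    intro x hx
    have hc := hCOUNT W Q N k κ τ hN hac hτs hκ x (hNcard x)
    have hc2 : ((N x).card + 3) * 4 ^ k < 2 * ∑ y ∈ N x, (Finset.univ.filter fun ω =>
        Par (T ω) (root ω) y x ∨ Par (T ω) (root ω) x y).card := by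
      refine hc.trans_le ?_
      refine Nat.mul_le_mul le_rfl (Finset.sum_le_sum fun y hy => Finset.card_le_card ?_)
      intro ω hω
      rw [Finset.mem_filter] at hω ⊢
      refine ⟨Finset.mem_univ _, ?_⟩
      have hadj : Q.Adj x y := (hN x y).1 hy
      have hy' : y ∈ B := (hBi x y hadj.reachable).1 hx
      have h1 : (T ω).Adj x y := by
        rw [hT]
        refine ⟨⟨hadj, ?_, ?_⟩, hx, hy'⟩
        · rw [hgg]
          exact hω.2
        · rw [hgg, Bool.xor_comm, ← hτs]
          exact hω.2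
      exact ((htree ω).1 x y h1).symm
    obtain ⟨y, hy, z, hz, hyz, h1, h2⟩ := two_children (N x) (4 ^ k) hcardΩ
      (fun y ω => Par (T ω) (root ω) y x) (fun y ω => Par (T ω) (root ω) x y)
      (fun y z ω h1 h2 => (htree ω).2 x y z h1 h2) hc2
    exact ⟨y, z, hyz, (hCh _ _).2 h1, (hCh _ _).2 h2⟩
  obtain ⟨gB, hgB, hgB2⟩ := hRAY W Q Δ hQ τ hτ hτs B Ch hBm hChm hChQ
    (fun x y h hx => (hBi x y h.reachable).1 hx) hChu hCh2
  -- the other components
  obtain ⟨om, hom⟩ := exists_surjective_nat (Fin k → Bool × Bool)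
  obtain ⟨idx, hidx⟩ : ∃ idx : W → ℕ, ∀ x, idx x =
      if h : ∃ n, x ∈ Gd (om n) then Nat.find h else 0 := ⟨_, fun _ => rfl⟩
  have hidx1 : ∀ x, x ∉ B → x ∈ Gd (om (idx x)) := by
    intro x hx
    have h : ∃ n, x ∈ Gd (om n) := by
      rw [hB] at hx
      simp only [mem_iInter, mem_compl_iff, not_forall, not_not] at hx
      obtain ⟨ω, hω⟩ := hx
      obtain ⟨n, rfl⟩ := hom ω
      exact ⟨n, hω⟩
    rw [hidx, dif_pos h]
    exact Nat.find_spec h
  have hidx2 : ∀ x y, Q.Reachable x y → idx x = idx y := by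
    intro x y hxy
    rw [hidx, hidx]
    by_cases h : ∃ n, x ∈ Gd (om n)
    · have h' : ∃ n, y ∈ Gd (om n) := by
        obtain ⟨n, hn⟩ := h
        exact ⟨n, (hGdi _ x y hxy).1 hn⟩
      rw [dif_pos h, dif_pos h']
      refine Nat.find_congr' ?_
      intro n
      exact hGdi _ x y hxy
    · have h' : ¬ ∃ n, y ∈ Gd (om n) := by
        rintro ⟨n, hn⟩
        exact h ⟨n, (hGdi _ x y hxy).2 hn⟩
      rw [dif_neg h, dif_neg h']
  have hidxm : Measurable idx := by
    refine measurable_to_countable' fun n => ?_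
    have h1 : idx ⁻¹' {n} = (Gd (om n) ∩ ⋂ m ∈ Finset.range n, (Gd (om m))ᶜ) ∪
        ((⋂ m, (Gd (om m))ᶜ) ∩ {_x | 0 = n}) := by
      ext x
      simp only [mem_preimage, mem_singleton_iff, mem_union, mem_inter_iff, mem_iInter,
        mem_compl_iff, Finset.mem_range, mem_ofPred_eq]
      rw [hidx]
      by_cases h : ∃ n, x ∈ Gd (om n)
      · rw [dif_pos h, Nat.find_eq_iff]
        constructor
        · intro h2
          exact Or.inl ⟨h2.1, fun m hm => h2.2 m hm⟩
        · rintro (h2 | ⟨h2, -⟩)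
          · exact ⟨h2.1, fun m hm => h2.2 m hm⟩
          · obtain ⟨m, hm⟩ := h
            exact absurd hm (h2 m)
      · rw [dif_neg h]
        constructor
        · intro h2
          exact Or.inr ⟨fun m hm => h ⟨m, hm⟩, h2⟩
        · rintro (⟨h2, -⟩ | ⟨-, h2⟩)
          · exact absurd ⟨n, h2⟩ h
          · exact h2
    rw [h1]
    exact ((hGdm _).inter (Finset.measurableSet_biInter _ fun m _ => (hGdm _).compl)).union
      ((MeasurableSet.iInter fun m => (hGdm _).compl).inter (MeasurableSet.const _))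
  obtain ⟨g, hg⟩ : ∃ g : W → Bool, ∀ x, g x = if x ∈ B then gB x else gg (om (idx x)) x :=
    ⟨_, fun _ => rfl⟩
  have hgm : Measurable g := by
    have h1 : Measurable fun p : W × ℕ => gg (om p.2) p.1 :=
      measurable_from_prod_countable_left fun n => hggm (om n)
    have h2 : g = fun x => if x ∈ B then gB x else gg (om (idx x)) x := by
      funext x
      exact hg x
    rw [h2]
    exact Measurable.ite hBm hgB (h1.comp (measurable_id.prodMk hidxm))
  refine ⟨g, hgm, fun x => ?_⟩
  by_cases hx : x ∈ B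
  · obtain ⟨y, hxy, hy⟩ := hgB2 x hx
    refine ⟨y, hxy, hy.mono fun z hz => sat_transfer (fun u hu => ?_) hz⟩
    rw [hg, if_pos ((hBi x u (hxy.trans hu)).1 hx)]
  · have h1 := hidx1 x hx
    rw [hGd] at h1
    obtain ⟨y, hxy, hy⟩ := h1
    rw [hInf] at hy
    refine ⟨y, hxy, Set.Infinite.mono (fun z hz => sat_transfer (fun u hu => ?_) hz) hy⟩
    rw [hg, if_neg (fun h => hx ((hBi x u (hxy.trans hu)).2 h)), ← hidx2 x u (hxy.trans hu)]

end Pool.Agent.Helper611.UF.Q
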