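import Pool.Agent.Helper611.UF.Stm

/-!
# RAY: rays along a relation with unique parents and at least two children
-/

set_option autoImplicit false

namespace Pool.Agent.Helper611.UF.Ray

open MeasureTheory

/-- the levels of the rays -/
def Lev {W : Type} (B D : Set W) (pr : W → W) : ℕ → Set W
  | 0 => B \ D
  | n + 1 => D ∩ pr ⁻¹' (Lev B D pr n)

/-- the values of the gauge, level by level -/
def Gv {W : Type} (pr : W → W) (τ : W → W → Bool) : ℕ → W → Bool
  | 0 => fun _ => false
  | n + 1 => fun z => xor (Gv pr τ n (pr z)) (τ (pr z) z)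

theorem lev_disj {W : Type} {B D : Set W} {pr : W → W} : ∀ {m n : ℕ} {z : W},
    z ∈ Lev B D pr m → z ∈ Lev B D pr n → m = n
  | 0, 0, _, _, _ => rfl
  | 0, _ + 1, _, h, h' => absurd h'.1 h.2
  | _ + 1, 0, _, h, h' => absurd h.1 h'.2
  | _ + 1, _ + 1, _, h, h' => congrArg (· + 1) (lev_disj h.2 h'.2)

theorem meas_lev {W : Type} [MeasurableSpace W] {B D : Set W} {pr : W → W} (hB : MeasurableSet B)
    (hD : MeasurableSet D) (hp : Measurable pr) : ∀ n, MeasurableSet (Lev B D pr n)
  | 0 => hB.diff hD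
  | n + 1 => hD.inter (hp (meas_lev hB hD hp n))

theorem meas_Gv {W : Type} [MeasurableSpace W] {pr : W → W} {τ : W → W → Bool}
    (hp : Measurable pr) (hτ : Measurable fun p : W × W => τ p.1 p.2) :
    ∀ n, Measurable (Gv pr τ n)
  | 0 => measurable_const
  | n + 1 => by
    have h1 : Measurable fun z => (Gv pr τ n (pr z), τ (pr z) z) :=
      ((meas_Gv hp hτ n).comp hp).prodMk (hτ.comp (hp.prodMk measurable_id))
    have h2 : Measurable fun b : Bool × Bool => xor b.1 b.2 := Measurable.of_discrete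
    exact h2.comp h1

theorem main (hENUM : S_ENUM) (hEX : S_EX) (hSEL : S_SEL) : S_RAY := by
  intro W _ _ Q Δ hQ τ hτ hτs B Ch hB hCh hChQ hBQ hpar hchild
  classical
  obtain ⟨w, hw, -⟩ := hENUM W Q Δ hQ
  have hr := MeasureTheory.measurableEmbedding_embeddingReal W
  -- the least child
  obtain ⟨h, hh, hh1, -⟩ := hSEL W Q.Reachable w hw (embeddingReal W) hr.measurable hr.injective
    (fun x y => x ∈ B ∧ Ch x y) ((measurable_fst hB).inter hCh)
    (fun x y hxy => (hChQ x y hxy.2).reachable) (fun x => by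
      have h1 : (Q.neighborSet x).Finite := Set.finite_of_encard_le_coe (hQ.deg x)
      exact h1.subset fun y hy => hChQ x y hy.2)
  have hhB : ∀ x ∈ B, Ch x (h x) := by
    intro x hx
    obtain ⟨y, z, _, hy, _⟩ := hchild x hx
    exact (hh1 x ⟨y, hx, hy⟩).1.2
  have hhmem : ∀ x ∈ B, h x ∈ B := fun x hx => hBQ x (h x) (hChQ x _ (hhB x hx)) hx
  have hinj : ∀ x ∈ B, ∀ y ∈ B, h x = h y → x = y := by
    intro x hx y hy he
    have h1 := hhB x hx
    have h2 := hhB y hy
    rw [← he] at h2
    exact hpar (h x) x y (hhmem x hx) h1 h2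
  -- the predecessor
  have hP2 : Bor2 (fun z x : W => x ∈ B ∧ h x = z) := by
    refine (measurable_snd hB).inter ?_
    have e : {p : W × W | h p.2 = p.1} =
        {p : W × W | embeddingReal W (h p.2) = embeddingReal W p.1} := by
      ext p
      exact ⟨fun hp => congrArg _ hp, fun hp => hr.injective hp⟩
    show MeasurableSet {p : W × W | h p.2 = p.1}
    rw [e]
    exact measurableSet_eq_fun (hr.measurable.comp (hh.comp measurable_snd))
      (hr.measurable.comp measurable_fst)
  have hP2adj : ∀ z x : W, (x ∈ B ∧ h x = z) → Q.Adj z x := by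
    rintro z x ⟨hx, rfl⟩
    exact (hChQ x _ (hhB x hx)).symm
  obtain ⟨pr, hpr, hpr1, -⟩ := hSEL W Q.Reachable w hw (embeddingReal W) hr.measurable
    hr.injective (fun z x => x ∈ B ∧ h x = z) hP2 (fun z x hzx => (hP2adj z x hzx).reachable)
    (fun z => by
      have h1 : (Q.neighborSet z).Finite := Set.finite_of_encard_le_coe (hQ.deg z)
      exact h1.subset fun x hx => hP2adj z x hx)
  have hprh : ∀ x ∈ B, pr (h x) = x := by
    intro x hx
    obtain ⟨h1, h2⟩ := (hpr1 (h x) ⟨x, hx, rfl⟩).1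
    exact hinj _ h1 _ hx h2
  let D : Set W := {z | ∃ x, x ∈ B ∧ h x = z}
  have hD : MeasurableSet D := by
    have h1 := (hEX W Q.Reachable w hw W id measurable_id (fun z x => x ∈ B ∧ h x = z) hP2).1
    have e : D = {z | ∃ y, Q.Reachable (id z) y ∧ (y ∈ B ∧ h y = z)} := by
      ext z
      constructor
      · rintro ⟨x, hx⟩
        exact ⟨x, (hP2adj z x hx).reachable, hx⟩
      · rintro ⟨x, _, hx⟩
        exact ⟨x, hx⟩
    rw [e]
    exact h1
  have hτm : Measurable fun p : W × W => τ p.1 p.2 := measurable_to_bool hτ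
  let g : W → Bool := fun z => decide (∃ n, z ∈ Lev B D pr n ∧ Gv pr τ n z = true)
  have hg : ∀ n z, z ∈ Lev B D pr n → g z = Gv pr τ n z := by
    intro n z hz
    rw [Bool.eq_iff_iff, decide_eq_true_iff]
    constructor
    · rintro ⟨m, hm, hm'⟩
      rwa [lev_disj hz hm]
    · intro hz'
      exact ⟨n, hz, hz'⟩
  have hgm : Measurable g := by
    apply measurable_to_bool
    have e : g ⁻¹' {true} = ⋃ n, (Lev B D pr n ∩ Gv pr τ n ⁻¹' {true}) := by
      ext z
      simp only [Set.mem_preimage, Set.mem_singleton_iff, Set.mem_iUnion, Set.mem_inter_iff]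
      exact decide_eq_true_iff
    rw [e]
    exact MeasurableSet.iUnion fun n => (meas_lev hB hD hpr n).inter
      (meas_Gv hpr hτm n (measurableSet_singleton _))
  refine ⟨g, hgm, ?_⟩
  -- iterates
  have hit : ∀ r ∈ B, ∀ n, h^[n] r ∈ B := by
    intro r hr' n
    induction n with
    | zero => exact hr'
    | succ n ih => rw [Function.iterate_succ_apply']; exact hhmem _ ih
  have hlev : ∀ r ∈ B \ D, ∀ n, h^[n] r ∈ Lev B D pr n := by
    intro r hr' n
    induction n with
    | zero => exact hr'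
    | succ n ih =>
      rw [Function.iterate_succ_apply']
      refine ⟨⟨_, hit r hr'.1 n, rfl⟩, ?_⟩
      show pr (h (h^[n] r)) ∈ Lev B D pr n
      rw [hprh _ (hit r hr'.1 n)]
      exact ih
  have hsat : ∀ r ∈ B \ D, ∀ n, (Sat Q τ g).Adj (h^[n] r) (h^[n + 1] r) := by
    intro r hr' n
    have h1 := hit r hr'.1 n
    have e1 : h^[n + 1] r = h (h^[n] r) := Function.iterate_succ_apply' h n r
    have h2 := hg (n + 1) _ (hlev r hr' (n + 1))
    have h3 := hg n _ (hlev r hr' n)
    have h4 : Gv pr τ (n + 1) (h^[n + 1] r) =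
        xor (Gv pr τ n (h^[n] r)) (τ (h^[n] r) (h^[n + 1] r)) := by
      show xor (Gv pr τ n (pr (h^[n + 1] r))) (τ (pr (h^[n + 1] r)) (h^[n + 1] r)) = _
      rw [e1, hprh _ h1]
    rw [h4, ← h3] at h2
    have h5 : xor (g (h^[n] r)) (g (h^[n + 1] r)) = τ (h^[n] r) (h^[n + 1] r) := by
      rw [h2]
      cases g (h^[n] r) <;> cases τ (h^[n] r) (h^[n + 1] r) <;> rfl
    refine ⟨?_, h5, ?_⟩
    · rw [e1]
      exact hChQ _ _ (hhB _ h1)
    · rw [Bool.xor_comm, h5, hτs]
  have hreach : ∀ r ∈ B \ D, ∀ n, (Sat Q τ g).Reachable r (h^[n] r) := by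
    intro r hr' n
    induction n with
    | zero => exact SimpleGraph.Reachable.refl _
    | succ n ih => exact ih.trans (hsat r hr' n).reachable
  have hitinj : ∀ r ∈ B \ D, Function.Injective fun n => h^[n] r := by
    intro r hr' m n hmn
    have h1 := hlev r hr' m
    have h2 := hlev r hr' n
    simp only at hmn
    rw [hmn] at h1
    exact lev_disj h1 h2
  intro x hx
  obtain ⟨y, z, hyz, hy, hz⟩ := hchild x hx
  have key : ∀ u, Ch x u → u ≠ h x → Q.Reachable x u ∧
      {v | (Sat Q τ g).Reachable u v}.Infinite := by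
    intro u hu hne
    have huB : u ∈ B := hBQ x u (hChQ x u hu) hx
    have huD : u ∉ D := by
      rintro ⟨v, hv, hvu⟩
      have h1 := hhB v hv
      rw [hvu] at h1
      have h2 := hpar u v x huB h1 hu
      exact hne (by rw [← hvu, h2])
    refine ⟨(hChQ x u hu).reachable, ?_⟩
    exact Set.infinite_of_injective_forall_mem (hitinj u ⟨huB, huD⟩) (hreach u ⟨huB, huD⟩)
  by_cases hyh : y = h x
  · obtain ⟨h1, h2⟩ := key z hz fun hzh => hyz (hyh.trans hzh.symm)
    exact ⟨z, h1, h2⟩
  · obtain ⟨h1, h2⟩ := key y hy hyh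
    exact ⟨y, h1, h2⟩

end Pool.Agent.Helper611.UF.Ray
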