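import Pool.Agent.Helper611.UF.Tool2

/-!
# Project UF: toolkit, part 3: COL, MIS, SUM
-/

set_option autoImplicit false

namespace Pool.Agent.Helper611.UF

open MeasureTheory Set

/-- Countably many Borel sets that separate points from finite sets. -/
theorem exists_sepfam (X : Type) [MeasurableSpace X] [StandardBorelSpace X] :
    ∃ B : ℕ → Set X, (∀ n, MeasurableSet (B n)) ∧
      ∀ (v : X) (F : Set X), F.Finite → v ∉ F → ∃ n, v ∈ B n ∧ ∀ w ∈ F, w ∉ B n := by
  obtain ⟨q, hq⟩ := exists_surjective_nat (ℚ × ℚ)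
  refine ⟨fun n => (embeddingReal X) ⁻¹' Set.Ioo ((q n).1 : ℝ) ((q n).2 : ℝ), fun n =>
    (measurableEmbedding_embeddingReal X).measurable measurableSet_Ioo, ?_⟩
  intro v F hF hv
  have h1 : IsOpen ((embeddingReal X '' F)ᶜ) := (hF.image _).isClosed.isOpen_compl
  have h2 : embeddingReal X v ∈ (embeddingReal X '' F)ᶜ := by
    rintro ⟨w, hw, h⟩
    exact hv ((measurableEmbedding_embeddingReal X).injective h ▸ hw)
  obtain ⟨s, hs, hvs, hsub⟩ := Real.isTopologicalBasis_Ioo_rat.exists_subset_of_mem_open h2 h1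
  simp only [Set.mem_iUnion, Set.mem_singleton_iff] at hs
  obtain ⟨a, b, -, rfl⟩ := hs
  obtain ⟨n, hn⟩ := hq (a, b)
  refine ⟨n, ?_, fun w hw hw' => ?_⟩
  · rw [Set.mem_preimage, hn]; exact hvs
  · rw [Set.mem_preimage, hn] at hw'
    exact hsub hw' ⟨w, hw, rfl⟩

/-- a natural number outside a finite set, at most its cardinality -/
theorem exists_ch (S : Finset ℕ) : ∃ j, j ∉ S ∧ j ≤ S.card := by
  have h : S.card < (Finset.range (S.card + 1)).card := by simp
  obtain ⟨j, hj, hjS⟩ := Finset.exists_mem_notMem_of_card_lt_card h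
  exact ⟨j, hjS, by rw [Finset.mem_range] at hj; omega⟩

noncomputable def ch (S : Finset ℕ) : ℕ := (exists_ch S).choose

theorem ch_notMem (S : Finset ℕ) : ch S ∉ S := (exists_ch S).choose_spec.1

theorem ch_le (S : Finset ℕ) : ch S ≤ S.card := (exists_ch S).choose_spec.2

/-- the greedy colour computed from the data at the neighbours -/
noncomputable def nxt {M : ℕ} (m : ℕ) (d : Fin M → ℕ × ℕ) : ℕ :=
  ch ((Finset.univ.filter fun e => (d e).2 < m).image fun e => (d e).1)

/-- the greedy colouring -/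
noncomputable def KK {M : ℕ} {X : Type} (f : Fin M → X → X) (c : X → ℕ) : ℕ → X → ℕ
  | 0 => fun _ => 0
  | m + 1 => fun x =>
      if c x = m then nxt m (fun e => (KK f c m (f e x), c (f e x))) else KK f c m x

theorem nxt_le {M : ℕ} (m : ℕ) (d : Fin M → ℕ × ℕ) : nxt m d ≤ M := by
  refine (ch_le _).trans ?_
  refine Finset.card_image_le.trans ?_
  refine (Finset.card_filter_le _ _).trans ?_
  simp

theorem KK_le {M : ℕ} {X : Type} (f : Fin M → X → X) (c : X → ℕ) (m : ℕ) (x : X) :
    KK f c m x ≤ M := by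
  induction m with
  | zero => simp [KK]
  | succ m ih =>
    simp only [KK]
    split_ifs
    · exact nxt_le _ _
    · exact ih

theorem KK_stable {M : ℕ} {X : Type} (f : Fin M → X → X) (c : X → ℕ) (x : X) (m : ℕ)
    (h : c x < m) : KK f c m x = KK f c (c x + 1) x := by
  induction m, (show c x + 1 ≤ m from h) using Nat.le_induction with
  | base => rfl
  | succ m hm ih =>
    rw [← ih (by omega)]
    conv_lhs => unfold KK
    rw [if_neg (by omega)]

theorem KK_meas {M : ℕ} {X : Type} [MeasurableSpace X] (f : Fin M → X → X)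
    (hf : ∀ e, Measurable (f e)) (c : X → ℕ) (hc : Measurable c) (m : ℕ) :
    Measurable (KK f c m) := by
  induction m with
  | zero => exact measurable_const
  | succ m ih =>
    have hd : Measurable fun x : X => (fun e : Fin M => (KK f c m (f e x), c (f e x))) :=
      measurable_pi_lambda _ fun e => (ih.comp (hf e)).prodMk (hc.comp (hf e))
    have h1 : Measurable (nxt (M := M) m) := Measurable.of_discrete
    exact Measurable.ite (hc (measurableSet_singleton m)) (h1.comp hd) ih

theorem KK_proper {M : ℕ} {X : Type} (f : Fin M → X → X) (c : X → ℕ) (x : X) (e : Fin M)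
    (h : c (f e x) < c x) : KK f c (c x + 1) x ≠ KK f c (c (f e x) + 1) (f e x) := by
  intro h1
  have h2 : KK f c (c x + 1) x = nxt (c x) (fun e => (KK f c (c x) (f e x), c (f e x))) := by
    conv_lhs => unfold KK
    rw [if_pos rfl]
  rw [← KK_stable f c (f e x) (c x) h, h2] at h1
  refine ch_notMem ((Finset.univ.filter fun e' : Fin M =>
    c (f e' x) < c x).image fun e' => KK f c (c x) (f e' x)) ?_
  unfold nxt at h1
  simp only at h1
  rw [h1]
  exact Finset.mem_image.2 ⟨e, Finset.mem_filter.2 ⟨Finset.mem_univ _, h⟩, rfl⟩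

/-- greedy colouring of the graph of finitely many Borel functions -/
theorem greedy {X : Type} [MeasurableSpace X] [StandardBorelSpace X] {M : ℕ} (f : Fin M → X → X)
    (hf : ∀ e, Measurable (f e)) (hs : ∀ x e, ∃ e', f e' (f e x) = x) :
    ∃ κ : X → Fin (M + 1), Measurable κ ∧ ∀ x e, f e x ≠ x → κ (f e x) ≠ κ x := by
  classical
  obtain ⟨B, hBm, hB⟩ := exists_sepfam X
  have hex : ∀ x : X, ∃ i, x ∈ B i ∧ ∀ e, f e x ≠ x → f e x ∉ B i := by
    intro x
    obtain ⟨i, hi1, hi2⟩ := hB x (Set.range (fun e => f e x) \ {x})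
      ((Set.finite_range _).subset Set.sdiff_subset) (by
        rintro ⟨-, h⟩
        exact h rfl)
    exact ⟨i, hi1, fun e he => hi2 _ ⟨⟨e, rfl⟩, he⟩⟩
  have hm : ∀ i, MeasurableSet {x : X | x ∈ B i ∧ ∀ e, f e x ≠ x → f e x ∉ B i} := by
    intro i
    have : {x : X | x ∈ B i ∧ ∀ e, f e x ≠ x → f e x ∉ B i} =
        B i ∩ ⋂ e, ({x | f e x = x} ∪ ((f e) ⁻¹' B i)ᶜ) := by
      ext x
      simp only [Set.mem_ofPred_eq, Set.mem_inter_iff, Set.mem_iInter, Set.mem_compl_iff,
        Set.mem_preimage, Set.mem_union]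
      refine and_congr_right fun _ => forall_congr' fun e => ?_
      tauto
    rw [this]
    exact (hBm i).inter (MeasurableSet.iInter fun e =>
      (measurableSet_eq' (hf e) measurable_id).union ((hf e) (hBm i)).compl)
  obtain ⟨c, hc⟩ : ∃ c : X → ℕ, c = fun x => Nat.find (hex x) := ⟨_, rfl⟩
  have hcm : Measurable c := by
    rw [hc]
    exact measurable_find hex hm
  have hcp : ∀ x e, f e x ≠ x → c (f e x) ≠ c x := by
    intro x e he h
    have h1 := Nat.find_spec (hex x)
    have h2 := Nat.find_spec (hex (f e x))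
    have h3 : Nat.find (hex (f e x)) = Nat.find (hex x) := by
      rw [hc] at h
      exact h
    rw [h3] at h2
    exact h1.2 e he h2.1
  obtain ⟨κ, hκ⟩ : ∃ κ : X → ℕ, κ = fun x => KK f c (c x + 1) x := ⟨_, rfl⟩
  have hκm : Measurable κ := by
    have h1 : Measurable fun p : X × ℕ => KK f c (p.2 + 1) p.1 :=
      measurable_from_prod_countable_left fun m => KK_meas f hf c hcm (m + 1)
    rw [hκ]
    exact h1.comp (measurable_id.prodMk hcm)
  have hκp : ∀ x e, f e x ≠ x → κ (f e x) ≠ κ x := by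
    intro x e he h
    rw [hκ] at h
    simp only at h
    rcases lt_or_gt_of_ne (hcp x e he) with h1 | h1
    · exact KK_proper f c x e h1 h.symm
    · obtain ⟨e', he'⟩ := hs x e
      have := KK_proper f c (f e x) e' (by rw [he']; exact h1)
      rw [he'] at this
      exact this h
  have hκle : ∀ x, κ x < M + 1 := by
    intro x
    rw [hκ]
    exact Nat.lt_succ_of_le (KK_le f c _ x)
  refine ⟨fun x => ⟨κ x, hκle x⟩, ?_, ?_⟩
  · refine measurable_to_countable' fun i => ?_
    have : (fun x => (⟨κ x, hκle x⟩ : Fin (M + 1))) ⁻¹' {i} = κ ⁻¹' {(i : ℕ)} := by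
      ext x
      simp only [Set.mem_preimage, Set.mem_singleton_iff, Fin.ext_iff]
    rw [this]
    exact hκm (measurableSet_singleton _)
  · intro x e he heq
    exact hκp x e he (Fin.ext_iff.1 heq)

theorem col : S_COL := by
  classical
  intro V _ _ G Δ hG n
  obtain ⟨g, hg1, hg2, hg3⟩ := exists_nb hG
  have hfin : {l : List (Fin Δ) | l.length ≤ n}.Finite := List.finite_length_le _ _
  obtain ⟨M, ⟨e⟩⟩ := Finite.exists_equiv_fin (hfin.toFinset)
  have hlen : ∀ i : Fin M, (e.symm i).1.length ≤ n := by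
    intro i
    have := (e.symm i).2
    rw [Set.Finite.mem_toFinset] at this
    exact this
  have hcov : ∀ x y, G.Reachable x y → G.dist x y ≤ n → ∃ i : Fin M, wd g (e.symm i).1 x = y := by
    intro x y hr hd
    obtain ⟨p, hp⟩ := hr.exists_walk_length_eq_dist
    obtain ⟨l, hl1, hl2⟩ := exists_wd hg2 p
    have hl : l ∈ hfin.toFinset := by
      rw [Set.Finite.mem_toFinset, mem_ofPred_eq, hl1, hp]
      exact hd
    refine ⟨e ⟨l, hl⟩, ?_⟩
    rw [Equiv.symm_apply_apply]
    exact hl2
  obtain ⟨κ, hκ1, hκ2⟩ := greedy (fun i : Fin M => wd g (e.symm i).1) (fun i => wd_meas hg1 _) (by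
    intro x i
    obtain ⟨p, hp⟩ := exists_walk_wd hg3 (e.symm i).1 x
    refine hcov _ _ ⟨p.reverse⟩ ?_
    refine (SimpleGraph.dist_le p.reverse).trans ?_
    rw [SimpleGraph.Walk.length_reverse]
    exact hp.trans (hlen i))
  refine ⟨M + 1, κ, hκ1, fun x y hne hr hd h => ?_⟩
  obtain ⟨i, hi⟩ := hcov x y hr hd
  refine hκ2 x i ?_ ?_
  · rw [hi]
    exact hne.symm
  · rw [hi]
    exact h.symm

/-- the greedy discrete sets -/
def ZZ {V : Type} (L : Set V) (D : V → V → Prop) {k : ℕ} (κ : V → Fin k) : ℕ → Set V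
  | 0 => ∅
  | j + 1 => ZZ L D κ j ∪ {x | x ∈ L ∧ (κ x : ℕ) = j ∧ ∀ z, D x z → z ∉ ZZ L D κ j}

theorem mis : S_MIS := by
  classical
  intro V _ _ G Δ hG n L hL
  obtain ⟨w, hw, -⟩ := enum V G Δ hG
  obtain ⟨k, κ, hκ1, hκ2⟩ := col V G Δ hG n
  obtain ⟨D, hD⟩ : ∃ D : V → V → Prop, ∀ x y, D x y ↔ (G.Reachable x y ∧ G.dist x y ≤ n) :=
    ⟨_, fun _ _ => Iff.rfl⟩
  have hDs : ∀ x y, D x y → D y x := by
    intro x y h
    rw [hD] at h ⊢
    exact ⟨h.1.symm, by rw [SimpleGraph.dist_comm]; exact h.2⟩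
  have hDm : MeasurableSet {p : V × V | D p.1 p.2} := by
    have h1 := (reach V G.Reachable w ⟨fun x => SimpleGraph.Reachable.refl x,
      fun h => h.symm, fun h h' => h.trans h'⟩ hw (V × V) (fun _ => G)
      ((measurable_snd : Measurable (Prod.snd : (V × V) × (V × V) → V × V)) hG.adj)
      (fun _ x y h => h.reachable) Prod.fst Prod.snd measurable_fst measurable_snd).2 n
    have h2 : {p : V × V | D p.1 p.2} = {z : V × V | G.Reachable z.1 z.2 ∧ G.dist z.1 z.2 ≤ n} := by
      ext p
      exact hD _ _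
    rw [h2]
    exact h1
  have hκm : ∀ j : ℕ, MeasurableSet {x | (κ x : ℕ) = j} := by
    intro j
    have h1 : Measurable fun x => (κ x : ℕ) := (Measurable.of_discrete (f := fun i : Fin k =>
      (i : ℕ))).comp hκ1
    exact h1 (measurableSet_singleton j)
  have hm : ∀ j, MeasurableSet (ZZ L D κ j) := by
    intro j
    induction j with
    | zero => exact MeasurableSet.empty
    | succ j ih =>
      have h1 : ZZ L D κ (j + 1) = ZZ L D κ j ∪ (L ∩ {x | (κ x : ℕ) = j} ∩
          {x | ∀ z, G.Reachable x z → (D x z → z ∉ ZZ L D κ j)}) := by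
        ext x
        simp only [ZZ, mem_union, mem_inter_iff, mem_ofPred_eq]
        refine or_congr_right ?_
        constructor
        · rintro ⟨h1, h2, h3⟩
          exact ⟨⟨h1, h2⟩, fun z _ h4 => h3 z h4⟩
        · rintro ⟨⟨h1, h2⟩, h3⟩
          exact ⟨h1, h2, fun z h4 => h3 z ((hD _ _).1 h4).1 h4⟩
      rw [h1]
      refine ih.union ((hL.inter (hκm j)).inter ?_)
      refine (ex V G.Reachable w hw V id measurable_id
        (fun x z => D x z → z ∉ ZZ L D κ j) ?_).2
      have h2 : {p : V × V | D p.1 p.2 → p.2 ∉ ZZ L D κ j} =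
          {p : V × V | D p.1 p.2}ᶜ ∪ Prod.snd ⁻¹' (ZZ L D κ j)ᶜ := by
        ext p
        simp only [mem_ofPred_eq, mem_union, mem_compl_iff, mem_preimage]
        tauto
      rw [h2]
      exact hDm.compl.union (measurable_snd ih.compl)
  have hmono : ∀ i j, i ≤ j → ZZ L D κ i ⊆ ZZ L D κ j := by
    intro i j h
    induction j, h using Nat.le_induction with
    | base => exact subset_rfl
    | succ j hij ih => exact ih.trans subset_union_left
  have hZL : ∀ j, ∀ x ∈ ZZ L D κ j, x ∈ L := by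
    intro j
    induction j with
    | zero => exact fun x hx => hx.elim
    | succ j ih =>
      rintro x (hx | hx)
      · exact ih x hx
      · exact hx.1
  have hst : ∀ j, ∀ x ∈ ZZ L D κ j, (κ x : ℕ) < j ∧ x ∈ ZZ L D κ ((κ x : ℕ) + 1) ∧
      ∀ z, D x z → z ∉ ZZ L D κ (κ x : ℕ) := by
    intro j
    induction j with
    | zero => exact fun x hx => hx.elim
    | succ j ih =>
      rintro x (hx | hx)
      · obtain ⟨h1, h2, h3⟩ := ih x hx
        exact ⟨by omega, h2, h3⟩
      · obtain ⟨h1, h2, h3⟩ := hx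
        refine ⟨by omega, ?_, ?_⟩
        · rw [h2]
          exact Or.inr ⟨h1, h2, h3⟩
        · rw [h2]
          exact h3
  refine ⟨ZZ L D κ k, fun x hx => hZL k x hx, hm k, ?_, ?_⟩
  · intro x hx y hy hne hr
    by_contra hlt
    have hd : G.dist x y ≤ n := not_lt.1 hlt
    have hne2 := hκ2 x y hne hr hd
    have hDxy : D x y := (hD _ _).2 ⟨hr, hd⟩
    obtain ⟨-, h2, h3⟩ := hst k x hx
    obtain ⟨-, h2', h3'⟩ := hst k y hy
    rcases lt_trichotomy (κ x : ℕ) (κ y : ℕ) with h | h | h
    · exact h3' x (hDs _ _ hDxy) (hmono _ _ h h2)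
    · exact hne2 (Fin.ext h)
    · exact h3 y hDxy (hmono _ _ h h2')
  · intro x hx
    by_cases h : ∀ z, D x z → z ∉ ZZ L D κ (κ x : ℕ)
    · refine ⟨x, hmono ((κ x : ℕ) + 1) k (κ x).2 (Or.inr ⟨hx, rfl, h⟩),
        SimpleGraph.Reachable.refl _, by simp⟩
    · push Not at h
      obtain ⟨z, hz1, hz2⟩ := h
      refine ⟨z, hmono _ k (κ x).2.le hz2, ((hD _ _).1 hz1).1, ((hD _ _).1 hz1).2⟩

theorem sum : S_SUM := by
  classical
  intro V _ _ G Δ hG N hN f hf
  obtain ⟨g, hg1, hg2, hg3⟩ := exists_nb hG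
  obtain ⟨C, hC⟩ : ∃ C : Fin Δ → V → Prop, ∀ i x, C i x ↔
      (g i x ≠ x ∧ ∀ j < i, g j x ≠ g i x) := ⟨_, fun _ _ => Iff.rfl⟩
  have hCm : ∀ i, MeasurableSet {x | C i x} := by
    intro i
    have h1 : {x | C i x} = {x | g i x = x}ᶜ ∩ ⋂ j ∈ Finset.univ.filter (fun j => j < i),
        {x | g j x = g i x}ᶜ := by
      ext x
      simp only [mem_ofPred_eq, mem_inter_iff, mem_iInter, mem_compl_iff, Finset.mem_filter,
        Finset.mem_univ, true_and]
      exact hC i x
    rw [h1]
    exact (measurableSet_eq' (hg1 i) measurable_id).compl.inter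
      (Finset.measurableSet_biInter _ fun j _ => (measurableSet_eq' (hg1 j) (hg1 i)).compl)
  have h1 : (fun x => ∑ y ∈ N x, f x y) =
      fun x => ∑ i : Fin Δ, if C i x then f x (g i x) else 0 := by
    funext x
    rw [← Finset.sum_filter]
    symm
    refine Finset.sum_bij (fun i _ => g i x) ?_ ?_ ?_ ?_
    · intro i hi
      rw [Finset.mem_filter, hC] at hi
      exact (hN _ _).2 ((hg3 i x).resolve_left hi.2.1)
    · intro i hi j hj hij
      rw [Finset.mem_filter, hC] at hi hj
      rcases lt_trichotomy i j with h | h | h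
      · exact absurd hij (hj.2.2 i h)
      · exact h
      · exact absurd hij.symm (hi.2.2 j h)
    · intro y hy
      have hadj := (hN _ _).1 hy
      have hne : (Finset.univ.filter fun i => g i x = y).Nonempty := by
        obtain ⟨i, hi⟩ := hg2 x y hadj
        exact ⟨i, Finset.mem_filter.2 ⟨Finset.mem_univ _, hi⟩⟩
      have hmem := Finset.min'_mem _ hne
      rw [Finset.mem_filter] at hmem
      refine ⟨(Finset.univ.filter fun i => g i x = y).min' hne, ?_, hmem.2⟩
      rw [Finset.mem_filter, hC]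
      refine ⟨Finset.mem_univ _, ?_, ?_⟩
      · rw [hmem.2]
        exact hadj.ne'
      · intro j hj hjx
        rw [hmem.2] at hjx
        have := Finset.min'_le (Finset.univ.filter fun i => g i x = y) j
          (Finset.mem_filter.2 ⟨Finset.mem_univ _, hjx⟩)
        exact absurd hj (not_lt.2 this)
    · intro i _
      rfl
  rw [h1]
  refine Finset.measurable_sum _ fun i _ => ?_
  exact Measurable.ite (hCm i) (hf.comp (measurable_id.prodMk (hg1 i))) measurable_const

end Pool.Agent.Helper611.UF
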