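import Pool.Agent.Helper611.UF.Stm

/-!
# TREE: parents in rooted trees
-/

set_option autoImplicit false

namespace Pool.Agent.Helper611.UF.Tree

variable {W : Type} {T : SimpleGraph W}

theorem len_eq (hT : T.IsAcyclic) {x r : W} {p q : T.Walk x r} (hp : p.IsPath) (hq : q.IsPath) :
    p.length = q.length := by
  have h := (SimpleGraph.isAcyclic_iff_subsingleton_path.1 hT x r).elim ⟨p, hp⟩ ⟨q, hq⟩
  have h' : p = q := congrArg Subtype.val h
  rw [h']

theorem dist_le_of_mem {x y r : W} (p : T.Walk x r) (hy : y ∈ p.support) :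
    T.dist y r ≤ p.length ∧ (y ≠ x → T.dist y r < p.length) := by
  classical
  have h1 := SimpleGraph.dist_le (p.dropUntil y hy)
  have h2 : (p.takeUntil y hy).length + (p.dropUntil y hy).length = p.length := by
    rw [← SimpleGraph.Walk.length_append, SimpleGraph.Walk.take_spec]
  refine ⟨by omega, fun hne => ?_⟩
  have h3 : 0 < (p.takeUntil y hy).length := by
    rw [Nat.pos_iff_ne_zero]
    intro h0
    exact hne (SimpleGraph.Walk.eq_of_length_eq_zero h0).symm
  omega

theorem adj_dist (hT : T.IsAcyclic) {x y r : W} (hx : T.Reachable x r) (h : T.Adj x y) :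
    T.dist x r ≠ T.dist y r := by
  intro he
  obtain ⟨p, hp, hpl⟩ := hx.exists_path_of_dist
  obtain ⟨q, hq, hql⟩ := (h.symm.reachable.trans hx).exists_path_of_dist
  by_cases hy : y ∈ p.support
  · have := (dist_le_of_mem p hy).2 h.ne'
    omega
  · have h1 : (SimpleGraph.Walk.cons h.symm p).IsPath := hp.cons hy
    have h2 := len_eq hT h1 hq
    rw [SimpleGraph.Walk.length_cons] at h2
    omega

theorem unique_near (hT : T.IsAcyclic) {x y z r : W} (hx : T.Reachable x r) (hy : T.Adj x y)
    (hz : T.Adj x z) (hyd : T.dist y r < T.dist x r) (hzd : T.dist z r < T.dist x r) : y = z := by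
  obtain ⟨p, hp, hpl⟩ := (hy.symm.reachable.trans hx).exists_path_of_dist
  obtain ⟨q, hq, hql⟩ := (hz.symm.reachable.trans hx).exists_path_of_dist
  have h1 : x ∉ p.support := fun h => by
    have := (dist_le_of_mem p h).1
    omega
  have h2 : x ∉ q.support := fun h => by
    have := (dist_le_of_mem q h).1
    omega
  have h3 := (SimpleGraph.isAcyclic_iff_subsingleton_path.1 hT x r).elim
    ⟨_, hp.cons (h := hy) h1⟩ ⟨_, hq.cons (h := hz) h2⟩
  have h4 : SimpleGraph.Walk.cons hy p = SimpleGraph.Walk.cons hz q := congrArg Subtype.val h3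
  injection h4

theorem main : S_TREE := by
  intro W T hT root hr hc
  refine ⟨fun x y h => ?_, fun x y z h1 h2 => ?_⟩
  · have e := hc x y h.reachable
    have h1 := adj_dist hT (hr x) h
    rw [e] at h1
    unfold Par
    rw [e]
    rcases lt_or_gt_of_ne h1 with h2 | h2
    · exact Or.inl ⟨h, h2⟩
    · exact Or.inr ⟨h.symm, h2⟩
  · obtain ⟨hy, hyd⟩ := h1
    obtain ⟨hz, hzd⟩ := h2
    rw [hc y x hy.reachable] at hyd
    rw [hc z x hz.reachable] at hzd
    exact unique_near hT (hr x) hy.symm hz.symm hyd hzd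

end Pool.Agent.Helper611.UF.Tree
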