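import Pool.Agent.Helper611.UF.Stm

/-!
# Project UF, part 5: Voronoi cells
-/

set_option autoImplicit false

namespace Pool.Agent.Helper611.UF.Vor

open MeasureTheory Set

/-- equality of two measurable functions -/
theorem measurableSet_eq2 {V Z : Type} [MeasurableSpace V] [StandardBorelSpace V]
    [MeasurableSpace Z] {f g : Z → V} (hf : Measurable f) (hg : Measurable g) :
    MeasurableSet {z | f z = g z} := by
  have h1 : {z | f z = g z} = {z | embeddingReal V (f z) = embeddingReal V (g z)} := by
    ext z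
    exact ⟨fun h => by rw [mem_ofPred_eq] at h ⊢; rw [h],
      fun h => (measurableEmbedding_embeddingReal V).injective h⟩
  rw [h1]
  exact measurableSet_eq_fun ((measurable_embeddingReal V).comp hf)
    ((measurable_embeddingReal V).comp hg)

theorem reach_equiv {V : Type} (F : SimpleGraph V) : Equivalence F.Reachable :=
  ⟨fun _ => SimpleGraph.Reachable.refl _, fun h => h.symm, fun h h' => h.trans h'⟩

/-- reachability in a Borel graph is Borel -/
theorem meas_reach (hENUM : S_ENUM) (hREACH : S_REACH) {V : Type} [MeasurableSpace V]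
    [StandardBorelSpace V] {F : SimpleGraph V} {Δ : ℕ} (hF : BG F Δ) {Z : Type}
    [MeasurableSpace Z] {s t : Z → V} (hs : Measurable s) (ht : Measurable t) :
    MeasurableSet {z | F.Reachable (s z) (t z)} := by
  obtain ⟨w, hw, -⟩ := hENUM V F Δ hF
  refine (hREACH V F.Reachable w (reach_equiv F) hw Z (fun _ => F) ?_ ?_ s t hs ht).1
  · exact measurable_snd hF.adj
  · intro _ x y h
    exact h.reachable

/-- the distance of a Borel graph is Borel -/
theorem meas_dist (hENUM : S_ENUM) (hREACH : S_REACH) {V : Type} [MeasurableSpace V]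
    [StandardBorelSpace V] {F : SimpleGraph V} {Δ : ℕ} (hF : BG F Δ) {Z : Type}
    [MeasurableSpace Z] {s t : Z → V} (hs : Measurable s) (ht : Measurable t) :
    Measurable fun z => F.dist (s z) (t z) := by
  have h1 := meas_reach hENUM hREACH hF hs ht
  obtain ⟨w, hw, -⟩ := hENUM V F Δ hF
  have h2 := (hREACH V F.Reachable w (reach_equiv F) hw Z (fun _ => F)
    (measurable_snd hF.adj) (fun _ x y h => h.reachable) s t hs ht).2
  refine measurable_of_Iic fun n => ?_
  have h3 : (fun z => F.dist (s z) (t z)) ⁻¹' Iic n =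
      {z | F.Reachable (s z) (t z) ∧ F.dist (s z) (t z) ≤ n} ∪
        {z | F.Reachable (s z) (t z)}ᶜ := by
    ext z
    simp only [mem_preimage, mem_Iic, mem_union, mem_ofPred_eq, mem_compl_iff]
    constructor
    · intro h
      by_cases hr : F.Reachable (s z) (t z)
      · exact Or.inl ⟨hr, h⟩
      · exact Or.inr hr
    · rintro (h | h)
      · exact h.2
      · rw [SimpleGraph.dist_eq_zero_of_not_reachable h]
        exact Nat.zero_le n
  rw [h3]
  exact (h2 n).union h1.compl

/-- the first vertex of a shortest path -/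
theorem exists_next {V : Type} {F : SimpleGraph V} {x z : V} (h : F.Reachable x z) (hne : x ≠ z) :
    ∃ y, F.Adj x y ∧ F.Reachable y z ∧ F.dist y z + 1 = F.dist x z := by
  obtain ⟨p, hp⟩ := h.exists_walk_length_eq_dist
  cases p with
  | nil => exact absurd rfl hne
  | cons hadj q =>
    rename_i y
    rw [SimpleGraph.Walk.length_cons] at hp
    have h1 : F.dist y z ≤ q.length := SimpleGraph.dist_le q
    have h2 : F.dist x z ≤ 1 + F.dist y z := by
      have h3 := (hadj.reachable).dist_triangle_left z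
      rwa [SimpleGraph.dist_eq_one_iff_adj.2 hadj] at h3
    exact ⟨y, hadj, q.reachable, by omega⟩

/-- VOR -/
theorem main (hENUM : S_ENUM) (hEX : S_EX) (hSEL : S_SEL) (hREACH : S_REACH) (hBALL : S_BALL)
    (hMIS : S_MIS) : S_VOR := by
  classical
  intro V _ _ F Δ hF ρ
  obtain ⟨w, hw, -⟩ := hENUM V F Δ hF
  obtain ⟨A, -, hAm, hA1, hA2⟩ := hMIS V F Δ hF (2 * ρ) univ MeasurableSet.univ
  obtain ⟨P, hP⟩ : ∃ P : V → V → Prop, ∀ x z, P x z ↔
      z ∈ A ∧ F.Reachable x z ∧ ∀ z', F.Reachable x z' → z' ∈ A → F.dist x z ≤ F.dist x z' :=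
    ⟨_, fun _ _ => Iff.rfl⟩
  -- measurability of `P`
  have hPm : Bor2 P := by
    have h1 : {p : V × V | P p.1 p.2} = {p : V × V | p.2 ∈ A} ∩
        ({p : V × V | F.Reachable p.1 p.2} ∩
        {p : V × V | ∀ z', F.Reachable p.1 z' → (z' ∈ A → F.dist p.1 p.2 ≤ F.dist p.1 z')}) := by
      ext p
      exact hP p.1 p.2
    unfold Bor2
    rw [h1]
    refine (measurable_snd hAm).inter ((meas_reach hENUM hREACH hF measurable_fst
      measurable_snd).inter ?_)
    refine (hEX V F.Reachable w hw (V × V) Prod.fst measurable_fst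
      (fun p z' => z' ∈ A → F.dist p.1 p.2 ≤ F.dist p.1 z') ?_).2
    have h2 : {p : (V × V) × V | p.2 ∈ A → F.dist p.1.1 p.1.2 ≤ F.dist p.1.1 p.2} =
        {p : (V × V) × V | p.2 ∈ A}ᶜ ∪
          {p : (V × V) × V | F.dist p.1.1 p.1.2 ≤ F.dist p.1.1 p.2} := by
      ext p
      simp only [mem_ofPred_eq, mem_union, mem_compl_iff]
      tauto
    rw [h2]
    refine (measurable_snd hAm).compl.union ?_
    exact measurableSet_le
      (meas_dist hENUM hREACH hF (measurable_fst.comp measurable_fst)
        (measurable_snd.comp measurable_fst))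
      (meas_dist hENUM hREACH hF (measurable_fst.comp measurable_fst) measurable_snd)
  -- the closest points are at distance at most `2 ρ`
  have hclose : ∀ x z, P x z → F.dist x z ≤ 2 * ρ := by
    intro x z h
    obtain ⟨z', hz', hr, hd⟩ := hA2 x (mem_univ x)
    exact (((hP x z).1 h).2.2 z' hr hz').trans hd
  have hfin : ∀ x, {y | P x y}.Finite := by
    intro x
    obtain ⟨M, hM⟩ := hBALL V F Δ hF.deg (2 * ρ)
    have h1 : {y | F.Reachable x y ∧ F.dist x y ≤ 2 * ρ}.Finite := by
      rw [← Set.encard_lt_top_iff]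
      exact (hM x).trans_lt (ENat.natCast_lt_top M)
    exact h1.subset fun y hy => ⟨((hP x y).1 hy).2.1, hclose x y hy⟩
  have hex : ∀ x, ∃ z, P x z := by
    intro x
    obtain ⟨z', hz', hr, -⟩ := hA2 x (mem_univ x)
    have h1 : ∃ n, ∃ z, z ∈ A ∧ F.Reachable x z ∧ F.dist x z = n := ⟨_, z', hz', hr, rfl⟩
    obtain ⟨z, hz, hr', hd⟩ := Nat.find_spec h1
    refine ⟨z, (hP x z).2 ⟨hz, hr', fun z'' hr'' hz'' => ?_⟩⟩
    rw [hd]
    exact Nat.find_min' h1 ⟨z'', hz'', hr'', rfl⟩
  obtain ⟨a, ha, ha1, -⟩ := hSEL V F.Reachable w hw (embeddingReal V) (measurable_embeddingReal V)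
    (measurableEmbedding_embeddingReal V).injective P hPm (fun x y h => ((hP x y).1 h).2.1) hfin
  have haP : ∀ x, P x (a x) := fun x => (ha1 x (hex x)).1
  have hamin : ∀ x y, P x y → embeddingReal V (a x) ≤ embeddingReal V y := fun x =>
    (ha1 x (hex x)).2
  have haA : ∀ x, a x ∈ A := fun x => ((hP _ _).1 (haP x)).1
  have har : ∀ x, F.Reachable x (a x) := fun x => ((hP _ _).1 (haP x)).2.1
  have had : ∀ x z, F.Reachable x z → z ∈ A → F.dist x (a x) ≤ F.dist x z := fun x =>
    ((hP _ _).1 (haP x)).2.2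
  have hfix : ∀ z ∈ A, a z = z := by
    intro z hz
    have h1 := had z z (SimpleGraph.Reachable.refl _) hz
    rw [SimpleGraph.dist_self, Nat.le_zero, (har z).dist_eq_zero_iff] at h1
    exact h1.symm
  refine ⟨a, ha, fun x => hfix _ (haA x), fun x => ⟨har x, hclose x _ (haP x)⟩, ?_, ?_⟩
  · intro x hx
    obtain ⟨y, hadj, hyr, h3⟩ := exists_next (har x) hx
    have htri : ∀ z, F.dist x z ≤ 1 + F.dist y z := by
      intro z
      have h4 := (hadj.reachable).dist_triangle_left z
      rwa [SimpleGraph.dist_eq_one_iff_adj.2 hadj] at h4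
    have hPy : P y (a x) := by
      rw [hP]
      refine ⟨haA x, hyr, fun z' hr' hz' => ?_⟩
      have h4 := had x z' (hadj.reachable.trans hr') hz'
      have h5 := htri z'
      omega
    have hPx : P x (a y) := by
      rw [hP]
      refine ⟨haA y, hadj.reachable.trans (har y), fun z' hr' hz' => ?_⟩
      have h4 := had x z' hr' hz'
      have h5 := htri (a y)
      have h6 := had y (a x) hyr (haA x)
      omega
    refine ⟨y, hadj, ?_, h3⟩
    exact (measurableEmbedding_embeddingReal V).injective
      (le_antisymm (hamin y _ hPy) (hamin x _ hPx))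
  · intro x y hx hr hd
    have hxA : x ∈ A := by
      rw [← hx]
      exact haA x
    by_contra hne
    have h1 := hA1 x hxA (a y) (haA y) (fun h => hne h.symm) (hr.symm.trans (har y))
    have h2 := had y x hr hxA
    have h3 := (hr.symm).dist_triangle_left (a y)
    rw [SimpleGraph.dist_comm (u := x) (v := y)] at h3
    omega

end Pool.Agent.Helper611.UF.Vor
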