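import Pool.Agent.Helper611.UF.Main
import Pool.Agent.Helper611.UF.Tool3
import Pool.Agent.Helper611.UF.Mom
import Pool.Agent.Helper611.UF.Q
import Pool.Agent.Helper611.UF.Close
import Pool.Agent.Helper611.UF.Fin
import Pool.Agent.Helper611.UF.For
import Pool.Agent.Helper611.UF.ConC
import Pool.Agent.Helper611.UF.Deg
import Pool.Agent.Helper611.UF.Vor
import Pool.Agent.Helper611.UF.Cell
import Pool.Agent.Helper611.UF.Count
import Pool.Agent.Helper611.UF.Tree
import Pool.Agent.Helper611.UF.Ray
import Pool.Agent.Helper611.UF.Ext
import Pool.Agent.Helper611.UF.Core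

/-!
# Project UF: every 3-regular Borel graph has a Borel unfriendly colouring
-/

set_option autoImplicit false

namespace Pool.Agent.Helper611.UF

theorem all : S_MAIN := by
  have hQ : S_Q := Q.main (Count.main Mom.main) Tree.main (Ray.main enum ex sel)
  have hVOR : S_VOR := Vor.main enum ex sel reach ball mis
  have hCELL : S_CELL := Cell.main enum ex reach ball hVOR ConC.main Deg.main hQ
  have hFOR : S_FOR := For.main enum ex reach path
  have hEXT : S_EXT := Ext.main enum ex sel inf reach
  have hCORE : S_CORE := Core.main enum ex ball mis path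
  have hFIN : S_FIN := Fin.main path enum ex sel reach
  have hCLOSE : S_CLOSE := Close.main enum col
  exact main enum ex hCLOSE hFIN hFOR hCELL hEXT hCORE

end Pool.Agent.Helper611.UF
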