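import Pool.Agent.Helper611.UF.Stm

/-!
# Project UF: part 8, CORE

Let every cluster of `c` be infinite. Let `L` be the set of the points without two neighbours of
the other colour, `Z` a maximal independent Borel subset of `L`, and `c'` the colouring `c` flipped
on `Z`. The largest core of `c'` meets every component.
-/

set_option autoImplicit false

namespace Pool.Agent.Helper611.UF.Core

open MeasureTheory Set

theorem eq_meas {V Z : Type} [MeasurableSpace V] [StandardBorelSpace V]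
    [MeasurableSpace Z] {f g : Z → V} (hf : Measurable f) (hg : Measurable g) :
    MeasurableSet {z | f z = g z} := by
  have h1 : {z | f z = g z} = {z | embeddingReal V (f z) = embeddingReal V (g z)} := by
    ext z
    exact ⟨fun h => by rw [mem_ofPred_eq] at h ⊢; rw [h],
      fun h => (measurableEmbedding_embeddingReal V).injective h⟩
  rw [h1]
  exact measurableSet_eq_fun ((measurable_embeddingReal V).comp hf)
    ((measurable_embeddingReal V).comp hg)

/-- Having two neighbours of the other colour in a Borel set is a Borel condition. -/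
theorem two_meas (hEX : S_EX) {V : Type} [MeasurableSpace V] [StandardBorelSpace V]
    {G : SimpleGraph V} (hG : Bor2 G.Adj) {w : ℕ → V → V} (hw : Enum G.Reachable w) {X : Set V}
    (hX : MeasurableSet X) {c : V → Bool} (hc : Measurable c) :
    MeasurableSet {x | Two G X c x} := by
  have hne : ∀ {f g : (V × V) × V → V}, Measurable f → Measurable g →
      MeasurableSet {p | c (f p) ≠ c (g p)} := fun hf hg =>
    (measurableSet_eq_fun (hc.comp hf) (hc.comp hg)).compl
  have m1 : Measurable fun p : (V × V) × V => p.1.1 := measurable_fst.comp measurable_fst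
  have m2 : Measurable fun p : (V × V) × V => p.1.2 := measurable_snd.comp measurable_fst
  have m3 : Measurable fun p : (V × V) × V => p.2 := measurable_snd
  have hB : MeasurableSet {p : (V × V) × V | p.1.2 ≠ p.2 ∧ G.Adj p.1.1 p.1.2 ∧ G.Adj p.1.1 p.2 ∧
      p.1.2 ∈ X ∧ p.2 ∈ X ∧ c p.1.2 ≠ c p.1.1 ∧ c p.2 ≠ c p.1.1} :=
    (eq_meas m2 m3).compl.inter (((m1.prodMk m2) hG).inter (((m1.prodMk m3) hG).inter
      ((m2 hX).inter ((m3 hX).inter ((hne m2 m1).inter (hne m3 m1))))))
  have h1 := (hEX V G.Reachable w hw (V × V) Prod.fst measurable_fst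
    (fun q z => q.2 ≠ z ∧ G.Adj q.1 q.2 ∧ G.Adj q.1 z ∧
      q.2 ∈ X ∧ z ∈ X ∧ c q.2 ≠ c q.1 ∧ c z ≠ c q.1) hB).1
  have h2 := (hEX V G.Reachable w hw V id measurable_id
    (fun x y => ∃ z, G.Reachable x z ∧ (y ≠ z ∧ G.Adj x y ∧ G.Adj x z ∧
      y ∈ X ∧ z ∈ X ∧ c y ≠ c x ∧ c z ≠ c x)) h1).1
  have h3 : {x | Two G X c x} = {x | ∃ y, G.Reachable (id x) y ∧ ∃ z, G.Reachable x z ∧
      (y ≠ z ∧ G.Adj x y ∧ G.Adj x z ∧ y ∈ X ∧ z ∈ X ∧ c y ≠ c x ∧ c z ≠ c x)} := by
    ext x
    constructor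
    · rintro ⟨y, z, h, h4, h5, h6⟩
      exact ⟨y, h4.reachable, z, h5.reachable, h, h4, h5, h6⟩
    · rintro ⟨y, -, z, -, h, h4, h5, h6⟩
      exact ⟨y, z, h, h4, h5, h6⟩
  rw [h3]
  exact h2

/-- The approximations of the largest core of `c`. -/
def Lay {V : Type} (G : SimpleGraph V) (c : V → Bool) : ℕ → Set V
  | 0 => Set.univ
  | n + 1 => Lay G c n ∩ {x | Two G (Lay G c n) c x}

theorem lay_anti {V : Type} (G : SimpleGraph V) (c : V → Bool) : Antitone (Lay G c) :=
  antitone_nat_of_succ_le fun _ _ hx => hx.1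

theorem core_inter {V : Type} (G : SimpleGraph V) (c : V → Bool)
    (hfin : ∀ x, (G.neighborSet x).Finite) : Core G (⋂ n, Lay G c n) c := by
  classical
  intro x hx
  have h1 : ∀ y, ∃ n, y ∈ Lay G c n → y ∈ ⋂ n, Lay G c n := by
    intro y
    by_cases hy : y ∈ ⋂ n, Lay G c n
    · exact ⟨0, fun _ => hy⟩
    · rw [mem_iInter] at hy
      push Not at hy
      obtain ⟨n, hn⟩ := hy
      exact ⟨n, fun h => absurd h hn⟩
  choose m hm using h1
  have h2 : ∀ y, G.Adj x y → y ∈ Lay G c ((hfin x).toFinset.sup m) → y ∈ ⋂ n, Lay G c n := by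
    intro y hxy hy
    have h3 : m y ≤ (hfin x).toFinset.sup m :=
      Finset.le_sup (f := m) ((hfin x).mem_toFinset.2 hxy)
    exact hm y (lay_anti G c h3 hy)
  obtain ⟨-, y, z, h4, h5, h6, h7, h8, h9⟩ := mem_iInter.1 hx ((hfin x).toFinset.sup m + 1)
  exact ⟨y, z, h4, h5, h6, h2 y h5 h7, h2 z h6 h8, h9⟩

/-- One step along an alternating path `v` that starts at a neighbour of `z`. -/
theorem step {V : Type} {G : SimpleGraph V} {c c' : V → Bool} {Z : Set V}
    (hflip : ∀ x ∈ Z, c' x = !c x) (hnot : ∀ x, x ∉ Z → c' x = c x) {z : V} (hz : z ∈ Z)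
    {K : ℕ} {v : ℕ → V} (h0 : G.Adj z (v 0)) (hcol : c (v 0) = c z)
    (hadj : ∀ i < K, G.Adj (v i) (v (i + 1)) ∧ c (v i) ≠ c (v (i + 1)))
    (hne : ∀ i, i + 2 ≤ K → v i ≠ v (i + 2)) (hvZ : ∀ i < K, v i ∉ Z) {n : ℕ}
    (hzn : z ∈ Lay G c' n) (hvn : ∀ j, j + n < K → v j ∈ Lay G c' n) :
    ∀ j, j + (n + 1) < K → v j ∈ Lay G c' (n + 1) := by
  intro j hj
  refine ⟨hvn j (by omega), ?_⟩
  have e : ∀ i < K, c' (v i) = c (v i) := fun i hi => hnot _ (hvZ i hi)
  rcases j with _ | i
  · refine ⟨z, v 1, ?_, h0.symm, (hadj 0 (by omega)).1, hzn, hvn 1 (by omega), ?_, ?_⟩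
    · intro h
      have := (hadj 0 (by omega)).2
      rw [hcol, h] at this
      exact this rfl
    · rw [hflip z hz, e 0 (by omega), hcol]
      cases c z <;> simp
    · rw [e 1 (by omega), e 0 (by omega)]
      exact (hadj 0 (by omega)).2.symm
  · refine ⟨v i, v (i + 2), hne i (by omega), (hadj i (by omega)).1.symm,
      (hadj (i + 1) (by omega)).1, hvn i (by omega), hvn (i + 2) (by omega), ?_, ?_⟩
    · rw [e i (by omega), e (i + 1) (by omega)]
      exact (hadj i (by omega)).2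
    · rw [e (i + 2) (by omega), e (i + 1) (by omega)]
      exact (hadj (i + 1) (by omega)).2.symm

theorem main (hENUM : S_ENUM) (hEX : S_EX) (hBALL : S_BALL) (hMIS : S_MIS) (hPATH : S_PATH) :
    S_CORE := by
  classical
  intro V _ _ G hG h3 c hc hinf
  obtain ⟨w, hw, -⟩ := hENUM V G 3 hG
  have hfin : ∀ x, (G.neighborSet x).Finite := fun x => Set.finite_of_encard_le_coe (hG.deg x)
  have hLm : MeasurableSet {x | Two G Set.univ c x}ᶜ :=
    (two_meas hEX hG.adj hw MeasurableSet.univ hc).compl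
  obtain ⟨Z, hZL, hZm, hZind, hZmax⟩ := hMIS V G 3 hG 1 _ hLm
  obtain ⟨c', hc'⟩ : ∃ c' : V → Bool, ∀ x, c' x = if x ∈ Z then !c x else c x := ⟨_, fun _ => rfl⟩
  have hflip : ∀ x ∈ Z, c' x = !c x := fun x hx => by rw [hc', if_pos hx]
  have hnot : ∀ x, x ∉ Z → c' x = c x := fun x hx => by rw [hc', if_neg hx]
  have hc'm : Measurable c' := by
    have h1 : c' = fun x => if x ∈ Z then !c x else c x := funext hc'
    rw [h1]
    exact Measurable.ite hZm ((measurable_of_countable fun b : Bool => !b).comp hc) hc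
  have hLay : ∀ n, MeasurableSet (Lay G c' n) := by
    intro n
    induction n with
    | zero => exact MeasurableSet.univ
    | succ n ih => exact ih.inter (two_meas hEX hG.adj hw ih hc'm)
  refine ⟨⋂ n, Lay G c' n, c', MeasurableSet.iInter hLay, hc'm, core_inter G c' hfin, ?_⟩
  -- long alternating paths
  obtain ⟨hbd⟩ : Nonempty (∀ x, ((Alt G c).neighborSet x).encard ≤ (3 : ℕ)) :=
    ⟨fun x => (Set.encard_le_encard fun y hy => hy.1).trans (hG.deg x)⟩
  have hpath : ∀ z ∈ Z, ∀ u, G.Adj z u → c u = c z → ∀ K, ∃ v : ℕ → V, v 0 = u ∧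
      (∀ i < K, G.Adj (v i) (v (i + 1)) ∧ c (v i) ≠ c (v (i + 1))) ∧
      (∀ i, i + 2 ≤ K → v i ≠ v (i + 2)) ∧ ∀ i < K, v i ∉ Z := by
    intro z hz u hzu hcu K
    obtain ⟨M, hM⟩ := hBALL V (Alt G c) 3 hbd K
    have hball : {y | (Alt G c).Reachable u y ∧ (Alt G c).dist u y ≤ K}.Finite :=
      Set.finite_of_encard_le_coe (hM u)
    obtain ⟨y, hy1, hy2⟩ := ((hinf u).sdiff hball).nonempty
    have hy3 : K < (Alt G c).dist u y := by
      by_contra hcon
      exact hy2 ⟨hy1, not_lt.1 hcon⟩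
    obtain ⟨-, v, hv0, -, hv1, hv2⟩ := hPATH V (Alt G c) u y hy1
    have hne : ∀ i, i + 2 ≤ K → v i ≠ v (i + 2) := by
      intro i hi h
      have e1 := (hv2 i (by omega)).2
      have e2 := (hv2 (i + 2) (by omega)).2
      rw [h, e2] at e1
      omega
    refine ⟨v, hv0, fun i hi => hv1 i (by omega), hne, ?_⟩
    intro i hi hiZ
    rcases i with _ | i
    · have hne' : z ≠ v 0 := by rw [hv0]; exact hzu.ne
      have hadj : G.Adj z (v 0) := by rw [hv0]; exact hzu
      have := hZind z hz (v 0) hiZ hne' hadj.reachable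
      rw [SimpleGraph.dist_eq_one_iff_adj.2 hadj] at this
      omega
    · refine hZL hiZ ⟨v i, v (i + 2), hne i (by omega), (hv1 i (by omega)).1.symm,
        (hv1 (i + 1) (by omega)).1, mem_univ _, mem_univ _, (hv1 i (by omega)).2,
        (hv1 (i + 1) (by omega)).2.symm⟩
  -- two neighbours of the same colour
  have htwo : ∀ z ∈ Z, ∃ u₁ u₂, u₁ ≠ u₂ ∧ G.Adj z u₁ ∧ G.Adj z u₂ ∧ c u₁ = c z ∧ c u₂ = c z := by
    intro z hz
    obtain ⟨a, b, d, hab, had, hbd', hs⟩ := Set.ncard_eq_three.1 (h3 z)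
    have ha : G.Adj z a := by
      have : a ∈ G.neighborSet z := by rw [hs]; simp
      exact this
    have hb : G.Adj z b := by
      have : b ∈ G.neighborSet z := by rw [hs]; simp
      exact this
    have hd : G.Adj z d := by
      have : d ∈ G.neighborSet z := by rw [hs]; simp
      exact this
    have hz' : ∀ x y, x ≠ y → G.Adj z x → G.Adj z y → c x = c z ∨ c y = c z := by
      intro x y hxy hx hy
      by_contra hcon
      push Not at hcon
      exact hZL hz ⟨x, y, hxy, hx, hy, mem_univ _, mem_univ _, hcon.1, hcon.2⟩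
    by_cases hca : c a = c z
    · rcases hz' b d hbd' hb hd with h | h
      · exact ⟨a, b, hab, ha, hb, hca, h⟩
      · exact ⟨a, d, had, ha, hd, hca, h⟩
    · exact ⟨b, d, hbd', hb, hd, (hz' a b hab ha hb).resolve_left hca,
        (hz' a d had ha hd).resolve_left hca⟩
  -- points of `Z` are in the core
  have hZX : ∀ z ∈ Z, ∀ m, z ∈ Lay G c' m := by
    intro z hz m
    obtain ⟨u₁, u₂, hu, ha₁, ha₂, hc₁, hc₂⟩ := htwo z hz
    obtain ⟨v₁, p1, p2, p3, p4⟩ := hpath z hz u₁ ha₁ hc₁ (m + 1)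
    obtain ⟨v₂, q1, q2, q3, q4⟩ := hpath z hz u₂ ha₂ hc₂ (m + 1)
    subst p1
    subst q1
    have key : ∀ n, n ≤ m → z ∈ Lay G c' n ∧ (∀ j, j + n < m + 1 → v₁ j ∈ Lay G c' n) ∧
        ∀ j, j + n < m + 1 → v₂ j ∈ Lay G c' n := by
      intro n
      induction n with
      | zero => exact fun _ => ⟨mem_univ _, fun _ _ => mem_univ _, fun _ _ => mem_univ _⟩
      | succ n ih =>
        intro hn
        obtain ⟨i1, i2, i3⟩ := ih (by omega)
        refine ⟨⟨i1, v₁ 0, v₂ 0, hu, ha₁, ha₂, i2 0 (by omega), i3 0 (by omega), ?_, ?_⟩,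
          step hflip hnot hz ha₁ hc₁ p2 p3 p4 i1 i2, step hflip hnot hz ha₂ hc₂ q2 q3 q4 i1 i3⟩
        · rw [hnot _ (p4 0 (by omega)), hflip z hz, hc₁]
          cases c z <;> simp
        · rw [hnot _ (q4 0 (by omega)), hflip z hz, hc₂]
          cases c z <;> simp
    exact (key m le_rfl).1
  intro x
  by_cases hx : ∃ l, G.Reachable x l ∧ l ∈ {x | Two G Set.univ c x}ᶜ
  · obtain ⟨l, hl1, hl2⟩ := hx
    obtain ⟨z, hz1, hz2, -⟩ := hZmax l hl2
    exact ⟨z, mem_iInter.2 (hZX z hz1), hl1.trans hz2⟩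
  · have hx' : ∀ l, G.Reachable x l → Two G Set.univ c l := by
      intro l hl
      by_contra hcon
      exact hx ⟨l, hl, hcon⟩
    have hxc : ∀ l, G.Reachable x l → c' l = c l := fun l hl =>
      hnot l fun hlZ => hZL hlZ (hx' l hl)
    have key : ∀ n, ∀ l, G.Reachable x l → l ∈ Lay G c' n := by
      intro n
      induction n with
      | zero => exact fun _ _ => mem_univ _
      | succ n ih =>
        intro l hl
        obtain ⟨a, b, h1, h2, h4, -, -, h5, h6⟩ := hx' l hl
        have ra := hl.trans h2.reachable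
        have rb := hl.trans h4.reachable
        refine ⟨ih l hl, a, b, h1, h2, h4, ih a ra, ih b rb, ?_, ?_⟩
        · rw [hxc a ra, hxc l hl]; exact h5
        · rw [hxc b rb, hxc l hl]; exact h6
    exact ⟨x, mem_iInter.2 fun n => key n x (SimpleGraph.Reachable.refl _),
      SimpleGraph.Reachable.refl _⟩

end Pool.Agent.Helper611.UF.Core
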