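import Mathlib

/-!
# Project UF: Borel unfriendly colourings of 3-regular Borel graphs: definitions
-/

set_option autoImplicit false

namespace Pool.Agent.Helper611.UF

open MeasureTheory

/-- A Borel binary relation. -/
def Bor2 {V : Type} [MeasurableSpace V] (P : V → V → Prop) : Prop :=
  MeasurableSet {p : V × V | P p.1 p.2}

/-- A Borel graph with at most `Δ` neighbours at every vertex. -/
structure BG {V : Type} [MeasurableSpace V] (G : SimpleGraph V) (Δ : ℕ) : Prop where
  adj : Bor2 G.Adj
  deg : ∀ x, (G.neighborSet x).encard ≤ Δ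

/-- The Borel functions `w n` enumerate the sections of the relation `E`. -/
structure Enum {V : Type} [MeasurableSpace V] (E : V → V → Prop) (w : ℕ → V → V) : Prop where
  meas : ∀ n, Measurable (w n)
  iff : ∀ x y, E x y ↔ ∃ n, w n x = y

/-- `x` has at least two neighbours in `Y` whose colour differs from that of `x`. -/
def Two {V : Type} (G : SimpleGraph V) (Y : Set V) (c : V → Bool) (x : V) : Prop :=
  ∃ y z, y ≠ z ∧ G.Adj x y ∧ G.Adj x z ∧ y ∈ Y ∧ z ∈ Y ∧ c y ≠ c x ∧ c z ≠ c x

/-- A core: a coloured set in which every point has at least two neighbours of the other colour. -/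
def Core {V : Type} (G : SimpleGraph V) (Y : Set V) (c : V → Bool) : Prop :=
  ∀ x ∈ Y, Two G Y c x

/-- No finite set can be added to the core `Y`. -/
def Closed {V : Type} (G : SimpleGraph V) (Y : Set V) (c : V → Bool) : Prop :=
  ∀ S : Set V, S.Finite → S.Nonempty → Disjoint S Y → ∀ c' : V → Bool, (∀ y ∈ Y, c' y = c y) →
    ¬ ∀ x ∈ S, Two G (Y ∪ S) c' x

/-- The graph of the edges whose ends have different colours. -/
def Alt {V : Type} (G : SimpleGraph V) (c : V → Bool) : SimpleGraph V where
  Adj x y := G.Adj x y ∧ c x ≠ c y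
  symm := ⟨fun _ _ h => ⟨h.1.symm, h.2.symm⟩⟩
  loopless := ⟨fun _ h => h.2 rfl⟩

/-- The edges of `Q` satisfied by the gauge `g` for the signs `τ`. -/
def Sat {W : Type} (Q : SimpleGraph W) (τ : W → W → Bool) (g : W → Bool) : SimpleGraph W where
  Adj x y := Q.Adj x y ∧ xor (g x) (g y) = τ x y ∧ xor (g y) (g x) = τ y x
  symm := ⟨fun _ _ h => ⟨h.1.symm, h.2.2, h.2.1⟩⟩
  loopless := ⟨fun _ h => Q.loopless.irrefl _ h.1⟩

/-- The contribution of the state `(late, bit)` of a neighbour to the vote, for the sign `t`. -/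
def xi (t : Bool) (a : Bool × Bool) : ℤ :=
  if a.1 then 0 else if xor a.2 t then -1 else 1

/-- The vote of the early neighbours of `x`. -/
def vote {W : Type} (N : W → Finset W) (τ : W → W → Bool) {k : ℕ} (κ : W → Fin k)
    (ω : Fin k → Bool × Bool) (x : W) : ℤ :=
  ∑ y ∈ N x, xi (τ x y) (ω (κ y))

/-- The random gauge: early points (`(ω (κ x)).1 = false`) take their bit, late points follow the
vote of their early neighbours, and take their bit when it is a tie. -/
def gau {W : Type} (N : W → Finset W) (τ : W → W → Bool) {k : ℕ} (κ : W → Fin k)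
    (ω : Fin k → Bool × Bool) (x : W) : Bool :=
  if (ω (κ x)).1 then
    if 0 < vote N τ κ ω x then false else if vote N τ κ ω x < 0 then true else (ω (κ x)).2
  else (ω (κ x)).2

/-- `y` is the parent of `x` in the graph `T` rooted by `root`. -/
def Par {W : Type} (T : SimpleGraph W) (root : W → W) (y x : W) : Prop :=
  T.Adj y x ∧ T.dist y (root y) < T.dist x (root x)

/-- The graph of the cells of `a`. -/
def Cells {V : Type} (F : SimpleGraph V) (a : V → V) : SimpleGraph {x : V // a x = x} where
  Adj p q := p ≠ q ∧ ∃ x y, F.Adj x y ∧ a x = p.1 ∧ a y = q.1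
  symm := ⟨fun _ _ h => ⟨h.1.symm, by
    obtain ⟨x, y, h1, h2, h3⟩ := h.2
    exact ⟨y, x, h1.symm, h3, h2⟩⟩⟩
  loopless := ⟨fun _ h => h.1 rfl⟩

end Pool.Agent.Helper611.UF
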