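import Pool.Agent.Helper611.UF.Stm

/-!
# Project UF: the theorem from its parts
-/

set_option autoImplicit false

namespace Pool.Agent.Helper611.UF

open MeasureTheory Set

theorem two_mono {V : Type} {G : SimpleGraph V} {Y Y' : Set V} {c c' : V → Bool} {x : V}
    (h : Two G Y c x) (hY : Y ⊆ Y') (hc : ∀ y ∈ Y, c' y = c y) (hx : c' x = c x) :
    Two G Y' c' x := by
  obtain ⟨y, z, h1, h2, h3, h4, h5, h6, h7⟩ := h
  exact ⟨y, z, h1, h2, h3, hY h4, hY h5, by rw [hc y h4, hx]; exact h6,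
    by rw [hc z h5, hx]; exact h7⟩

theorem bg_of_ncard {V : Type} [MeasurableSpace V] {G : SimpleGraph V} (hG : Bor2 G.Adj)
    (h3 : ∀ v : V, (G.neighborSet v).ncard = 3) : BG G 3 := by
  refine ⟨hG, fun x => ?_⟩
  have h1 : (G.neighborSet x).Finite := Set.finite_of_ncard_ne_zero (by rw [h3]; norm_num)
  rw [← h1.cast_ncard_eq, h3]

/-- the final count -/
theorem ncard_le_of_two {V : Type} {G : SimpleGraph V} {c : V → Bool} {v : V}
    (h3 : (G.neighborSet v).ncard = 3) (h : Two G univ c v) :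
    {w : V | G.Adj v w ∧ c w = c v}.ncard ≤ {w : V | G.Adj v w ∧ c w ≠ c v}.ncard := by
  have hf : (G.neighborSet v).Finite := Set.finite_of_ncard_ne_zero (by rw [h3]; norm_num)
  obtain ⟨y, z, h1, h2, h3', _, _, h6, h7⟩ := h
  have hsub : {y, z} ⊆ {w : V | G.Adj v w ∧ c w ≠ c v} := by
    rintro w (rfl | rfl)
    · exact ⟨h2, h6⟩
    · exact ⟨h3', h7⟩
  have hfo : {w : V | G.Adj v w ∧ c w ≠ c v}.Finite := hf.subset fun w hw => hw.1
  have hfs : {w : V | G.Adj v w ∧ c w = c v}.Finite := hf.subset fun w hw => hw.1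
  have h2' : 2 ≤ {w : V | G.Adj v w ∧ c w ≠ c v}.ncard := by
    rw [← Set.ncard_pair h1]
    exact Set.ncard_le_ncard hsub hfo
  have hun : {w : V | G.Adj v w ∧ c w = c v} ∪ {w : V | G.Adj v w ∧ c w ≠ c v} =
      G.neighborSet v := by
    ext w
    simp only [mem_union, mem_ofPred_eq, SimpleGraph.mem_neighborSet]
    tauto
  have hdis : Disjoint {w : V | G.Adj v w ∧ c w = c v} {w : V | G.Adj v w ∧ c w ≠ c v} := by
    rw [Set.disjoint_left]
    rintro w ⟨_, h⟩ ⟨_, h'⟩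
    exact h' h
  have := Set.ncard_union_eq hdis hfs hfo
  rw [hun, h3] at this
  omega

theorem main (hENUM : S_ENUM) (hEX : S_EX) (hCLOSE : S_CLOSE) (hFIN : S_FIN) (hFOR : S_FOR)
    (hCELL : S_CELL) (hEXT : S_EXT) (hCORE : S_CORE) : S_MAIN := by
  classical
  intro V _ _ G hGm h3
  have hG : BG G 3 := bg_of_ncard hGm h3
  obtain ⟨w, hw, -⟩ := hENUM V G 3 hG
  -- a closed core
  obtain ⟨Y1, c1, -, hY1, hc1, -, hcore1, hcl1⟩ := hCLOSE V G 3 hG ∅ (fun _ => false)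
    MeasurableSet.empty measurable_const (fun x hx => hx.elim)
  -- the components that it misses
  obtain ⟨Vo, hVo⟩ : ∃ Vo : Set V, Vo = {x | ∀ y, G.Reachable x y → y ∉ Y1} := ⟨_, rfl⟩
  have hVom : MeasurableSet Vo := by
    rw [hVo]
    exact (hEX V G.Reachable w hw V id measurable_id (fun _ y => y ∉ Y1)
      (measurable_snd hY1.compl)).2
  have hinv : ∀ x y, G.Reachable x y → x ∈ Vo → y ∈ Vo := by
    intro x y hxy hx
    rw [hVo] at hx ⊢
    exact fun z hz => hx z (hxy.trans hz)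
  have : StandardBorelSpace Vo := hVom.standardBorel
  obtain ⟨G', hG'⟩ : ∃ G' : SimpleGraph Vo, G' = G.comap (Subtype.val : Vo → V) := ⟨_, rfl⟩
  have hadj : ∀ a b : Vo, G'.Adj a b ↔ G.Adj a.1 b.1 := by
    intro a b
    rw [hG']
    rfl
  have hnb : ∀ a : Vo, (G'.neighborSet a).ncard = 3 := by
    intro a
    have h1 : G'.neighborSet a = Subtype.val ⁻¹' (G.neighborSet a.1) := by
      ext b
      exact hadj a b
    rw [h1, Set.ncard_preimage_of_injective_subset_range Subtype.val_injective, h3]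
    intro y hy
    exact ⟨⟨y, hinv _ _ (SimpleGraph.Adj.reachable hy) a.2⟩, rfl⟩
  have hG'm : Bor2 G'.Adj := by
    have h1 : {p : Vo × Vo | G'.Adj p.1 p.2} =
        (fun p : Vo × Vo => ((p.1 : V), (p.2 : V))) ⁻¹' {p : V × V | G.Adj p.1 p.2} := by
      ext p
      exact hadj p.1 p.2
    unfold Bor2
    rw [h1]
    exact ((measurable_subtype_coe.comp measurable_fst).prodMk
      (measurable_subtype_coe.comp measurable_snd)) hGm
  have hBG' : BG G' 3 := bg_of_ncard hG'm hnb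
  -- extension of colourings
  obtain ⟨ex, hex⟩ : ∃ ex : (Vo → Bool) → V → Bool,
      ∀ f v, ex f v = if h : v ∈ Vo then f ⟨v, h⟩ else c1 v :=
    ⟨fun f v => if h : v ∈ Vo then f ⟨v, h⟩ else c1 v, fun _ _ => rfl⟩
  have hex1 : ∀ f (a : Vo), ex f a.1 = f a := by
    intro f a
    rw [hex, dif_pos a.2]
  have hex2 : ∀ f v, v ∉ Vo → ex f v = c1 v := by
    intro f v hv
    rw [hex, dif_neg hv]
  have hexm : ∀ f : Vo → Bool, Measurable f → Measurable (ex f) := by
    intro f hf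
    have h1 : ex f = fun v => if h : v ∈ Vo then f ⟨v, h⟩ else (fun u : (Voᶜ : Set V) => c1 u.1) ⟨v, h⟩ := by
      funext v
      rw [hex]
    rw [h1]
    exact Measurable.dite hf (hc1.comp measurable_subtype_coe) hVom
  have hY1Vo : ∀ y ∈ Y1, y ∉ Vo := by
    intro y hy hyo
    rw [hVo] at hyo
    exact hyo y (SimpleGraph.Reachable.refl _) hy
  have htwo : ∀ (S : Set Vo) (f : Vo → Bool) (a : Vo), Two G' S f a →
      Two G (Subtype.val '' S) (ex f) a.1 := by
    rintro S f a ⟨y, z, h1, h2, h3, h4, h5, h6, h7⟩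
    exact ⟨y.1, z.1, fun h => h1 (Subtype.ext h), (hadj _ _).1 h2, (hadj _ _).1 h3,
      ⟨y, h4, rfl⟩, ⟨z, h5, rfl⟩, by rw [hex1, hex1]; exact h6, by rw [hex1, hex1]; exact h7⟩
  have hnofin : ∀ S : Set Vo, S.Finite → S.Nonempty → ∀ c : Vo → Bool, ¬ Core G' S c := by
    intro S hS hne c hco
    refine hcl1 (Subtype.val '' S) (hS.image _) (hne.image _) ?_ (ex c) ?_ ?_
    · rw [Set.disjoint_left]
      rintro _ ⟨a, _, rfl⟩ ha
      exact hY1Vo _ ha a.2
    · intro y hy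
      exact hex2 _ _ (hY1Vo y hy)
    · rintro _ ⟨a, ha, rfl⟩
      exact two_mono (htwo S c a (hco a ha)) subset_union_right (fun _ _ => rfl) rfl
  -- the core on the missed components
  obtain ⟨F, hFG, hFm, hFac, hF2, hF3⟩ := hFOR Vo G' hBG' hnb hnofin
  have hBF : BG F 3 := ⟨hFm, fun x => (Set.encard_le_encard fun y hy => hFG hy).trans (hBG'.deg x)⟩
  obtain ⟨ca, hca, hcainf⟩ := hCELL Vo F hBF hFac hF2 hF3
  obtain ⟨cb, hcb, hcbinf⟩ := hEXT Vo G' 3 hBG' ca hca (by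
    intro x
    obtain ⟨y, hxy, hy⟩ := hcainf x
    refine ⟨y, hxy.mono hFG, hy.mono fun z hz => ?_⟩
    refine SimpleGraph.Reachable.mono ?_ hz
    intro a b hab
    exact ⟨hFG hab.1, hab.2⟩)
  obtain ⟨X, cc, hX, hcc, hXcore, hXmeet⟩ := hCORE Vo G' hBG' hnb cb hcb hcbinf
  -- the core that meets every component
  have hcore2 : Core G (Y1 ∪ Subtype.val '' X) (ex cc) := by
    rintro x (hx | ⟨a, ha, rfl⟩)
    · exact two_mono (hcore1 x hx) subset_union_left (fun y hy => hex2 _ _ (hY1Vo y hy))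
        (hex2 _ _ (hY1Vo x hx))
    · exact two_mono (htwo X cc a (hXcore a ha)) subset_union_right (fun _ _ => rfl) rfl
  have hmeet : ∀ x, ∃ y ∈ Y1 ∪ Subtype.val '' X, G.Reachable x y := by
    intro x
    by_cases hx : x ∈ Vo
    · obtain ⟨y, hy, hxy⟩ := hXmeet ⟨x, hx⟩
      refine ⟨y.1, Or.inr ⟨y, hy, rfl⟩, ?_⟩
      have := hxy.map (⟨Subtype.val, fun {a b} h => (hadj a b).1 h⟩ : G' →g G)
      exact this
    · rw [hVo] at hx
      simp only [mem_ofPred_eq, not_forall, not_not] at hx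
      obtain ⟨y, hxy, hy⟩ := hx
      exact ⟨y, Or.inl hy, hxy⟩
  obtain ⟨Y3, c3, hsub, hY3, hc3, -, hcore3, hcl3⟩ := hCLOSE V G 3 hG _ _
    (hY1.union (hVom.subtype_image hX)) (hexm cc hcc) hcore2
  obtain ⟨c4, hc4, h4⟩ := hFIN V G hG h3 Y3 c3 hY3 hc3 hcore3 hcl3 (fun x => by
    obtain ⟨y, hy, hxy⟩ := hmeet x
    exact ⟨y, hsub hy, hxy⟩)
  exact ⟨c4, hc4, fun v => ncard_le_of_two (h3 v) (h4 v)⟩

end Pool.Agent.Helper611.UF
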