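import Pool.Agent.Helper611.UF.Defs

/-!
# Project UF: statements of the parts
-/

set_option autoImplicit false

namespace Pool.Agent.Helper611.UF

open MeasureTheory

/-! ## Toolkit -/

/-- ENUM: Borel functions `w n`, each moving points by a bounded distance, that enumerate the
components of a Borel graph of bounded degree. -/
def S_ENUM : Prop :=
  ∀ (V : Type) [MeasurableSpace V] [StandardBorelSpace V] (G : SimpleGraph V) (Δ : ℕ), BG G Δ →
    ∃ w : ℕ → V → V, Enum G.Reachable w ∧ ∀ n, ∃ m : ℕ, ∀ x, G.dist x (w n x) ≤ m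

/-- EX: quantifying over a section preserves measurability. -/
def S_EX : Prop :=
  ∀ (V : Type) [MeasurableSpace V] [StandardBorelSpace V] (E : V → V → Prop) (w : ℕ → V → V),
    Enum E w → ∀ (Z : Type) [MeasurableSpace Z] (π : Z → V), Measurable π →
    ∀ A : Z → V → Prop, MeasurableSet {p : Z × V | A p.1 p.2} →
      MeasurableSet {z | ∃ y, E (π z) y ∧ A z y} ∧ MeasurableSet {z | ∀ y, E (π z) y → A z y}

/-- SEL: Borel selection of the least element of a finite section. -/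
def S_SEL : Prop :=
  ∀ (V : Type) [MeasurableSpace V] [StandardBorelSpace V] (E : V → V → Prop) (w : ℕ → V → V),
    Enum E w → ∀ r : V → ℝ, Measurable r → Function.Injective r →
    ∀ P : V → V → Prop, Bor2 P → (∀ x y, P x y → E x y) → (∀ x, {y | P x y}.Finite) →
      ∃ f : V → V, Measurable f ∧ (∀ x, (∃ y, P x y) → P x (f x) ∧ ∀ y, P x y → r (f x) ≤ r y) ∧
        ∀ x, (¬ ∃ y, P x y) → f x = x

/-- INF: having an infinite section is a Borel condition. -/
def S_INF : Prop :=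
  ∀ (V : Type) [MeasurableSpace V] [StandardBorelSpace V] (E : V → V → Prop) (w : ℕ → V → V),
    Enum E w → ∀ P : V → V → Prop, Bor2 P → (∀ x y, P x y → E x y) →
      MeasurableSet {x | {y | P x y}.Infinite}

/-- REACH: reachability and distance in a Borel family of graphs. -/
def S_REACH : Prop :=
  ∀ (V : Type) [MeasurableSpace V] [StandardBorelSpace V] (E : V → V → Prop) (w : ℕ → V → V),
    Equivalence E → Enum E w →
    ∀ (Z : Type) [MeasurableSpace Z] (H : Z → SimpleGraph V),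
      MeasurableSet {p : Z × V × V | (H p.1).Adj p.2.1 p.2.2} →
      (∀ z x y, (H z).Adj x y → E x y) → ∀ s t : Z → V, Measurable s → Measurable t →
      MeasurableSet {z | (H z).Reachable (s z) (t z)} ∧
      ∀ n : ℕ, MeasurableSet {z | (H z).Reachable (s z) (t z) ∧ (H z).dist (s z) (t z) ≤ n}

/-- BALL: balls have bounded size. -/
def S_BALL : Prop :=
  ∀ (V : Type) (G : SimpleGraph V) (Δ : ℕ), (∀ x, (G.neighborSet x).encard ≤ Δ) → ∀ n : ℕ,
    ∃ M : ℕ, ∀ x, {y | G.Reachable x y ∧ G.dist x y ≤ n}.encard ≤ M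

/-- COL: finite Borel colourings of the balls. -/
def S_COL : Prop :=
  ∀ (V : Type) [MeasurableSpace V] [StandardBorelSpace V] (G : SimpleGraph V) (Δ : ℕ), BG G Δ →
    ∀ n : ℕ, ∃ (k : ℕ) (κ : V → Fin k), Measurable κ ∧
      ∀ x y, x ≠ y → G.Reachable x y → G.dist x y ≤ n → κ x ≠ κ y

/-- MIS: Borel maximal discrete subsets of a Borel set. -/
def S_MIS : Prop :=
  ∀ (V : Type) [MeasurableSpace V] [StandardBorelSpace V] (G : SimpleGraph V) (Δ : ℕ), BG G Δ →
    ∀ (n : ℕ) (L : Set V), MeasurableSet L → ∃ Z ⊆ L, MeasurableSet Z ∧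
      (∀ x ∈ Z, ∀ y ∈ Z, x ≠ y → G.Reachable x y → n < G.dist x y) ∧
      ∀ x ∈ L, ∃ z ∈ Z, G.Reachable x z ∧ G.dist x z ≤ n

/-- SUM: sums over the neighbours are Borel. -/
def S_SUM : Prop :=
  ∀ (V : Type) [MeasurableSpace V] [StandardBorelSpace V] (G : SimpleGraph V) (Δ : ℕ), BG G Δ →
    ∀ (N : V → Finset V), (∀ x y, y ∈ N x ↔ G.Adj x y) →
    ∀ f : V → V → ℤ, (Measurable fun p : V × V => f p.1 p.2) →
      Measurable fun x => ∑ y ∈ N x, f x y

/-! ## Paths -/

/-- PATH: simple paths and shortest paths as sequences. -/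
def S_PATH : Prop :=
  ∀ (V : Type) (H : SimpleGraph V) (x y : V), H.Reachable x y →
    (∃ (n : ℕ) (v : ℕ → V), v 0 = x ∧ v n = y ∧ (∀ i < n, H.Adj (v i) (v (i + 1))) ∧
      ∀ i ≤ n, ∀ j ≤ n, v i = v j → i = j) ∧
    ∃ v : ℕ → V, v 0 = x ∧ v (H.dist x y) = y ∧
      (∀ i < H.dist x y, H.Adj (v i) (v (i + 1))) ∧
      ∀ i ≤ H.dist x y, H.Reachable x (v i) ∧ H.dist x (v i) = i

/-! ## Extending cores -/

/-- CLOSE: every Borel core extends to a closed Borel core. -/
def S_CLOSE : Prop :=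
  ∀ (V : Type) [MeasurableSpace V] [StandardBorelSpace V] (G : SimpleGraph V) (Δ : ℕ), BG G Δ →
    ∀ (Y : Set V) (c : V → Bool), MeasurableSet Y → Measurable c → Core G Y c →
    ∃ (Y' : Set V) (c' : V → Bool), Y ⊆ Y' ∧ MeasurableSet Y' ∧ Measurable c' ∧
      (∀ y ∈ Y, c' y = c y) ∧ Core G Y' c' ∧ Closed G Y' c'

/-- FIN: a closed Borel core that meets every component extends to everything. -/
def S_FIN : Prop :=
  ∀ (V : Type) [MeasurableSpace V] [StandardBorelSpace V] (G : SimpleGraph V), BG G 3 →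
    (∀ x, (G.neighborSet x).ncard = 3) →
    ∀ (Y : Set V) (c : V → Bool), MeasurableSet Y → Measurable c → Core G Y c → Closed G Y c →
    (∀ x, ∃ y ∈ Y, G.Reachable x y) →
    ∃ c' : V → Bool, Measurable c' ∧ ∀ x, Two G Set.univ c' x

/-! ## The forest -/

/-- FOR: a 3-regular Borel graph without finite cores contains a Borel forest with large degrees. -/
def S_FOR : Prop :=
  ∀ (V : Type) [MeasurableSpace V] [StandardBorelSpace V] (G : SimpleGraph V), BG G 3 →
    (∀ x, (G.neighborSet x).ncard = 3) →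
    (∀ S : Set V, S.Finite → S.Nonempty → ∀ c : V → Bool, ¬ Core G S c) →
    ∃ F : SimpleGraph V, F ≤ G ∧ Bor2 F.Adj ∧ F.IsAcyclic ∧ (∀ x, 2 ≤ (F.neighborSet x).ncard) ∧
      ∀ x, (F.neighborSet x).ncard = 3 ∨ ∃ y, F.Adj x y ∧ (F.neighborSet y).ncard = 3

/-! ## Cells -/

/-- VOR: Voronoi cells. -/
def S_VOR : Prop :=
  ∀ (V : Type) [MeasurableSpace V] [StandardBorelSpace V] (F : SimpleGraph V) (Δ : ℕ), BG F Δ →
    ∀ ρ : ℕ, ∃ a : V → V, Measurable a ∧ (∀ x, a (a x) = a x) ∧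
      (∀ x, F.Reachable x (a x) ∧ F.dist x (a x) ≤ 2 * ρ) ∧
      (∀ x, x ≠ a x → ∃ y, F.Adj x y ∧ a y = a x ∧ F.dist y (a x) + 1 = F.dist x (a x)) ∧
      ∀ x y, a x = x → F.Reachable y x → F.dist y x ≤ ρ → a y = x

/-- CON: if the cells of `a` are connected, the graph of the cells is a forest and every edge of it
comes from exactly one edge of `F`. -/
def S_CON : Prop :=
  ∀ (V : Type) (F : SimpleGraph V) (a : V → V), F.IsAcyclic → (∀ x, a (a x) = a x) →
    (∀ x, x ≠ a x → ∃ y, F.Adj x y ∧ a y = a x ∧ F.dist y (a x) + 1 = F.dist x (a x)) →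
    (∀ x, F.Reachable x (a x)) →
    (Cells F a).IsAcyclic ∧
    ∀ x y x' y', F.Adj x y → F.Adj x' y' → a x = a x' → a y = a y' → a x ≠ a y →
      x = x' ∧ y = y'

/-- DEG: the degrees in the graph of the cells are large. -/
def S_DEG : Prop :=
  ∀ (V : Type) (F : SimpleGraph V) (a : V → V), F.IsAcyclic → (∀ x, a (a x) = a x) →
    (∀ x, x ≠ a x → ∃ y, F.Adj x y ∧ a y = a x ∧ F.dist y (a x) + 1 = F.dist x (a x)) →
    (∀ x, F.Reachable x (a x)) → (∀ x, {y | a y = a x}.Finite) →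
    (∀ x, (F.neighborSet x).encard ≤ 3) → (∀ x, 2 ≤ (F.neighborSet x).ncard) →
    (∀ x, (F.neighborSet x).ncard = 3 ∨ ∃ y, F.Adj x y ∧ (F.neighborSet y).ncard = 3) →
    (∀ x y, a x = x → F.Reachable y x → F.dist y x ≤ 4800 → a y = x) →
    (∀ x y x' y', F.Adj x y → F.Adj x' y' → a x = a x' → a y = a y' → a x ≠ a y →
      x = x' ∧ y = y') →
    ∀ p, 1600 ≤ ((Cells F a).neighborSet p).encard

/-- CELL: a Borel colouring of a forest with an infinite cluster in every component. -/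
def S_CELL : Prop :=
  ∀ (V : Type) [MeasurableSpace V] [StandardBorelSpace V] (F : SimpleGraph V), BG F 3 →
    F.IsAcyclic → (∀ x, 2 ≤ (F.neighborSet x).ncard) →
    (∀ x, (F.neighborSet x).ncard = 3 ∨ ∃ y, F.Adj x y ∧ (F.neighborSet y).ncard = 3) →
    ∃ c : V → Bool, Measurable c ∧
      ∀ x, ∃ y, F.Reachable x y ∧ {z | (Alt F c).Reachable y z}.Infinite

/-! ## Forests of large degree -/

/-- MOM: the expected absolute value of the vote. -/
def S_MOM : Prop :=
  ∀ (k : ℕ) (s : Finset (Fin k)) (t : Fin k → Bool), 1600 ≤ s.card →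
    6 * (4 : ℤ) ^ k < ∑ ω : Fin k → Bool × Bool, |∑ i ∈ s, xi (t i) (ω i)|

/-- COUNT: the expected number of satisfied edges at a point. -/
def S_COUNT : Prop :=
  ∀ (W : Type) (Q : SimpleGraph W) (N : W → Finset W) (k : ℕ) (κ : W → Fin k) (τ : W → W → Bool),
    (∀ x y, y ∈ N x ↔ Q.Adj x y) → Q.IsAcyclic → (∀ x y, τ x y = τ y x) →
    (∀ x y, x ≠ y → Q.Reachable x y → Q.dist x y ≤ 3 → κ x ≠ κ y) →
    ∀ x, 1600 ≤ (N x).card →
      ((N x).card + 3) * 4 ^ k <
        2 * ∑ y ∈ N x, (Finset.univ.filter fun ω : Fin k → Bool × Bool =>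
          xor (gau N τ κ ω x) (gau N τ κ ω y) = τ x y).card

/-- TREE: parents in rooted trees. -/
def S_TREE : Prop :=
  ∀ (W : Type) (T : SimpleGraph W), T.IsAcyclic → ∀ root : W → W, (∀ x, T.Reachable x (root x)) →
    (∀ x y, T.Reachable x y → root x = root y) →
    (∀ x y, T.Adj x y → Par T root x y ∨ Par T root y x) ∧
    ∀ x y z, Par T root y x → Par T root z x → y = z

/-- RAY: rays along a relation with unique parents and at least two children. -/
def S_RAY : Prop :=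
  ∀ (W : Type) [MeasurableSpace W] [StandardBorelSpace W] (Q : SimpleGraph W) (Δ : ℕ), BG Q Δ →
    ∀ τ : W → W → Bool, Bor2 (fun x y => τ x y = true) → (∀ x y, τ x y = τ y x) →
    ∀ (B : Set W) (Ch : W → W → Prop), MeasurableSet B → Bor2 Ch →
    (∀ x y, Ch x y → Q.Adj x y) → (∀ x y, Q.Adj x y → x ∈ B → y ∈ B) →
    (∀ x y z, x ∈ B → Ch y x → Ch z x → y = z) →
    (∀ x ∈ B, ∃ y z, y ≠ z ∧ Ch x y ∧ Ch x z) →
    ∃ g : W → Bool, Measurable g ∧
      ∀ x ∈ B, ∃ y, Q.Reachable x y ∧ {z | (Sat Q τ g).Reachable y z}.Infinite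

/-- Q: Borel gauges with infinite satisfied clusters on Borel forests of large degree. -/
def S_Q : Prop :=
  ∀ (W : Type) [MeasurableSpace W] [StandardBorelSpace W] (Q : SimpleGraph W) (Δ : ℕ), BG Q Δ →
    Q.IsAcyclic → (∀ x, 1600 ≤ (Q.neighborSet x).encard) →
    ∀ τ : W → W → Bool, Bor2 (fun x y => τ x y = true) → (∀ x y, τ x y = τ y x) →
    ∃ g : W → Bool, Measurable g ∧
      ∀ x, ∃ y, Q.Reachable x y ∧ {z | (Sat Q τ g).Reachable y z}.Infinite

/-! ## From infinite clusters to cores -/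

/-- EXT: the colouring can be changed such that all clusters are infinite. -/
def S_EXT : Prop :=
  ∀ (V : Type) [MeasurableSpace V] [StandardBorelSpace V] (G : SimpleGraph V) (Δ : ℕ), BG G Δ →
    ∀ c : V → Bool, Measurable c →
    (∀ x, ∃ y, G.Reachable x y ∧ {z | (Alt G c).Reachable y z}.Infinite) →
    ∃ c' : V → Bool, Measurable c' ∧ ∀ x, {z | (Alt G c').Reachable x z}.Infinite

/-- CORE: a Borel core meeting every component. -/
def S_CORE : Prop :=
  ∀ (V : Type) [MeasurableSpace V] [StandardBorelSpace V] (G : SimpleGraph V), BG G 3 →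
    (∀ x, (G.neighborSet x).ncard = 3) → ∀ c : V → Bool, Measurable c →
    (∀ x, {z | (Alt G c).Reachable x z}.Infinite) →
    ∃ (X : Set V) (c' : V → Bool), MeasurableSet X ∧ Measurable c' ∧ Core G X c' ∧
      ∀ x, ∃ y ∈ X, G.Reachable x y

/-! ## The theorem -/

/-- The theorem. -/
def S_MAIN : Prop :=
  ∀ (V : Type) [MeasurableSpace V] [StandardBorelSpace V] (G : SimpleGraph V),
    MeasurableSet {p : V × V | G.Adj p.1 p.2} →
    (∀ v : V, (G.neighborSet v).ncard = 3) →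
    ∃ c : V → Bool, Measurable c ∧
      ∀ v : V, {w : V | G.Adj v w ∧ c w = c v}.ncard ≤ {w : V | G.Adj v w ∧ c w ≠ c v}.ncard

end Pool.Agent.Helper611.UF
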