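import Pool.Agent.Helper611.UF.Stm

/-!
# Project UF: toolkit, part 1: EX, SEL, INF
-/

set_option autoImplicit false

namespace Pool.Agent.Helper611.UF

open MeasureTheory Set

theorem ex : S_EX := by
  intro V _ _ E w hw Z _ π hπ A hA
  have key : ∀ A : Z → V → Prop, MeasurableSet {p : Z × V | A p.1 p.2} →
      MeasurableSet {z | ∃ y, E (π z) y ∧ A z y} := by
    intro A hA
    have h1 : {z | ∃ y, E (π z) y ∧ A z y} =
        ⋃ n, (fun z => (z, w n (π z))) ⁻¹' {p : Z × V | A p.1 p.2} := by
      ext z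
      simp only [mem_ofPred_eq, mem_iUnion, mem_preimage]
      constructor
      · rintro ⟨y, hy, hA⟩
        obtain ⟨n, rfl⟩ := (hw.iff _ _).1 hy
        exact ⟨n, hA⟩
      · rintro ⟨n, hn⟩
        exact ⟨_, (hw.iff _ _).2 ⟨n, rfl⟩, hn⟩
    rw [h1]
    exact MeasurableSet.iUnion fun n => (measurable_id.prodMk ((hw.meas n).comp hπ)) hA
  refine ⟨key A hA, ?_⟩
  have h2 : {z | ∀ y, E (π z) y → A z y} = {z | ∃ y, E (π z) y ∧ ¬ A z y}ᶜ := by
    ext z
    simp
  rw [h2]
  exact (key _ hA.compl).compl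

/-- equality of two measurable functions -/
theorem measurableSet_eq' {V Z : Type} [MeasurableSpace V] [StandardBorelSpace V]
    [MeasurableSpace Z] {f g : Z → V} (hf : Measurable f) (hg : Measurable g) :
    MeasurableSet {z | f z = g z} := by
  have h1 : {z | f z = g z} = {z | embeddingReal V (f z) = embeddingReal V (g z)} := by
    ext z
    exact ⟨fun h => by rw [mem_ofPred_eq] at h ⊢; rw [h],
      fun h => (measurableEmbedding_embeddingReal V).injective h⟩
  rw [h1]
  exact measurableSet_eq_fun ((measurable_embeddingReal V).comp hf)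
    ((measurable_embeddingReal V).comp hg)

theorem sel : S_SEL := by
  classical
  intro V _ _ E w hw r hr hri P hP hPE hfin
  obtain ⟨Gd, hGd⟩ : ∃ Gd : ℕ → V → Prop, ∀ n x, Gd n x ↔
      P x (w n x) ∧ ∀ m, P x (w m x) → r (w n x) ≤ r (w m x) := ⟨_, fun _ _ => Iff.rfl⟩
  have hPn : ∀ n, MeasurableSet {x | P x (w n x)} := fun n =>
    (measurable_id.prodMk (hw.meas n)) hP
  have hGm : ∀ n, MeasurableSet {x | Gd n x} := by
    intro n
    have h1 : {x | Gd n x} = {x | P x (w n x)} ∩ ⋂ m, ({x | P x (w m x)}ᶜ ∪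
        {x | r (w n x) ≤ r (w m x)}) := by
      ext x
      simp only [mem_ofPred_eq, mem_inter_iff, mem_iInter, mem_union, mem_compl_iff, hGd]
      refine and_congr_right fun _ => forall_congr' fun m => ?_
      tauto
    rw [h1]
    refine (hPn n).inter (MeasurableSet.iInter fun m => (hPn m).compl.union ?_)
    exact measurableSet_le (hr.comp (hw.meas n)) (hr.comp (hw.meas m))
  have hex : ∀ x, (∃ y, P x y) → ∃ n, Gd n x := by
    intro x hx
    obtain ⟨y, hy, hmin⟩ := (hfin x).exists_minimalFor r _ hx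
    obtain ⟨n, rfl⟩ := (hw.iff _ _).1 (hPE _ _ hy)
    refine ⟨n, (hGd _ _).2 ⟨hy, fun m hm => ?_⟩⟩
    rcases le_total (r (w n x)) (r (w m x)) with h | h
    · exact h
    · exact hmin hm h
  refine ⟨fun x => if h : ∃ n, Gd n x then w (Nat.find h) x else x, ?_, ?_, ?_⟩
  · intro B hB
    have h1 : (fun x => if h : ∃ n, Gd n x then w (Nat.find h) x else x) ⁻¹' B =
        (⋃ n, ({x | Gd n x} ∩ (⋂ m ∈ Finset.range n, {x | Gd m x}ᶜ)) ∩ (w n) ⁻¹' B) ∪
        ((⋂ n, {x | Gd n x}ᶜ) ∩ B) := by
      ext x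
      simp only [mem_preimage, mem_union, mem_iUnion, mem_inter_iff, mem_ofPred_eq, mem_iInter,
        mem_compl_iff, Finset.mem_range]
      by_cases h : ∃ n, Gd n x
      · rw [dif_pos h]
        constructor
        · intro hx
          exact Or.inl ⟨Nat.find h, ⟨Nat.find_spec h, fun m hm => Nat.find_min h hm⟩, hx⟩
        · rintro (⟨n, ⟨h2, h3⟩, h4⟩ | ⟨h2, -⟩)
          · have : Nat.find h = n := by
              rw [Nat.find_eq_iff]
              exact ⟨h2, fun m hm => h3 m hm⟩
            rw [this]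
            exact h4
          · obtain ⟨n, hn⟩ := h
            exact absurd hn (h2 n)
      · rw [dif_neg h]
        constructor
        · intro hx
          exact Or.inr ⟨fun n hn => h ⟨n, hn⟩, hx⟩
        · rintro (⟨n, ⟨h2, -⟩, -⟩ | ⟨-, h4⟩)
          · exact absurd ⟨n, h2⟩ h
          · exact h4
    rw [h1]
    refine (MeasurableSet.iUnion fun n => ((hGm n).inter
      (Finset.measurableSet_biInter _ fun m _ => (hGm m).compl)).inter ((hw.meas n) hB)).union
      ((MeasurableSet.iInter fun n => (hGm n).compl).inter hB)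
  · intro x hx
    have h := hex x hx
    simp only
    rw [dif_pos h]
    obtain ⟨h1, h2⟩ := (hGd _ _).1 (Nat.find_spec h)
    refine ⟨h1, fun y hy => ?_⟩
    obtain ⟨m, rfl⟩ := (hw.iff _ _).1 (hPE _ _ hy)
    exact h2 m hy
  · intro x hx
    simp only
    rw [dif_neg]
    rintro ⟨n, hn⟩
    exact hx ⟨_, ((hGd _ _).1 hn).1⟩

theorem inf : S_INF := by
  classical
  intro V _ _ E w hw P hP hPE
  have hPn : ∀ n, MeasurableSet {x | P x (w n x)} := fun n =>
    (measurable_id.prodMk (hw.meas n)) hP
  have h1 : {x | {y | P x y}.Infinite} = ⋂ k, ⋃ n, ({x | k ≤ n} ∩ {x | P x (w n x)} ∩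
      ⋂ m ∈ Finset.range n, {x | w m x = w n x}ᶜ) := by
    ext x
    simp only [mem_ofPred_eq, mem_iInter, mem_iUnion, mem_inter_iff, mem_compl_iff,
      Finset.mem_range]
    constructor
    · intro hinf k
      by_contra hcon
      push Not at hcon
      apply hinf
      refine ((Finset.range k).image fun n => w n x).finite_toSet.subset ?_
      intro y hy
      have hex : ∃ n, w n x = y := (hw.iff _ _).1 (hPE _ _ hy)
      have h2 : Nat.find hex < k := by
        by_contra h3
        obtain ⟨m, hm1, hm2⟩ := hcon (Nat.find hex) ⟨not_lt.1 h3, by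
          rw [Nat.find_spec hex]; exact hy⟩
        rw [Nat.find_spec hex] at hm2
        exact Nat.find_min hex hm1 hm2
      rw [Finset.coe_image]
      exact ⟨_, Finset.mem_coe.2 (Finset.mem_range.2 h2), Nat.find_spec hex⟩
    · intro h hfin
      have hinj : Set.InjOn (fun n => w n x) {n | P x (w n x) ∧ ∀ m < n, ¬ w m x = w n x} := by
        intro a ha b hb hab
        rcases lt_trichotomy a b with h3 | h3 | h3
        · exact absurd hab (hb.2 a h3)
        · exact h3
        · exact absurd hab.symm (ha.2 b h3)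
      have hf : {n | P x (w n x) ∧ ∀ m < n, ¬ w m x = w n x}.Finite := by
        refine Set.Finite.of_finite_image (hfin.subset ?_) hinj
        rintro _ ⟨n, hn, rfl⟩
        exact hn.1
      obtain ⟨k, hk⟩ := hf.bddAbove
      obtain ⟨n, ⟨hn1, hn2⟩, hn3⟩ := h (k + 1)
      have := hk (show n ∈ _ from ⟨hn2, hn3⟩)
      omega
  rw [h1]
  refine MeasurableSet.iInter fun k => MeasurableSet.iUnion fun n => ?_
  refine (((MeasurableSet.const _)).inter (hPn n)).inter ?_
  exact Finset.measurableSet_biInter _ fun m _ => (measurableSet_eq' (hw.meas m) (hw.meas n)).compl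

end Pool.Agent.Helper611.UF
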