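import Pool.Agent.Helper611.UF.Tool1
import Pool.Agent.W515.MT.Enum

/-!
# Project UF: toolkit, part 2: ENUM, BALL, REACH, PATH
-/

set_option autoImplicit false

namespace Pool.Agent.Helper611.UF

open MeasureTheory Set

/-- the composition along a word -/
def wd {V : Type} {Δ : ℕ} (g : Fin Δ → V → V) : List (Fin Δ) → V → V
  | [], x => x
  | i :: l, x => wd g l (g i x)

theorem wd_meas {V : Type} [MeasurableSpace V] {Δ : ℕ} {g : Fin Δ → V → V}
    (hg : ∀ i, Measurable (g i)) (l : List (Fin Δ)) : Measurable (wd g l) := by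
  induction l with
  | nil => exact measurable_id
  | cons i l ih => exact ih.comp (hg i)

theorem exists_wd {V : Type} {G : SimpleGraph V} {Δ : ℕ} {g : Fin Δ → V → V}
    (hg : ∀ x y, G.Adj x y → ∃ i, g i x = y) {x y : V} (p : G.Walk x y) :
    ∃ l : List (Fin Δ), l.length = p.length ∧ wd g l x = y := by
  induction p with
  | nil => exact ⟨[], rfl, rfl⟩
  | cons h p ih =>
    obtain ⟨l, hl1, hl2⟩ := ih
    obtain ⟨i, rfl⟩ := hg _ _ h
    exact ⟨i :: l, by simp [hl1], hl2⟩

theorem exists_walk_wd {V : Type} {G : SimpleGraph V} {Δ : ℕ} {g : Fin Δ → V → V}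
    (hg : ∀ i x, g i x = x ∨ G.Adj x (g i x)) (l : List (Fin Δ)) (x : V) :
    ∃ p : G.Walk x (wd g l x), p.length ≤ l.length := by
  induction l generalizing x with
  | nil => exact ⟨SimpleGraph.Walk.nil, le_rfl⟩
  | cons i l ih =>
    change ∃ p : G.Walk x (wd g l (g i x)), p.length ≤ (i :: l).length
    obtain ⟨p, hp⟩ := ih (g i x)
    rcases hg i x with h | h
    · refine ⟨p.copy h rfl, ?_⟩
      rw [SimpleGraph.Walk.length_copy, List.length_cons]
      omega
    · refine ⟨SimpleGraph.Walk.cons h p, ?_⟩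
      rw [SimpleGraph.Walk.length_cons, List.length_cons]
      omega

theorem exists_nb {V : Type} [MeasurableSpace V] [StandardBorelSpace V] {G : SimpleGraph V}
    {Δ : ℕ} (hG : BG G Δ) : ∃ g : Fin Δ → V → V, (∀ i, Measurable (g i)) ∧
      (∀ x y, G.Adj x y → ∃ i, g i x = y) ∧ ∀ i x, g i x = x ∨ G.Adj x (g i x) :=
  Pool.Agent.W515.MT.main V G Δ hG.adj hG.deg

theorem enum : S_ENUM := by
  intro V _ _ G Δ hG
  obtain ⟨g, hg1, hg2, hg3⟩ := exists_nb hG
  refine ⟨fun n => wd g ((Encodable.decode (α := List (Fin Δ)) n).getD []), ⟨fun n => wd_meas hg1 _,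
    fun x y => ⟨?_, ?_⟩⟩, fun n =>
      ⟨((Encodable.decode (α := List (Fin Δ)) n).getD []).length, fun x => ?_⟩⟩
  · rintro ⟨p⟩
    obtain ⟨l, -, hl⟩ := exists_wd hg2 p
    refine ⟨Encodable.encode l, ?_⟩
    simp only [Encodable.encodek, Option.getD_some]
    exact hl
  · rintro ⟨n, rfl⟩
    obtain ⟨p, -⟩ := exists_walk_wd hg3 ((Encodable.decode (α := List (Fin Δ)) n).getD []) x
    exact ⟨p⟩
  · obtain ⟨p, hp⟩ := exists_walk_wd hg3 ((Encodable.decode (α := List (Fin Δ)) n).getD []) x
    exact (SimpleGraph.dist_le p).trans hp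

theorem exists_cover {V : Type} {G : SimpleGraph V} {Δ : ℕ}
    (hd : ∀ x, (G.neighborSet x).encard ≤ Δ) :
    ∃ g : Fin Δ → V → V, ∀ x y, G.Adj x y → ∃ i, g i x = y := by
  classical
  have h : ∀ x, ∃ f : Fin Δ → V, ∀ y, G.Adj x y → ∃ i, f i = y := by
    intro x
    obtain ⟨hf, hc⟩ := Set.encard_le_coe_iff_finite_ncard_le.1 (hd x)
    refine ⟨fun i => (hf.toFinset.toList)[i.1]?.getD x, fun y hy => ?_⟩
    have h1 : y ∈ hf.toFinset.toList := by
      rw [Finset.mem_toList, Set.Finite.mem_toFinset]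
      exact hy
    obtain ⟨i, hi, hy⟩ := List.getElem_of_mem h1
    have h2 : hf.toFinset.toList.length ≤ Δ := by
      rw [Finset.length_toList, ← Set.ncard_eq_toFinset_card _ hf]
      exact hc
    refine ⟨⟨i, by omega⟩, ?_⟩
    simp only
    rw [List.getElem?_eq_getElem hi, Option.getD_some, hy]
  choose f hf using h
  exact ⟨fun i x => f x i, fun x y hxy => hf x y hxy⟩

theorem ball : S_BALL := by
  intro V G Δ hd n
  obtain ⟨g, hg⟩ := exists_cover hd
  have hfin : {l : List (Fin Δ) | l.length ≤ n}.Finite := List.finite_length_le _ _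
  refine ⟨{l : List (Fin Δ) | l.length ≤ n}.ncard, fun x => ?_⟩
  rw [hfin.cast_ncard_eq]
  refine (Set.encard_le_encard (t := (fun l => wd g l x) '' {l : List (Fin Δ) | l.length ≤ n})
    ?_).trans (Set.encard_image_le _ _)
  rintro y ⟨hr, hdist⟩
  obtain ⟨p, hp⟩ := hr.exists_walk_length_eq_dist
  obtain ⟨l, hl1, hl2⟩ := exists_wd hg p
  exact ⟨l, by rw [mem_ofPred_eq, hl1, hp]; exact hdist, hl2⟩

theorem reach : S_REACH := by
  intro V _ _ E w hE hw Z _ H hH hHE s t hs ht
  obtain ⟨R, hR⟩ : ∃ R : ℕ → Z → V → Prop, ∀ n z y, R n z y ↔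
      ∃ p : (H z).Walk (s z) y, p.length ≤ n := ⟨_, fun _ _ _ => Iff.rfl⟩
  have hRE : ∀ n z y, R n z y → E (s z) y := by
    intro n z y h
    obtain ⟨p, -⟩ := (hR n z y).1 h
    clear h
    have h1 : ∀ (a b : V) (p : (H z).Walk a b), E a b := by
      intro a b p
      induction p with
      | nil => exact hE.refl _
      | cons h p ih => exact hE.trans (hHE _ _ _ h) ih
    exact h1 _ _ p
  have hsucc : ∀ n z y, R (n + 1) z y ↔ (R n z y ∨ ∃ y', R n z y' ∧ (H z).Adj y' y) := by
    intro n z y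
    constructor
    · intro h
      obtain ⟨p, hp⟩ := (hR _ _ _).1 h
      rcases Nat.lt_or_ge n p.length with h1 | h1
      · right
        have hnn : ¬ p.Nil := by
          intro h2
          rw [← SimpleGraph.Walk.length_eq_zero_iff] at h2
          omega
        refine ⟨p.penultimate, (hR _ _ _).2 ⟨p.dropLast, ?_⟩, p.adj_penultimate hnn⟩
        have := p.length_dropLast_add_one hnn
        omega
      · exact Or.inl ((hR _ _ _).2 ⟨p, h1⟩)
    · rintro (h | ⟨y', h, hadj⟩)
      · obtain ⟨p, hp⟩ := (hR _ _ _).1 h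
        exact (hR _ _ _).2 ⟨p, by omega⟩
      · obtain ⟨p, hp⟩ := (hR _ _ _).1 h
        refine (hR _ _ _).2 ⟨p.concat hadj, ?_⟩
        rw [SimpleGraph.Walk.length_concat]
        omega
  have hzero : ∀ z y, R 0 z y ↔ s z = y := by
    intro z y
    rw [hR]
    constructor
    · rintro ⟨p, hp⟩
      exact SimpleGraph.Walk.eq_of_length_eq_zero (p := p) (by omega)
    · rintro h
      exact ⟨SimpleGraph.Walk.nil.copy rfl h, by simp⟩
  have hm : ∀ n, MeasurableSet {p : Z × V | R n p.1 p.2} := by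
    intro n
    induction n with
    | zero =>
      have h1 : {p : Z × V | R 0 p.1 p.2} = {p | s p.1 = p.2} := by
        ext p
        exact hzero _ _
      rw [h1]
      exact measurableSet_eq' (hs.comp measurable_fst) measurable_snd
    | succ n ih =>
      have h1 : {p : Z × V | R (n + 1) p.1 p.2} = {p : Z × V | R n p.1 p.2} ∪
          {p : Z × V | ∃ y', E (s p.1) y' ∧ (R n p.1 y' ∧ (H p.1).Adj y' p.2)} := by
        ext p
        simp only [mem_ofPred_eq, mem_union]
        rw [hsucc]
        refine or_congr_right ?_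
        constructor
        · rintro ⟨y', h2, h3⟩
          exact ⟨y', hRE _ _ _ h2, h2, h3⟩
        · rintro ⟨y', -, h2, h3⟩
          exact ⟨y', h2, h3⟩
      rw [h1]
      refine ih.union ?_
      refine (ex V E w hw (Z × V) (fun p => s p.1) (hs.comp measurable_fst)
        (fun p y' => R n p.1 y' ∧ (H p.1).Adj y' p.2) ?_).1
      have h2 : {p : (Z × V) × V | R n p.1.1 p.2 ∧ (H p.1.1).Adj p.2 p.1.2} =
          (fun p : (Z × V) × V => (p.1.1, p.2)) ⁻¹' {p : Z × V | R n p.1 p.2} ∩
          (fun p : (Z × V) × V => (p.1.1, p.2, p.1.2)) ⁻¹'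
            {p : Z × V × V | (H p.1).Adj p.2.1 p.2.2} := by
        ext p
        rfl
      rw [h2]
      exact (((measurable_fst.comp measurable_fst).prodMk measurable_snd) ih).inter
        (((measurable_fst.comp measurable_fst).prodMk
          (measurable_snd.prodMk (measurable_snd.comp measurable_fst))) hH)
  have hm2 : ∀ n, MeasurableSet {z | R n z (t z)} := fun n => (measurable_id.prodMk ht) (hm n)
  constructor
  · have h1 : {z | (H z).Reachable (s z) (t z)} = ⋃ n, {z | R n z (t z)} := by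
      ext z
      simp only [mem_ofPred_eq, mem_iUnion]
      constructor
      · rintro ⟨p⟩
        exact ⟨p.length, (hR _ _ _).2 ⟨p, le_rfl⟩⟩
      · rintro ⟨n, hn⟩
        obtain ⟨p, -⟩ := (hR _ _ _).1 hn
        exact ⟨p⟩
    rw [h1]
    exact MeasurableSet.iUnion hm2
  · intro n
    have h1 : {z | (H z).Reachable (s z) (t z) ∧ (H z).dist (s z) (t z) ≤ n} =
        {z | R n z (t z)} := by
      ext z
      simp only [mem_ofPred_eq]
      rw [hR]
      constructor
      · rintro ⟨h2, h3⟩
        obtain ⟨p, hp⟩ := h2.exists_walk_length_eq_dist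
        exact ⟨p, by omega⟩
      · rintro ⟨p, hp⟩
        exact ⟨⟨p⟩, (SimpleGraph.dist_le p).trans hp⟩
    rw [h1]
    exact hm2 n

theorem path : S_PATH := by
  classical
  intro V H x y hxy
  constructor
  · obtain ⟨p⟩ := hxy
    obtain ⟨q, hq⟩ := p.toPath
    refine ⟨q.length, q.getVert, q.getVert_zero, q.getVert_length, fun i hi =>
      q.adj_getVert_succ hi, fun i hi j hj hij => ?_⟩
    exact hq.getVert_injOn hi hj hij
  · obtain ⟨p, hp⟩ := hxy.exists_walk_length_eq_dist
    refine ⟨p.getVert, p.getVert_zero, ?_, fun i hi => p.adj_getVert_succ (by omega),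
      fun i hi => ?_⟩
    · rw [← hp]
      exact p.getVert_length
    · have h1 : H.Reachable x (p.getVert i) := ⟨p.take i⟩
      refine ⟨h1, le_antisymm ?_ ?_⟩
      · refine (SimpleGraph.dist_le (p.take i)).trans ?_
        rw [SimpleGraph.Walk.take_length]
        exact min_le_left _ _
      · have h2 : H.dist x y ≤ H.dist x (p.getVert i) + H.dist (p.getVert i) y := by
          obtain ⟨q1, hq1⟩ := h1.exists_walk_length_eq_dist
          obtain ⟨q2, hq2⟩ := (h1.symm.trans hxy).exists_walk_length_eq_dist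
          rw [← hq1, ← hq2, ← SimpleGraph.Walk.length_append]
          exact SimpleGraph.dist_le _
        have h3 : H.dist (p.getVert i) y ≤ p.length - i := by
          refine (SimpleGraph.dist_le (p.drop i)).trans ?_
          rw [SimpleGraph.Walk.drop_length]
        omega

end Pool.Agent.Helper611.UF
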